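import Pool.Agent.H688R2.Ord.Spec

/-!
# Comparing two sums over fibres
-/

namespace H688R2.Ord

open Equiv Finset H688R2.Sym H688R2.Gap H688R2.Cnt

theorem t_CMP : S_CMP := by
  classical
  intro X X' ι m s s' τ τ' T T' h1 h2 h3 h4
  have hs : ∀ x ∈ s, τ x ∈ s.image τ ∪ s'.image τ' :=
    fun x hx => mem_union_left _ (mem_image_of_mem _ hx)
  have hs' : ∀ x ∈ s', τ' x ∈ s.image τ ∪ s'.image τ' :=
    fun x hx => mem_union_right _ (mem_image_of_mem _ hx)
  rw [← Finset.sum_fiberwise_of_maps_to hs T, ← Finset.sum_fiberwise_of_maps_to hs' T']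
  apply Finset.sum_congr rfl
  intro i _
  have c1 : Nat.card {x // x ∈ s ∧ τ x = i} = (s.filter fun x => τ x = i).card :=
    Nat.subtype_card _ (by simp)
  have c2 : Nat.card {x // x ∈ s' ∧ τ' x = i} = (s'.filter fun x => τ' x = i).card :=
    Nat.subtype_card _ (by simp)
  have hc := h4 i
  rw [c1, c2] at hc
  rcases (s.filter fun x => τ x = i).eq_empty_or_nonempty with he | ⟨x0, hx0⟩
  · rcases (s'.filter fun x => τ' x = i).eq_empty_or_nonempty with he' | ⟨y0, hy0⟩
    · rw [he, he']; simp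
    · rw [he, Finset.card_empty, Nat.cast_zero] at hc
      rw [he, Finset.sum_empty]
      have : ∀ y ∈ s'.filter fun x => τ' x = i, T' y = T' y0 := by
        intro y hy
        rw [mem_filter] at hy hy0
        exact h3 y hy.1 y0 hy0.1 (hy.2.trans hy0.2.symm)
      rw [Finset.sum_congr rfl this, Finset.sum_const, nsmul_eq_mul, ← hc, zero_mul]
  · have k1 : ∀ y ∈ s.filter fun x => τ x = i, T y = T x0 := by
      intro y hy
      rw [mem_filter] at hy hx0
      exact h2 y hy.1 x0 hx0.1 (hy.2.trans hx0.2.symm)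
    rw [Finset.sum_congr rfl k1, Finset.sum_const, nsmul_eq_mul, hc]
    rcases (s'.filter fun x => τ' x = i).eq_empty_or_nonempty with he' | ⟨y0, hy0⟩
    · rw [he', Finset.card_empty, Finset.sum_empty, Nat.cast_zero, zero_mul]
    · have k2 : ∀ y ∈ s'.filter fun x => τ' x = i, T' y = T' y0 := by
        intro y hy
        rw [mem_filter] at hy hy0
        exact h3 y hy.1 y0 hy0.1 (hy.2.trans hy0.2.symm)
      rw [Finset.sum_congr rfl k2, Finset.sum_const, nsmul_eq_mul]
      rw [mem_filter] at hx0 hy0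
      rw [h1 x0 hx0.1 y0 hy0.1 (hx0.2.trans hy0.2.symm)]

end H688R2.Ord
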