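import Pool.Agent.H688R2.Ord.Spec

namespace H688R2.Ord

open Equiv Finset H688R2.Sym H688R2.Gap H688R2.Cnt

theorem cnt_choose (m P K : ℕ) (h : ∀ t j, 1 ≤ j → j ≤ K → m ∣ (t * P).choose j) (t : ℕ)
    (ht : 1 ≤ t * P) (r : ℕ) (hr : r ≤ K) :
    (((t * P - 1).choose r : ℕ) : ZMod m) = (-1) ^ r := by
  induction r with
  | zero => simp
  | succ r ih =>
    have h1 := ih (by omega)
    have h2 : (t * P).choose (r + 1) = (t * P - 1).choose r + (t * P - 1).choose (r + 1) := by
      obtain ⟨n, hn⟩ : ∃ n, t * P = n + 1 := ⟨t * P - 1, by omega⟩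
      rw [hn, Nat.choose_succ_succ]
      rfl
    have h3 : (((t * P).choose (r + 1) : ℕ) : ZMod m) = 0 :=
      (ZMod.natCast_eq_zero_iff _ _).2 (h t (r + 1) (by omega) hr)
    rw [h2] at h3
    push_cast at h3
    rw [pow_succ, ← h1]
    linear_combination h3

theorem cnt_rk_le {α : Type} [LinearOrder α] (Y : Finset α) (x : α) : rk Y x ≤ Y.card :=
  Finset.card_le_card (Finset.filter_subset _ _)

theorem cnt_card {α : Type} [LinearOrder α] (V Y : Finset α) (τ : ℕ → ℕ)
    (hτ : ∀ i, Y.card < i → τ i = 0) :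
    Nat.card {J : Finset α // J ⊆ V ∧ tau Y J = τ} =
      ∏ i ∈ range (Y.card + 1), ((V.filter fun x => rk Y x = i).card).choose (τ i) := by
  classical
  have h1 : Nat.card {J : Finset α // J ⊆ V ∧ tau Y J = τ} =
      (V.powerset.filter fun J => tau Y J = τ).card :=
    Nat.subtype_card _ (by intro J; simp)
  rw [h1, Finset.prod_range]
  have h2 : ∏ i : Fin (Y.card + 1), ((V.filter fun x => rk Y x = (i : ℕ)).card).choose (τ i) =
      (Fintype.piFinset fun i : Fin (Y.card + 1) =>
        powersetCard (τ i) (V.filter fun x => rk Y x = (i : ℕ))).card := by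
    rw [Fintype.card_piFinset]
    refine Finset.prod_congr rfl fun i _ => ?_
    rw [card_powersetCard]
  rw [h2]
  refine Finset.card_nbij' (fun J (i : Fin (Y.card + 1)) => J.filter fun x => rk Y x = (i : ℕ))
    (fun f => univ.biUnion f) ?_ ?_ ?_ ?_
  · intro J hJ
    rw [Finset.mem_coe, Finset.mem_filter, Finset.mem_powerset] at hJ
    rw [Finset.mem_coe, Fintype.mem_piFinset]
    intro i
    rw [mem_powersetCard]
    refine ⟨Finset.filter_subset_filter _ hJ.1, ?_⟩
    exact congrFun hJ.2 i
  · intro f hf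
    rw [Finset.mem_coe, Fintype.mem_piFinset] at hf
    rw [Finset.mem_coe, Finset.mem_filter, Finset.mem_powerset]
    have hf' : ∀ i, f i ⊆ V.filter (fun x => rk Y x = (i : ℕ)) ∧ (f i).card = τ i :=
      fun i => mem_powersetCard.1 (hf i)
    refine ⟨?_, ?_⟩
    · intro x hx
      obtain ⟨i, -, hi⟩ := Finset.mem_biUnion.1 hx
      exact (Finset.mem_filter.1 ((hf' i).1 hi)).1
    · funext i
      by_cases hi : i < Y.card + 1
      · have : ((univ.biUnion f).filter fun x => rk Y x = i) = f ⟨i, hi⟩ := by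
          ext x
          rw [Finset.mem_filter, Finset.mem_biUnion]
          constructor
          · rintro ⟨⟨j, -, hj⟩, hx⟩
            have h3 := (Finset.mem_filter.1 ((hf' j).1 hj)).2
            have h4 : j = ⟨i, hi⟩ := by
              apply Fin.ext
              rw [← h3, hx]
            rw [← h4]
            exact hj
          · intro hx
            exact ⟨⟨⟨i, hi⟩, Finset.mem_univ _, hx⟩,
              (Finset.mem_filter.1 ((hf' ⟨i, hi⟩).1 hx)).2⟩
        show ((univ.biUnion f).filter fun x => rk Y x = i).card = τ i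
        rw [this]
        exact (hf' ⟨i, hi⟩).2
      · rw [hτ i (by omega)]
        show ((univ.biUnion f).filter fun x => rk Y x = i).card = 0
        rw [Finset.card_eq_zero, Finset.filter_eq_empty_iff]
        intro x _ hx
        have := cnt_rk_le Y x
        omega
  · intro J hJ
    show univ.biUnion (fun (i : Fin (Y.card + 1)) => J.filter fun x => rk Y x = (i : ℕ)) = J
    ext x
    rw [Finset.mem_biUnion]
    constructor
    · rintro ⟨i, -, hi⟩
      exact (Finset.mem_filter.1 hi).1
    · intro hx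
      exact ⟨⟨rk Y x, by have := cnt_rk_le Y x; omega⟩, Finset.mem_univ _,
        Finset.mem_filter.2 ⟨hx, rfl⟩⟩
  · intro f hf
    rw [Finset.mem_coe, Fintype.mem_piFinset] at hf
    have hf' : ∀ i, f i ⊆ V.filter (fun x => rk Y x = (i : ℕ)) ∧ (f i).card = τ i :=
      fun i => mem_powersetCard.1 (hf i)
    funext i
    show ((univ.biUnion f).filter fun x => rk Y x = (i : ℕ)) = f i
    ext x
    rw [Finset.mem_filter, Finset.mem_biUnion]
    constructor
    · rintro ⟨⟨j, -, hj⟩, hx⟩
      have h3 := (Finset.mem_filter.1 ((hf' j).1 hj)).2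
      have h4 : j = i := by
        apply Fin.ext
        rw [← h3, hx]
      rw [← h4]
      exact hj
    · intro hx
      exact ⟨⟨i, Finset.mem_univ _, hx⟩, (Finset.mem_filter.1 ((hf' i).1 hx)).2⟩

theorem t_CNT (hG : S_GAP) : S_CNT := by
  intro α _ m P K hK X Y hYX hY hP τ hτ hsum
  rw [cnt_card (X \ Y) Y τ hτ, Nat.cast_prod, ← Finset.prod_pow_eq_pow_sum]
  refine Finset.prod_congr rfl fun i hi => ?_
  have hi' : i ≤ Y.card := by
    have := Finset.mem_range.1 hi
    omega
  obtain ⟨t, ht⟩ := hG α P X Y hYX hY hP i hi'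
  have h1 : ((X \ Y).filter fun x => rk Y x = i).card = t * P - 1 := by
    rw [mul_comm, ← ht]
    rfl
  have h2 : 1 ≤ t * P := by
    rw [mul_comm, ← ht]
    omega
  have h3 : τ i ≤ K := (Finset.single_le_sum (fun _ _ => Nat.zero_le _) hi).trans hsum
  rw [h1]
  exact cnt_choose m P K hK t h2 (τ i) h3

end H688R2.Ord
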