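import Pool.Agent.H688R2.Ord.Spec

/-!
# The linear order sentence and its model
-/

namespace H688R2.Ord

open Equiv Finset H688R2.Sym H688R2.Gap H688R2.Cnt

theorem lop_map {A B : Type} (f : A → B) (a b : A) :
    (less a b).map f = less (f a) (f b) := by
  have h : (fun i : Fin 2 => f (![a, b] i)) = ![f a, f b] := by
    funext i
    fin_cases i <;> rfl
  exact congrArg (fun g : Fin 2 → B => (⟨(), g⟩ : Atom ordSig B)) h

theorem lop_inst {A : Type} (S : Atom ordSig A → Prop) (x : Fin 3 → A) :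
    noMin.Inst S x ↔ ¬ S (less (x 0) (x 0)) ∧
      (S (less (x 0) (x 1)) → S (less (x 1) (x 2)) → S (less (x 0) (x 2))) ∧
      (x 0 = x 1 ∨ S (less (x 0) (x 1)) ∨ S (less (x 1) (x 0))) ∧ ∃ y, S (less y (x 0)) := by
  have e : ∀ (y : Fin 1 → A) (i j : Fin 3 ⊕ Fin 1),
      S ((less i j).map (Sum.elim x y)) ↔ S (less (Sum.elim x y i) (Sum.elim x y j)) := by
    intro y i j
    rw [lop_map]
  have h : noMin.Inst S x ↔ ∃ y : Fin 1 → A,
      ¬ S ((less (.inl 0) (.inl 0)).map (Sum.elim x y)) ∧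
      (S ((less (.inl 0) (.inl 1)).map (Sum.elim x y)) →
        S ((less (.inl 1) (.inl 2)).map (Sum.elim x y)) →
        S ((less (.inl 0) (.inl 2)).map (Sum.elim x y))) ∧
      (Sum.elim x y (.inl 0) = Sum.elim x y (.inl 1) ∨
        S ((less (.inl 0) (.inl 1)).map (Sum.elim x y)) ∨
        S ((less (.inl 1) (.inl 0)).map (Sum.elim x y))) ∧
      S ((less (.inr 0) (.inl 0)).map (Sum.elim x y)) := Iff.rfl
  rw [h]
  simp only [e, Sum.elim_inl, Sum.elim_inr]
  constructor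
  · rintro ⟨y, h1, h2, h3, h4⟩
    exact ⟨h1, h2, h3, _, h4⟩
  · rintro ⟨h1, h2, h3, y, h4⟩
    exact ⟨fun _ => y, h1, h2, h3, h4⟩

theorem lop_models (A : Type) (S : Atom ordSig A → Prop) : noMin.Models S ↔
    (∀ x, ¬ S (less x x)) ∧ (∀ x y z, S (less x y) → S (less y z) → S (less x z)) ∧
    (∀ x y, x = y ∨ S (less x y) ∨ S (less y x)) ∧ ∀ x, ∃ y, S (less y x) := by
  constructor
  · intro h
    have key : ∀ x y z : A, _ := fun x y z => (lop_inst S ![x, y, z]).1 (h ![x, y, z])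
    exact ⟨fun x => (key x x x).1, fun x y z => (key x y z).2.1, fun x y => (key x y y).2.2.1,
      fun x => (key x x x).2.2.2⟩
  · rintro ⟨h1, h2, h3, h4⟩ x
    exact (lop_inst S x).2 ⟨h1 _, h2 _ _ _, h3 _ _, h4 _⟩

/-- the atomic facts of the lexicographic sum -/
def lop_S (B : Type) [LinearOrder B] (a : Atom ordSig (ℚ ⊕ B)) : Prop :=
  Sum.Lex (· < ·) (· < ·) (a.2 (0 : Fin 2)) (a.2 (1 : Fin 2))

theorem lop_S_less (B : Type) [LinearOrder B] (a b : ℚ ⊕ B) :
    lop_S B (less a b) ↔ Sum.Lex (· < ·) (· < ·) a b := Iff.rfl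

theorem t_LOP : S_LOP := by
  refine ⟨lop_models, ?_⟩
  intro B _
  refine ⟨lop_S B, ?_, ?_⟩
  · rw [lop_models]
    simp only [lop_S_less]
    refine ⟨?_, ?_, ?_, ?_⟩
    · rintro (x | x) <;> simp
    · rintro (x | x) (y | y) (z | z) <;> simp
      · exact fun h1 h2 => h1.trans h2
      · exact fun h1 h2 => h1.trans h2
    · rintro (x | x) (y | y) <;>
        simp only [Sum.lex_inl_inl, Sum.lex_inr_inr, Sum.inl.injEq, Sum.inr.injEq, reduceCtorEq,
          Sum.Lex.sep, true_or, or_true]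
      · exact or_left_comm.1 (lt_trichotomy x y)
      · exact or_left_comm.1 (lt_trichotomy x y)
    · rintro (x | x)
      · exact ⟨.inl (x - 1), by simp⟩
      · exact ⟨.inl 0, by simp⟩
  · intro a f hf
    have h0 : ∀ i : Fin 2, ∀ x, a.2 i = .inl x → x ∈ {x | ∃ i, a.2 i = .inl x} :=
      fun i x h => ⟨i, h⟩
    change Sum.Lex (· < ·) (· < ·) (Sum.map f id (a.2 (0 : Fin 2)))
      (Sum.map f id (a.2 (1 : Fin 2))) ↔
      Sum.Lex (· < ·) (· < ·) (a.2 (0 : Fin 2)) (a.2 (1 : Fin 2))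
    rcases e0 : a.2 (0 : Fin 2) with x | x <;> rcases e1 : a.2 (1 : Fin 2) with y | y
    · simp only [Sum.map_inl, Sum.lex_inl_inl]
      exact hf.lt_iff_lt (h0 _ _ e0) (h0 _ _ e1)
    · simp
    · simp
    · simp

end H688R2.Ord
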