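import Pool.Agent.H688R2.Ord.Spec2
import Pool.Agent.H688R2.Ord.LOP

/-!
# Short refutations without symmetry
-/

namespace H688R2.Ord

open Equiv Finset H688R2.Sym H688R2.Gap H688R2.Cnt

/-- the formulas -/
abbrev EQ (n : ℕ) : Type := (Fin n × Fin n) ⊕ (Fin n × Fin (n + 1))

/-- nothing moves -/
@[reducible] def eAct (n : ℕ) : MulAction (Perm Empty) (EQ n) where
  smul _ q := q
  one_smul _ := rfl
  mul_smul _ _ _ := rfl

/-- the circuit -/
def eF (m n : ℕ) : MDag m (Atom ordSig (Empty ⊕ Fin n)) (EQ n) where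
  level := Sum.elim (fun _ => 0) (fun _ => 1)
  var := Sum.elim (fun p => some (less (.inr p.1) (.inr p.2))) (fun _ => none)
  child q q' := ∃ (a : Fin n) (i : Fin (n + 1)) (j : Fin n), q = .inr (a, i) ∧ q' = .inl (j, a) ∧
    j.val < i.val
  conn _ s _ _ := s
  child_lt := by
    rintro q q' ⟨a, i, j, rfl, rfl, -⟩
    simp
  var_inj := by
    rintro (p | p) (p' | p') i h h'
    · simp only [Sum.elim_inl, Option.some.injEq] at h h'
      have e := h.trans h'.symm
      have e2 : (less (.inr p.1) (.inr p.2) : Atom ordSig (Empty ⊕ Fin n)).2 =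
          (less (.inr p'.1) (.inr p'.2) : Atom ordSig (Empty ⊕ Fin n)).2 :=
        eq_of_heq (Sigma.mk.inj e).2
      have h0 := congrFun e2 (0 : Fin 2)
      have h1 := congrFun e2 (1 : Fin 2)
      have h0' : (Sum.inr p.1 : Empty ⊕ Fin n) = Sum.inr p'.1 := h0
      have h1' : (Sum.inr p.2 : Empty ⊕ Fin n) = Sum.inr p'.2 := h1
      rw [Sum.inr.injEq] at h0' h1'
      rw [Prod.ext h0' h1']
    · simp at h'
    · simp at h
    · simp at h

theorem eF_v {m n : ℕ} {S : Atom ordSig (Empty ⊕ Fin n) → Prop} {v : EQ n → Prop}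
    (hv : ∀ q a, (eF m n).var q = some a → (v q ↔ S a)) (j a : Fin n) :
    v (.inl (j, a)) ↔ S (less (.inr j) (.inr a)) :=
  hv _ _ rfl

theorem eF_r {m n : ℕ} {S : Atom ordSig (Empty ⊕ Fin n) → Prop} {v : EQ n → Prop}
    (hv : ∀ q a, (eF m n).var q = some a → (v q ↔ S a)) (a : Fin n) (i : Fin (n + 1))
    (h : (eF m n).Respects v (.inr (a, i))) :
    v (.inr (a, i)) ↔ ∃ j : Fin n, j.val < i.val ∧ S (less (.inr j) (.inr a)) := by
  have h1 := h rfl
  change v (.inr (a, i)) ↔ ∃ q', (eF m n).child (.inr (a, i)) q' ∧ v q' at h1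
  rw [h1]
  constructor
  · rintro ⟨q', ⟨a', i', j, e1, rfl, hj⟩, hq⟩
    rw [Sum.inr.injEq, Prod.mk.injEq] at e1
    obtain ⟨rfl, rfl⟩ := e1
    exact ⟨j, hj, (eF_v hv j a).1 hq⟩
  · rintro ⟨j, hj, hS⟩
    exact ⟨.inl (j, a), ⟨a, i, j, rfl, rfl, hj⟩, (eF_v hv j a).2 hS⟩

/-- a tuple -/
def tup {A : Type} (x y z : A) : Fin noMin.p → A := ![x, y, z]

section

variable (m n : ℕ)

local instance : MulAction (Perm Empty) (EQ n) := eAct n

/-- derivability -/
abbrev ED (L : Finset (EQ n × Bool)) : Prop := (eF m n).Derives (α := Empty) noMin 3 6 1 L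

variable {m n}

theorem ed_top (a : Fin n) (i : Fin (n + 1)) (hi : i.val = n) : ED m n {(.inr (a, i), true)} := by
  refine MDag.Derives.infer _ {.inr (a, i)} {tup (.inr a) (.inr a) (.inr a)} ∅ (by simp) (by simp)
    (by simp) ?_
  intro S v hv hD hX _
  have h1 := (lop_inst S _).1 (hX _ (mem_singleton_self _))
  have h2 := eF_r hv a i (hD _ (mem_singleton_self _))
  refine ⟨_, mem_singleton_self _, ?_⟩
  simp only [iff_true]
  rw [h2]
  obtain ⟨y, hy⟩ := h1.2.2.2
  rcases y with y | y
  · exact y.elim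
  · exact ⟨y, by rw [hi]; exact y.isLt, hy⟩

theorem ed_one (b : Fin n) (i i' : Fin (n + 1)) (hi : i.val = b.val) (hi' : i'.val = b.val + 1)
    (h : ED m n {(.inr (b, i'), true)}) : ED m n {(.inr (b, i), true)} := by
  refine MDag.Derives.infer _ {.inr (b, i), .inr (b, i')} {tup (.inr b) (.inr b) (.inr b)}
    {{(.inr (b, i'), true)}} (by simp) ?_ (by simpa using h) ?_
  · have := card_le_two (a := (.inr (b, i) : EQ n)) (b := .inr (b, i'))
    simp only [card_singleton]
    omega
  · intro S v hv hD hX hP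
    have h1 := (lop_inst S _).1 (hX _ (mem_singleton_self _))
    have h2 := eF_r hv b i (hD _ (by simp))
    have h3 := eF_r hv b i' (hD _ (by simp))
    have h4 := hP _ (mem_singleton_self _)
    obtain ⟨l, hl, h5⟩ := h4
    rw [mem_singleton] at hl
    subst hl
    simp only [iff_true] at h5
    rw [h3] at h5
    obtain ⟨j, hj, hS⟩ := h5
    refine ⟨_, mem_singleton_self _, ?_⟩
    simp only [iff_true]
    rw [h2]
    refine ⟨j, ?_, hS⟩
    have : j ≠ b := by
      rintro rfl
      exact h1.1 hS
    have : j.val ≠ b.val := fun e => this (Fin.ext e)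
    omega

theorem ed_two (j b a : Fin n) (i : Fin (n + 1)) (hj : j.val < i.val) :
    ED m n {(.inl (j, b), false), (.inl (b, a), false), (.inr (a, i), true)} := by
  refine MDag.Derives.infer _ {.inr (a, i)} {tup (.inr j) (.inr b) (.inr a)} ∅ card_le_three (by simp)
    (by simp) ?_
  intro S v hv hD hX _
  have h1 := (lop_inst S _).1 (hX _ (mem_singleton_self _))
  have h2 := eF_r hv a i (hD _ (mem_singleton_self _))
  by_cases c1 : v (.inl (j, b))
  · by_cases c2 : v (.inl (b, a))
    · refine ⟨(.inr (a, i), true), by simp, ?_⟩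
      simp only [iff_true]
      rw [h2]
      exact ⟨j, hj, h1.2.1 ((eF_v hv j b).1 c1) ((eF_v hv b a).1 c2)⟩
    · exact ⟨(.inl (b, a), false), by simp, by simpa using c2⟩
  · exact ⟨(.inl (j, b), false), by simp, by simpa using c1⟩

theorem ed_three (b a : Fin n) (i : Fin (n + 1)) :
    ED m n {(.inr (b, i), false), (.inl (b, a), false), (.inr (a, i), true)} := by
  have h := MDag.Derives.wide (F := eF m n) (α := Empty) (Φ := noMin) (w := 3) (c := 6) (n := 1)
    {(.inl (b, a), false), (.inr (a, i), true)} (.inr (b, i)) false false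
    (by
      refine le_trans (@Finset.card_insert_le _ (_) _ _) ?_
      have := card_le_two (a := ((.inl (b, a), false) : EQ n × Bool)) (b := (.inr (a, i), true))
      omega) rfl
    (by
      rintro q' ⟨a', i', j, e1, rfl, hj⟩
      rw [Sum.inr.injEq, Prod.mk.injEq] at e1
      obtain ⟨rfl, rfl⟩ := e1
      convert ed_two (m := m) j b a i hj using 1
      ext x
      simp only [mem_insert, mem_singleton])
    (by
      change (false = true ∧ _) ↔ false = true
      simp)
  convert h using 1
  ext x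
  simp only [mem_insert, mem_singleton]

theorem ed_four (b a : Fin n) (i i' : Fin (n + 1)) (hi : i.val = b.val) (hi' : i'.val = b.val + 1)
    (h1 : ED m n {(.inr (b, i'), true)}) (h2 : ED m n {(.inr (a, i'), true)}) :
    ED m n {(.inr (a, i), true)} := by
  refine MDag.Derives.infer _ {.inr (a, i), .inr (a, i')} ∅
    {{(.inr (b, i), true)},
      {(.inr (b, i), false), (.inl (b, a), false), (.inr (a, i), true)},
      {(.inr (a, i'), true)}} (by simp) ?_ ?_ ?_
  · have e1 := card_le_two (a := (.inr (a, i) : EQ n)) (b := .inr (a, i'))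
    have e2 := card_le_three (a := ({(.inr (b, i), true)} : Finset (EQ n × Bool)))
      (b := {(.inr (b, i), false), (.inl (b, a), false), (.inr (a, i), true)})
      (c := {(.inr (a, i'), true)})
    simp only [card_empty]
    omega
  · intro L hL
    simp only [mem_insert, mem_singleton] at hL
    rcases hL with rfl | rfl | rfl
    · exact ed_one b i i' hi hi' h1
    · exact ed_three b a i
    · exact h2
  · intro S v hv hD hX hP
    have r1 := eF_r hv a i (hD _ (by simp))
    have r2 := eF_r hv a i' (hD _ (by simp))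
    obtain ⟨l, hl, p1⟩ := hP {(.inr (b, i), true)} (by simp)
    rw [mem_singleton] at hl
    subst hl
    obtain ⟨l, hl, p2⟩ := hP {(.inr (b, i), false), (.inl (b, a), false), (.inr (a, i), true)}
      (by simp)
    obtain ⟨l', hl', p3⟩ := hP {(.inr (a, i'), true)} (by simp)
    rw [mem_singleton] at hl'
    subst hl'
    simp only [iff_true] at p1 p3
    refine ⟨_, mem_singleton_self _, ?_⟩
    simp only [iff_true]
    simp only [mem_insert, mem_singleton] at hl
    rcases hl with rfl | rfl | rfl
    · simp only [Bool.false_eq_true, iff_false] at p2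
      exact absurd p1 p2
    · simp only [Bool.false_eq_true, iff_false] at p2
      rw [eF_v hv] at p2
      rw [r2] at p3
      obtain ⟨j, hj, hS⟩ := p3
      rw [r1]
      refine ⟨j, ?_, hS⟩
      have : j ≠ b := by
        rintro rfl
        exact p2 hS
      have : j.val ≠ b.val := fun e => this (Fin.ext e)
      omega
    · simpa using p2

theorem ed_all (d : ℕ) : ∀ (i : Fin (n + 1)), i.val + d = n → 1 ≤ i.val → ∀ a : Fin n,
    a.val < i.val → ED m n {(.inr (a, i), true)} := by
  induction d with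
  | zero =>
    intro i hi _ a _
    exact ed_top a i (by omega)
  | succ d ih =>
    intro i hi h1 a ha
    have hb : i.val < n := by omega
    have hi' : i.val + 1 < n + 1 := by omega
    exact ed_four ⟨i.val, hb⟩ a i ⟨i.val + 1, hi'⟩ rfl rfl
      (ih _ (by simp only; omega) (by simp) _ (by simp))
      (ih _ (by simp only; omega) (by simp) _ (by simp only; omega))

theorem ed_ref (hn : 1 ≤ n) : (eF m n).Refutes (α := Empty) noMin 3 6 1 := by
  have h0 : 0 < n := hn
  have h1 : 1 < n + 1 := by omega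
  have h := ed_all (m := m) (n := n) (n - 1) ⟨1, h1⟩ (by simp only; omega) le_rfl ⟨0, h0⟩
    (by simp)
  refine MDag.Derives.infer _ {.inr (⟨0, h0⟩, ⟨1, h1⟩)}
    {tup (.inr ⟨0, h0⟩) (.inr ⟨0, h0⟩) (.inr ⟨0, h0⟩)} {{(.inr (⟨0, h0⟩, ⟨1, h1⟩), true)}} (by simp)
    (by simp) (by simpa using h) ?_
  intro S v hv hD hX hP
  have e1 := (lop_inst S _).1 (hX _ (mem_singleton_self _))
  have e2 := eF_r hv _ _ (hD _ (mem_singleton_self _))
  obtain ⟨l, hl, h5⟩ := hP _ (mem_singleton_self _)
  rw [mem_singleton] at hl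
  subst hl
  simp only [iff_true] at h5
  rw [e2] at h5
  obtain ⟨j, hj, hS⟩ := h5
  have : j = ⟨0, h0⟩ := Fin.ext (by simpa using hj)
  subst this
  exact absurd hS e1.1

end

theorem t_EASY : S_EASY := by
  intro m n hn
  refine ⟨EQ n, inferInstance, eAct n, eF m n, ?_, ?_, ?_, ?_, ed_ref hn⟩
  · simp only [Fintype.card_sum, Fintype.card_prod, Fintype.card_fin]
    nlinarith
  · rintro (q | q)
    · exact Nat.zero_le _
    · exact le_rfl
  · intro q _ s t z
    exact Iff.rfl
  · let _ := eAct n
    refine ⟨?_, ?_, ?_⟩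
    · rintro g (q | q)
      · change some (less (.inr q.1) (.inr q.2)) =
          Option.map (Atom.map (Sum.map g id)) (some (less (.inr q.1) (.inr q.2)))
        rw [Option.map_some, lop_map]
        rfl
      · rfl
    · intro g q q'
      exact Iff.rfl
    · intro g q
      rfl

end H688R2.Ord
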