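import Pool.Agent.H688R2.Ord.Spec

namespace H688R2.Ord

open Equiv Finset H688R2.Sym H688R2.Gap H688R2.Cnt

theorem t_EXX (hG : S_GAP) : S_EX := by
  classical
  intro α _ P X Y hYX hY hX τ hτ hP
  have h1 : ∀ i, ∃ J : Finset α, J ⊆ (X \ Y).filter (fun x => rk Y x = i) ∧ J.card = τ i := by
    intro i
    by_cases hi : Y.card < i
    · exact ⟨∅, empty_subset _, by rw [hτ i hi, card_empty]⟩
    · obtain ⟨J, h1, h2⟩ := exists_subset_card_eq (s := (X \ Y).filter (fun x => rk Y x = i))
        (n := τ i) (by
          have h2 := hG α P X Y hYX hY hX i (by omega)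
          have h3 := Nat.le_of_dvd (by omega) h2
          have h4 := hP i
          omega)
      exact ⟨J, h1, h2⟩
  choose J hJ1 hJ2 using h1
  refine ⟨(range (Y.card + 1)).biUnion J, ?_, ?_⟩
  · intro x hx
    rw [mem_biUnion] at hx
    obtain ⟨i, _, hi⟩ := hx
    exact (mem_filter.1 (hJ1 i hi)).1
  · funext i
    unfold tau
    by_cases hi : i < Y.card + 1
    · rw [← hJ2 i]
      congr 1
      ext x
      simp only [mem_filter, mem_biUnion, mem_range]
      constructor
      · rintro ⟨⟨j, _, hj⟩, hx⟩
        have := (mem_filter.1 (hJ1 j hj)).2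
        rw [hx] at this
        rwa [this]
      · intro hx
        exact ⟨⟨i, hi, hx⟩, (mem_filter.1 (hJ1 i hx)).2⟩
    · rw [hτ i (by omega), card_eq_zero, filter_eq_empty_iff]
      intro x _ hx
      have : rk Y x ≤ Y.card := card_filter_le _ _
      omega

end H688R2.Ord
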