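import Pool.Agent.H688R2.Ord.Spec

/-!
# Sizes of gaps
-/

namespace H688R2.Ord

open Equiv Finset H688R2.Sym H688R2.Gap H688R2.Cnt

theorem gap_rk_mono {β : Type} [LinearOrder β] (Y : Finset β) {a b : β} (h : a ≤ b) :
    rk Y a ≤ rk Y b := by
  apply card_le_card
  intro y hy
  rw [mem_filter] at hy ⊢
  exact ⟨hy.1, hy.2.trans_le h⟩

theorem gap_rk_lt {β : Type} [LinearOrder β] (Y : Finset β) {a b : β} (ha : a ∈ Y)
    (h : a < b) : rk Y a < rk Y b := by
  apply card_lt_card
  rw [Finset.ssubset_iff_of_subset]
  · exact ⟨a, by simp [ha, h], by simp⟩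
  · intro y hy
    rw [mem_filter] at hy ⊢
    exact ⟨hy.1, hy.2.trans h⟩

theorem gap_rk_lt_card {β : Type} [LinearOrder β] (Y : Finset β) {a : β} (ha : a ∈ Y) :
    rk Y a < Y.card := by
  apply card_lt_card
  rw [Finset.ssubset_iff_of_subset (filter_subset _ _)]
  exact ⟨a, ha, by simp⟩

theorem gap_rk_inj {β : Type} [LinearOrder β] (Y : Finset β) {a b : β} (ha : a ∈ Y)
    (hb : b ∈ Y) (h : rk Y a = rk Y b) : a = b := by
  rcases lt_trichotomy a b with h1 | h1 | h1
  · exact absurd h (gap_rk_lt Y ha h1).ne
  · exact h1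
  · exact absurd h (gap_rk_lt Y hb h1).ne'

theorem gap_rk_surj {β : Type} [LinearOrder β] (Y : Finset β) {i : ℕ} (h : i < Y.card) :
    ∃ y ∈ Y, rk Y y = i := by
  have h1 : Y.image (rk Y) ⊆ range Y.card := by
    intro j hj
    rw [mem_image] at hj
    obtain ⟨y, hy, rfl⟩ := hj
    exact mem_range.2 (gap_rk_lt_card Y hy)
  have h2 : (Y.image (rk Y)).card = Y.card :=
    card_image_of_injOn fun a ha b hb hab => gap_rk_inj Y ha hb hab
  have h3 : Y.image (rk Y) = range Y.card :=
    Finset.eq_of_subset_of_card_le h1 (by rw [h2, card_range])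
  have h4 : i ∈ Y.image (rk Y) := by rw [h3]; exact mem_range.2 h
  rw [mem_image] at h4
  obtain ⟨y, hy, e⟩ := h4
  exact ⟨y, hy, e⟩

theorem t_GAP : S_GAP := by
  intro α _ P X Y hYX hY hX i hi
  -- the elements of rank less than `j`
  have hC : ∀ j ≤ Y.card, P ∣ (X.filter fun x => rk Y x < j).card := by
    intro j hj
    rcases j with _ | j
    · simp
    · obtain ⟨y, hy, e⟩ := gap_rk_surj Y (i := j) (by omega)
      have : (X.filter fun x => rk Y x < j + 1) = X.filter fun x => x ≤ y := by
        apply filter_congr
        intro x _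
        constructor
        · intro h
          by_contra hc
          have := gap_rk_lt Y hy (not_le.1 hc)
          omega
        · intro h
          have := gap_rk_mono Y h
          omega
      rw [this]
      exact hY y hy
  have hsplit : (X.filter fun x => rk Y x < i + 1).card =
      (X.filter fun x => rk Y x < i).card + ((X \ Y).filter fun x => rk Y x = i).card +
        (Y.filter fun x => rk Y x = i).card := by
    have e1 : (X.filter fun x => rk Y x < i + 1) =
        (X.filter fun x => rk Y x < i) ∪ (X.filter fun x => rk Y x = i) := by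
      ext x
      simp only [mem_filter, mem_union]
      constructor
      · rintro ⟨h1, h2⟩
        rcases Nat.lt_succ_iff_lt_or_eq.1 h2 with h | h
        · exact Or.inl ⟨h1, h⟩
        · exact Or.inr ⟨h1, h⟩
      · rintro (⟨h1, h2⟩ | ⟨h1, h2⟩)
        · exact ⟨h1, by omega⟩
        · exact ⟨h1, by omega⟩
    have e2 : (X.filter fun x => rk Y x = i) =
        ((X \ Y).filter fun x => rk Y x = i) ∪ (Y.filter fun x => rk Y x = i) := by
      rw [← filter_union, sdiff_union_of_subset hYX]
    rw [e1, card_union_of_disjoint, e2, card_union_of_disjoint, add_assoc]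
    · rw [Finset.disjoint_left]
      intro x hx hx'
      rw [mem_filter, mem_sdiff] at hx
      rw [mem_filter] at hx'
      exact hx.1.2 hx'.1
    · rw [Finset.disjoint_left]
      intro x hx hx'
      rw [mem_filter] at hx hx'
      omega
  rcases Nat.lt_or_ge i Y.card with h | h
  · have hone : (Y.filter fun x => rk Y x = i).card = 1 := by
      obtain ⟨y, hy, e⟩ := gap_rk_surj Y h
      rw [card_eq_one]
      refine ⟨y, ?_⟩
      ext x
      rw [mem_filter, mem_singleton]
      constructor
      · rintro ⟨h1, h2⟩
        exact gap_rk_inj Y h1 hy (h2.trans e.symm)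
      · rintro rfl
        exact ⟨hy, e⟩
    have h1 := hC (i + 1) h
    rw [hsplit, hone, add_assoc] at h1
    exact (Nat.dvd_add_right (hC i hi)).1 h1
  · have hzero : (Y.filter fun x => rk Y x = i).card = 0 := by
      rw [card_eq_zero, filter_eq_empty_iff]
      intro x hx
      have := gap_rk_lt_card Y hx
      omega
    have hall : (X.filter fun x => rk Y x < i + 1) = X := by
      rw [filter_eq_self]
      intro x _
      have : rk Y x ≤ Y.card := card_le_card (filter_subset _ _)
      omega
    rw [hall, hzero, add_zero] at hsplit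
    rw [hsplit, add_assoc] at hX
    exact (Nat.dvd_add_right (hC i hi)).1 hX

end H688R2.Ord
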