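import Pool.Agent.H688R2.Ord.Inv2

/-!
# Instances of the sentence in the worlds
-/

namespace H688R2.Ord

open Equiv Finset H688R2.Sym H688R2.Gap H688R2.Cnt H534R2.SymSw

variable {σ : Sig} {α B : Type} [LinearOrder α] [Fintype α]

theorem inst_world [Nonempty α] (hWIT : S_WIT) (Φ : Sentence σ) {S₀ : Atom σ (ℚ ⊕ B) → Prop}
    (hS₀ : OrderInvariant S₀) (hM : Φ.Models S₀) {p : α → ℚ} (hp : StrictMono p) {P : ℕ}
    (hq : Φ.q < P) (hN : P ∣ Fintype.card α + 1) (h : Perm α) (x : Fin Φ.p → α ⊕ B)
    (hx : ∀ i a, x i = .inl a → P ∣ pos (h a)) :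
    Φ.Inst (fun a => pull S₀ p (a.map (Sum.map h id))) x := by
  classical
  obtain ⟨z, hz⟩ := hM (fun i => Sum.map (fun a => p (h a)) id (x i))
  set x' : Fin Φ.p → ℚ ⊕ B := fun i => Sum.map (fun a => p (h a)) id (x i) with hx'
  let Z : Finset α := univ.filter fun b => ∃ i a, x i = .inl a ∧ h a = b
  let W : Finset ℚ := (univ : Finset (Fin Φ.q)).biUnion fun j =>
    Sum.elim (fun r => ({r} : Finset ℚ)) (fun _ => ∅) (z j)
  have hW : W.card < P := by
    have : W.card ≤ (univ : Finset (Fin Φ.q)).card * 1 := by
      apply card_biUnion_le_card_mul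
      intro j _
      rcases z j with r | b
      · simp
      · simp
    simp only [card_univ, Fintype.card_fin, mul_one] at this
    omega
  obtain ⟨f, hf1, hf2⟩ := hWIT α p hp P hN Z (by
    intro b hb
    simp only [Z, mem_filter, mem_univ, true_and] at hb
    obtain ⟨i, a, h1, rfl⟩ := hb
    exact hx i a h1) W hW
  let φ : ℚ ⊕ B → α ⊕ B := Sum.map (fun r => (h⁻¹ : Perm α) (f r)) id
  have hent : ∀ i r, Sum.elim x' z i = .inl r → r ∈ Z.image p ∪ W := by
    rintro (i | j) r hr
    · simp only [Sum.elim_inl, hx'] at hr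
      rcases hxi : x i with a | b
      · rw [hxi] at hr
        simp only [Sum.map_inl, Sum.inl.injEq] at hr
        apply mem_union_left
        rw [mem_image]
        refine ⟨h a, ?_, hr⟩
        simp only [Z, mem_filter, mem_univ, true_and]
        exact ⟨i, a, hxi, rfl⟩
      · rw [hxi] at hr
        simp at hr
    · simp only [Sum.elim_inr] at hr
      apply mem_union_right
      simp only [W, mem_biUnion, mem_univ, true_and]
      refine ⟨j, ?_⟩
      rw [hr]
      simp
  have hel : ∀ i, Sum.elim x (fun j => φ (z j)) i = φ (Sum.elim x' z i) := by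
    rintro (i | j)
    · simp only [Sum.elim_inl, hx', φ]
      rcases hxi : x i with a | b
      · simp only [Sum.map_inl]
        rw [hf2 (h a) (by
          simp only [Z, mem_filter, mem_univ, true_and]
          exact ⟨i, a, hxi, rfl⟩)]
        simp
      · rfl
    · rfl
  refine ⟨fun j => φ (z j), ?_⟩
  have e1 : (fun i j => Sum.elim x (fun j => φ (z j)) i = Sum.elim x (fun j => φ (z j)) j) =
      (fun i j => Sum.elim x' z i = Sum.elim x' z j) := by
    funext i j
    apply propext
    rw [hel, hel]
    constructor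
    · intro heq
      rcases hi : Sum.elim x' z i with r | b <;> rcases hj : Sum.elim x' z j with r' | b'
      · rw [hi, hj] at heq
        simp only [φ, Sum.map_inl, Sum.inl.injEq, EmbeddingLike.apply_eq_iff_eq] at heq
        rw [hf1.injOn (hent i r hi) (hent j r' hj) heq]
      · rw [hi, hj] at heq
        simp [φ] at heq
      · rw [hi, hj] at heq
        simp [φ] at heq
      · rw [hi, hj] at heq
        simpa [φ] using heq
    · intro heq
      rw [heq]
  have e2 : (fun a : Atom σ (Fin Φ.p ⊕ Fin Φ.q) => pull S₀ p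
      ((a.map (Sum.elim x (fun j => φ (z j)))).map (Sum.map h id))) =
      (fun a => S₀ (a.map (Sum.elim x' z))) := by
    funext a
    apply propext
    unfold pull
    have h1 : ((a.map (Sum.elim x (fun j => φ (z j)))).map (Sum.map h id)).map (Sum.map p id) =
        (a.map (Sum.elim x' z)).map (Sum.map (fun r => p (f r)) id) := by
      unfold Atom.map
      simp only
      congr 1
      funext i
      rw [hel]
      rcases Sum.elim x' z (a.2 i) with r | b
      · simp [φ]
      · rfl
    rw [h1]
    apply hS₀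
    intro r hr r' hr' hlt
    simp only [Set.mem_setOf_eq] at hr hr'
    obtain ⟨i, hi⟩ := hr
    obtain ⟨j, hj⟩ := hr'
    exact hp (hf1 (hent _ r hi) (hent _ r' hj) hlt)
  have e3 := hz
  rw [← e1, ← e2] at e3
  exact e3

end H688R2.Ord
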