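import Pool.Agent.H688R2.Ord.World

/-!
# Truth values depend only on the order type of the support
-/

namespace H688R2.Ord

open Equiv Finset H688R2.Sym H688R2.Gap H688R2.Cnt H534R2.SymSw

section types

variable {α : Type} [LinearOrder α]

theorem rk_le (Y : Finset α) (x : α) : rk Y x ≤ Y.card := card_filter_le _ _

theorem tau_eq_zero (Y J : Finset α) {i : ℕ} (hi : Y.card < i) : tau Y J i = 0 := by
  unfold tau
  rw [card_eq_zero, filter_eq_empty_iff]
  intro x _ h
  have := rk_le Y x
  omega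

theorem card_eq_sum_tau (Y J : Finset α) : J.card = ∑ i ∈ range (Y.card + 1), tau Y J i := by
  unfold tau
  apply card_eq_sum_card_fiberwise
  intro x _
  simp only [coe_range, Set.mem_Iio]
  have := rk_le Y x
  omega

theorem tau_le (Y J : Finset α) (i : ℕ) : tau Y J i ≤ J.card := card_filter_le _ _

/-- the statements proved elsewhere -/
structure Lib : Prop where
  perm : S_PERM
  ex : S_EX
  cnt : S_CNT
  cmp : S_CMP
  pair : S_PAIR
  regf : S_REGF

open Classical in
theorem count_types (lib : Lib) {m P K : ℕ}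
    (hP : ∀ t j, 1 ≤ j → j ≤ K → m ∣ (t * P).choose j) (X Y : Finset α) (hYX : Y ⊆ X)
    (hY : ∀ y ∈ Y, P ∣ (X.filter fun x => x ≤ y).card) (hX : P ∣ X.card + 1) {k : ℕ}
    (hk : k ≤ K) (τ : ℕ → ℕ) :
    (Nat.card {J : Finset α // (J ⊆ X \ Y ∧ J.card ≤ k) ∧ tau Y J = τ} : ZMod m) =
      if (∀ i, Y.card < i → τ i = 0) ∧ ∑ i ∈ range (Y.card + 1), τ i ≤ k then
        (-1) ^ (∑ i ∈ range (Y.card + 1), τ i) else 0 := by
  split_ifs with h
  · rw [← lib.cnt α m P K hP X Y hYX hY hX τ h.1 (h.2.trans hk)]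
    congr 1
    apply Nat.card_congr
    apply Equiv.subtypeEquivRight
    intro J
    constructor
    · rintro ⟨⟨h1, _⟩, h2⟩
      exact ⟨h1, h2⟩
    · rintro ⟨h1, h2⟩
      refine ⟨⟨h1, ?_⟩, h2⟩
      rw [card_eq_sum_tau Y J, h2]
      exact h.2
  · have : IsEmpty {J : Finset α // (J ⊆ X \ Y ∧ J.card ≤ k) ∧ tau Y J = τ} := by
      constructor
      rintro ⟨J, ⟨_, h1⟩, h2⟩
      apply h
      rw [← h2]
      exact ⟨fun i hi => tau_eq_zero Y J hi, by rw [← card_eq_sum_tau]; exact h1⟩
    rw [Nat.card_of_isEmpty, Nat.cast_zero]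

end types

variable {σ : Sig} {α B Q : Type} {m : ℕ} [LinearOrder α] [Fintype α] [MulAction (Perm α) Q]

/-- the assumptions on the refutation -/
structure Setup (F : MDag m (Atom σ (α ⊕ B)) Q) (k P : ℕ) : Prop where
  inv : F.Invariant
  hsup : ∀ q : Q, (sup q : Finset α).card ≤ k ∧ IsSup (sup q : Finset α) q
  hk : 1 ≤ k
  per : ∀ t j, 1 ≤ j → j ≤ 2 * k → m ∣ (t * P).choose j
  kP : 2 * k < P
  hN : P ^ 2 ∣ Fintype.card α + 1

theorem Setup.big {F : MDag m (Atom σ (α ⊕ B)) Q} {k P : ℕ} (hS : Setup F k P) :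
    2 * k + 3 ≤ Fintype.card α := by
  have h1 := Nat.le_of_dvd (by omega) hS.hN
  have h2 := hS.kP
  have h3 := hS.hk
  nlinarith

theorem Setup.dvd {F : MDag m (Atom σ (α ⊕ B)) Q} {k P : ℕ} (hS : Setup F k P) :
    P ∣ Fintype.card α + 1 := (Dvd.intro_left _ (by rw [← pow_succ])).trans hS.hN

/-- the permutations order `s` in the same way -/
def SO (s : Finset α) (g h : Perm α) : Prop := ∀ a ∈ s, ∀ b ∈ s, (g a < g b ↔ h a < h b)

/-- the truth value of `q` depends only on the order of its support -/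
def TT (v : Q → Prop) (q : Q) : Prop :=
  ∀ g h : Perm α, SO (sup q) g h → (v (g • q) ↔ v (h • q))

theorem TT_smul {v : Q → Prop} {q : Q} (h : TT (α := α) v q) (u : Perm α) :
    TT (α := α) v (u • q) := by
  intro g g' hg
  rw [← mul_smul, ← mul_smul]
  apply h
  intro a ha b hb
  rw [sup_smul] at hg
  exact hg (u a) (mem_map_of_mem _ ha) (u b) (mem_map_of_mem _ hb)

theorem TT.of_mono {v : Q → Prop} {q : Q} (h : TT (α := α) v q) {g : Perm α} {s : Finset α}
    (hs : (sup q : Finset α) ⊆ s) (hg : StrictMonoOn g (s : Set α)) : v (g • q) ↔ v q := by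
  have := h g 1 (fun a ha b hb => hg.lt_iff_lt (hs ha) (hs hb))
  rwa [one_smul] at this

omit [Fintype α] in
theorem smul_eq_smul [Fintype α] {q : Q} (h : IsSup (sup q : Finset α) q) {g g' : Perm α}
    (hs : Perm.sign g = Perm.sign g') (hg : ∀ a ∈ (sup q : Finset α), g a = g' a) :
    g • q = g' • q := by
  have h1 : (g'⁻¹ * g) • q = q := by
    apply h
    · rw [map_mul, hs, map_inv, inv_mul_cancel]
    · intro a ha
      rw [Perm.mul_apply, hg a ha]
      simp
  rw [mul_smul, inv_smul_eq_iff] at h1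
  exact h1

theorem exists_match (lib : Lib) {F : MDag m (Atom σ (α ⊕ B)) Q} {k P : ℕ} (hS : Setup F k P)
    (q : Q) (h : Perm α) (hh : StrictMonoOn h ((sup q : Finset α) : Set α)) (J J' : Finset α)
    (hJ : Disjoint (sup q : Finset α) J)
    (hJ' : Disjoint ((sup q : Finset α).map h.toEmbedding) J')
    (ht : tau (sup q) J = tau ((sup q : Finset α).map h.toEmbedding) J') (hk : J.card ≤ k) :
    ∃ g : Perm α, g • q = h • q ∧
      (sup q : Finset α).map g.toEmbedding = (sup q : Finset α).map h.toEmbedding ∧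
      J.map g.toEmbedding = J' ∧ StrictMonoOn g (((sup q : Finset α) ∪ J : Finset α) : Set α) := by
  obtain ⟨g, g1, g2, g3, g4⟩ := lib.perm α h (sup q) J J' hJ hJ' hh (fun i => congrFun ht i) (by
    have := (hS.hsup q).1
    have := hS.big
    omega)
  refine ⟨g, smul_eq_smul (hS.hsup q).2 g1 g2, ?_, g3, g4⟩
  ext x
  simp only [mem_map, Equiv.coe_toEmbedding]
  constructor
  · rintro ⟨a, ha, rfl⟩
    exact ⟨a, ha, (g2 a ha).symm⟩
  · rintro ⟨a, ha, rfl⟩
    exact ⟨a, ha, g2 a ha⟩

theorem child_exists (lib : Lib) {F : MDag m (Atom σ (α ⊕ B)) Q} {k P : ℕ} (hS : Setup F k P)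
    {v : Q → Prop} (q : Q) (h : Perm α) (hh : StrictMonoOn h ((sup q : Finset α) : Set α))
    (hr : ∀ a ∈ (sup q : Finset α), P ∣ pos (h a)) (hT : ∀ q', F.child q q' → TT (α := α) v q')
    (ε : Prop → Prop) : (∃ q', F.child q q' ∧ ε (v q')) → ∃ q', F.child (h • q) q' ∧ ε (v q') := by
  rintro ⟨q', hc, hε⟩
  have hsub : (sup q' : Finset α) \ sup q ⊆ sup q' := sdiff_subset
  have hJk : ((sup q' : Finset α) \ sup q).card ≤ k := (card_le_card hsub).trans (hS.hsup q').1
  obtain ⟨J', hJ', ht⟩ := lib.ex α P univ ((sup q : Finset α).map h.toEmbedding) (subset_univ _)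
    (by
      intro y hy
      rw [mem_map] at hy
      obtain ⟨a, ha, rfl⟩ := hy
      exact hr a ha) (by rw [card_univ]; exact hS.dvd)
    (tau (sup q) ((sup q' : Finset α) \ sup q))
    (fun i hi => tau_eq_zero _ _ (by rwa [card_map] at hi)) (by
      intro i
      have := tau_le (sup q : Finset α) ((sup q' : Finset α) \ sup q) i
      have := hS.kP
      have := hS.hk
      omega)
  obtain ⟨g, g1, g2, g3, g4⟩ := exists_match lib hS q h hh _ J' disjoint_sdiff
    (disjoint_left.2 fun a ha hb => (mem_sdiff.1 (hJ' hb)).2 ha) ht.symm hJk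
  refine ⟨g • q', ?_, ?_⟩
  · rw [← g1, hS.inv.child]
    exact hc
  · have : v (g • q') ↔ v q' := (hT q' hc).of_mono (s := (sup q : Finset α) ∪ (sup q' \ sup q)) (by
      intro x hx
      by_cases h : x ∈ (sup q : Finset α)
      · exact mem_union_left _ h
      · exact mem_union_right _ (mem_sdiff.2 ⟨hx, h⟩)) g4
    rwa [this]

open Classical in
/-- the number of true children of `q` with given new elements in the support -/
noncomputable def cs [Fintype Q] (F : MDag m (Atom σ (α ⊕ B)) Q) (v : Q → Prop) (q : Q)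
    (J : Finset α) : ZMod m :=
  ∑ q' with (sup q' : Finset α) \ sup q = J, if F.child q q' ∧ v q' then (1 : ZMod m) else 0

theorem cs_eq [Fintype Q] (lib : Lib) {F : MDag m (Atom σ (α ⊕ B)) Q} {k P : ℕ}
    (hS : Setup F k P) {v : Q → Prop} (q : Q) (h : Perm α)
    (hh : StrictMonoOn h ((sup q : Finset α) : Set α)) (hT : ∀ q', F.child q q' → TT (α := α) v q')
    (J J' : Finset α) (hJ : Disjoint (sup q : Finset α) J)
    (hJ' : Disjoint ((sup q : Finset α).map h.toEmbedding) J')
    (ht : tau (sup q) J = tau ((sup q : Finset α).map h.toEmbedding) J') (hk : J.card ≤ k) :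
    cs F v q J = cs F v (h • q) J' := by
  classical
  obtain ⟨g, g1, g2, g3, g4⟩ := exists_match lib hS q h hh J J' hJ hJ' ht hk
  unfold cs
  apply Finset.sum_equiv (MulAction.toPerm g)
  · intro q'
    simp only [mem_filter, mem_univ, true_and, MulAction.toPerm_apply]
    rw [sup_smul, sup_smul, ← g2, ← Finset.map_sdiff, ← g3]
    exact (map_injective _).eq_iff.symm
  · intro q' hq'
    rw [mem_filter] at hq'
    rw [MulAction.toPerm_apply]
    have h1 : F.child (h • q) (g • q') ↔ F.child q q' := by rw [← g1, hS.inv.child]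
    have h2 : F.child q q' → (v (g • q') ↔ v q') := by
      intro hc
      apply (hT q' hc).of_mono (s := (sup q : Finset α) ∪ J) _ g4
      intro x hx
      by_cases h : x ∈ (sup q : Finset α)
      · exact mem_union_left _ h
      · refine mem_union_right _ ?_
        rw [← hq'.2]
        exact mem_sdiff.2 ⟨hx, h⟩
    have h3 : (F.child (h • q) (g • q') ∧ v (g • q')) ↔ (F.child q q' ∧ v q') := by
      rw [h1]
      exact and_congr_right h2
    simp only [h3]

open Classical in
theorem card_eq_cs [Fintype Q] {F : MDag m (Atom σ (α ⊕ B)) Q} {k P : ℕ} (hS : Setup F k P)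
    (v : Q → Prop) (q : Q) :
    (Nat.card {q' // F.child q q' ∧ v q'} : ZMod m) =
      ∑ J ∈ univ.filter (fun J : Finset α => J ⊆ univ \ sup q ∧ J.card ≤ k), cs F v q J := by
  rw [card_eq_sum]
  unfold cs
  rw [Finset.sum_fiberwise_of_maps_to (g := fun q' : Q => (sup q' : Finset α) \ sup q)]
  intro q' _
  rw [mem_filter]
  exact ⟨mem_univ _, sdiff_subset_sdiff (subset_univ _) subset_rfl,
    (card_le_card sdiff_subset).trans (hS.hsup q').1⟩

theorem child_count [Fintype Q] (lib : Lib) {F : MDag m (Atom σ (α ⊕ B)) Q} {k P : ℕ}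
    (hS : Setup F k P) {v : Q → Prop} (q : Q) (h : Perm α)
    (hh : StrictMonoOn h ((sup q : Finset α) : Set α))
    (hr0 : ∀ a ∈ (sup q : Finset α), P ∣ pos a)
    (hr : ∀ a ∈ (sup q : Finset α), P ∣ pos (h a))
    (hT : ∀ q', F.child q q' → TT (α := α) v q') :
    (Nat.card {q' // F.child q q' ∧ v q'} : ZMod m) =
      (Nat.card {q' // F.child (h • q) q' ∧ v q'} : ZMod m) := by
  classical
  have hT' : ∀ q', F.child (h • q) q' → TT (α := α) v q' := by
    intro q' hc
    have h1 : F.child q (h⁻¹ • q') := by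
      rw [← hS.inv.child h, smul_inv_smul]
      exact hc
    have := TT_smul (hT _ h1) h
    rwa [smul_inv_smul] at this
  rw [card_eq_cs hS v q, card_eq_cs hS v (h • q)]
  have hsh : (sup (h • q) : Finset α) = (sup q : Finset α).map h.toEmbedding := sup_smul h q
  have hone : ∀ s : Finset α, s.map (1 : Perm α).toEmbedding = s := fun s => Finset.map_refl
  apply lib.cmp (Finset α) (Finset α) (ℕ → ℕ) m _ _ (tau (sup q)) (tau (sup (h • q)))
  · intro J hJ J' hJ' ht
    rw [mem_filter] at hJ hJ'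
    apply cs_eq lib hS q h hh hT J J'
      (disjoint_left.2 fun a ha hb => (mem_sdiff.1 (hJ.2.1 hb)).2 ha) _ _ hJ.2.2
    · rw [← hsh]
      exact disjoint_left.2 fun a ha hb => (mem_sdiff.1 (hJ'.2.1 hb)).2 ha
    · rw [← hsh]
      exact ht
  · intro J hJ J' hJ' ht
    rw [mem_filter] at hJ hJ'
    have := cs_eq lib hS q 1 (fun a _ b _ h => h) hT J J'
      (disjoint_left.2 fun a ha hb => (mem_sdiff.1 (hJ.2.1 hb)).2 ha) (by
        rw [hone]
        exact disjoint_left.2 fun a ha hb => (mem_sdiff.1 (hJ'.2.1 hb)).2 ha) (by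
        rw [hone]; exact ht) hJ.2.2
    rwa [one_smul] at this
  · intro J hJ J' hJ' ht
    rw [mem_filter] at hJ hJ'
    have := cs_eq lib hS (h • q) 1 (fun a _ b _ h => h) hT' J J'
      (disjoint_left.2 fun a ha hb => (mem_sdiff.1 (hJ.2.1 hb)).2 ha) (by
        rw [hone]
        exact disjoint_left.2 fun a ha hb => (mem_sdiff.1 (hJ'.2.1 hb)).2 ha) (by
        rw [hone]; exact ht) hJ.2.2
    rwa [one_smul] at this
  · intro τ
    have hc : (sup (h • q) : Finset α).card = (sup q : Finset α).card := by rw [hsh, card_map]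
    have e1 := count_types lib hS.per univ (sup q) (subset_univ _) (fun y hy => hr0 y hy)
      (by rw [card_univ]; exact hS.dvd) (k := k) (by omega) τ
    have e2 := count_types lib hS.per univ (sup (h • q)) (subset_univ _) (by
        intro y hy
        rw [hsh, mem_map] at hy
        obtain ⟨a, ha, rfl⟩ := hy
        exact hr a ha)
      (by rw [card_univ]; exact hS.dvd) (k := k) (by omega) τ
    rw [hc, ← e1] at e2
    simp only [mem_filter, mem_univ, true_and]
    exact e2.symm

end H688R2.Ord
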