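import Pool.Agent.H688R2.Ord.Inv

/-!
# Truth values depend only on the order type of the support: the induction
-/

namespace H688R2.Ord

open Equiv Finset H688R2.Sym H688R2.Gap H688R2.Cnt H534R2.SymSw

variable {σ : Sig} {α B Q : Type} {m : ℕ} [LinearOrder α] [Fintype α] [MulAction (Perm α) Q]

/-- the three data that determine the truth value of a formula -/
def SameData (F : MDag m (Atom σ (α ⊕ B)) Q) (v : Q → Prop) (q₁ q₂ : Q) : Prop :=
  ((∃ q', F.child q₁ q' ∧ v q') ↔ ∃ q', F.child q₂ q' ∧ v q') ∧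
  ((∃ q', F.child q₁ q' ∧ ¬ v q') ↔ ∃ q', F.child q₂ q' ∧ ¬ v q') ∧
  (Nat.card {q' // F.child q₁ q' ∧ v q'} : ZMod m) = (Nat.card {q' // F.child q₂ q' ∧ v q'} : ZMod m)

theorem child_TT_smul {F : MDag m (Atom σ (α ⊕ B)) Q} (hF : F.Invariant) {v : Q → Prop} {q : Q}
    (hT : ∀ q', F.child q q' → TT (α := α) v q') (h : Perm α) :
    ∀ q', F.child (h • q) q' → TT (α := α) v q' := by
  intro q' hc
  have h1 : F.child q (h⁻¹ • q') := by
    rw [← hF.child h, smul_inv_smul]
    exact hc
  have := TT_smul (hT _ h1) h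
  rwa [smul_inv_smul] at this

theorem sameData [Fintype Q] (lib : Lib) {F : MDag m (Atom σ (α ⊕ B)) Q} {k P : ℕ}
    (hS : Setup F k P) {v : Q → Prop} (q : Q) (h : Perm α)
    (hh : StrictMonoOn h ((sup q : Finset α) : Set α))
    (hr0 : ∀ a ∈ (sup q : Finset α), P ∣ pos a)
    (hr : ∀ a ∈ (sup q : Finset α), P ∣ pos (h a))
    (hT : ∀ q', F.child q q' → TT (α := α) v q') : SameData F v q (h • q) := by
  have hT' := child_TT_smul hS.inv hT h
  have hh' : StrictMonoOn (h⁻¹ : Perm α) ((sup (h • q) : Finset α) : Set α) := by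
    rw [sup_smul]
    intro a ha b hb hab
    simp only [coe_map, Equiv.coe_toEmbedding, Set.mem_image] at ha hb
    obtain ⟨a, ha, rfl⟩ := ha
    obtain ⟨b, hb, rfl⟩ := hb
    rw [hh.lt_iff_lt ha hb] at hab
    simpa using hab
  have hr' : ∀ a ∈ (sup (h • q) : Finset α), P ∣ pos ((h⁻¹ : Perm α) a) := by
    rw [sup_smul]
    intro a ha
    rw [mem_map] at ha
    obtain ⟨a, ha, rfl⟩ := ha
    have := hr0 a ha
    simpa using this
  have hex : ∀ ε : Prop → Prop, (∃ q', F.child q q' ∧ ε (v q')) ↔
      ∃ q', F.child (h • q) q' ∧ ε (v q') := by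
    intro ε
    constructor
    · exact child_exists lib hS q h hh hr hT ε
    · intro h1
      have := child_exists lib hS (h • q) h⁻¹ hh' hr' hT' ε h1
      rwa [inv_smul_smul] at this
  exact ⟨hex id, hex Not, child_count lib hS q h hh hr0 hr hT⟩

/-- the structure on `α ⊕ B` obtained from that on `ℚ ⊕ B` -/
def pull (S₀ : Atom σ (ℚ ⊕ B) → Prop) (p : α → ℚ) : Atom σ (α ⊕ B) → Prop :=
  fun a => S₀ (a.map (Sum.map p id))

theorem pull_inv {S₀ : Atom σ (ℚ ⊕ B) → Prop} (hS₀ : OrderInvariant S₀) {p : α → ℚ}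
    (hp : StrictMono p) (a : Atom σ (α ⊕ B)) (g h : Perm α)
    (hso : ∀ i x, a.2 i = .inl x → ∀ j y, a.2 j = .inl y → (g x < g y ↔ h x < h y)) :
    pull S₀ p (a.map (Sum.map g id)) ↔ pull S₀ p (a.map (Sum.map h id)) := by
  unfold pull
  have hinj : Function.Injective (fun x => p (g x)) := fun x y hxy =>
    g.injective (hp.injective hxy)
  have key := hS₀ ((a.map (Sum.map g id)).map (Sum.map p id))
    (Function.extend (fun x => p (g x)) (fun x => p (h x)) 0) (by
      intro y hy y' hy' hlt
      simp only [Set.mem_setOf_eq] at hy hy'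
      obtain ⟨i, hi⟩ := hy
      obtain ⟨j, hj⟩ := hy'
      have e : ∀ i y, ((a.map (Sum.map g id)).map (Sum.map p id)).2 i = .inl y →
          ∃ x, a.2 i = .inl x ∧ p (g x) = y := by
        intro i y hi
        change Sum.map p id (Sum.map g id (a.2 i)) = .inl y at hi
        rcases hx : a.2 i with x | b
        · rw [hx] at hi
          simp only [Sum.map_inl, Sum.inl.injEq] at hi
          exact ⟨x, rfl, hi⟩
        · rw [hx] at hi
          simp at hi
      obtain ⟨x, hx, rfl⟩ := e i y hi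
      obtain ⟨x', hx', rfl⟩ := e j y' hj
      rw [hinj.extend_apply, hinj.extend_apply]
      apply hp
      rw [← hso i x hx j x' hx']
      exact hp.lt_iff_lt.1 hlt)
  rw [← key]
  have : ((a.map (Sum.map g id)).map (Sum.map p id)).map
      (Sum.map (Function.extend (fun x => p (g x)) (fun x => p (h x)) 0) id) =
      (a.map (Sum.map h id)).map (Sum.map p id) := by
    unfold Atom.map
    simp only
    congr 1
    funext i
    rcases a.2 i with x | b
    · simp only [Sum.map_inl]
      rw [hinj.extend_apply]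
    · rfl
  rw [this]

theorem TT_all [Fintype Q] (lib : Lib) (hMEM : S_MEM) {F : MDag m (Atom σ (α ⊕ B)) Q} {k P : ℕ}
    (hS : Setup F k P) {S₀ : Atom σ (ℚ ⊕ B) → Prop} (hS₀ : OrderInvariant S₀) {p : α → ℚ}
    (hp : StrictMono p) {ν : Finset α → Perm α} {v : Q → Prop} (hv : IsVal F (pull S₀ p) ν v)
    (hν : ∀ t : Finset α, t.card ≤ k → StrictMonoOn (ν t) (t : Set α) ∧
      ∀ a ∈ t, P ∣ pos (ν t a)) :
    ∀ n q, F.level q = n → TT (α := α) v q := by
  intro n
  induction n using Nat.strong_induction_on with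
  | _ n ih =>
    intro q hq g h hgh
    rcases hvar : F.var q with _ | a
    · have hT : ∀ q', F.child q q' → TT (α := α) v q' := fun q' hc =>
        ih _ (by rw [← hq]; exact F.child_lt _ _ hc) q' rfl
      have hsk : ∀ u : Perm α, (sup (u • q) : Finset α).card ≤ k := fun u => by
        rw [sup_smul, card_map]
        exact (hS.hsup q).1
      set u : Perm α := ν (sup (g • q)) * g with hu
      set w : Perm α := ν (sup (h • q)) * h with hw
      have hmem : ∀ (g : Perm α) a, a ∈ (sup q : Finset α) → g a ∈ (sup (g • q) : Finset α) := by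
        intro g a ha
        rw [sup_smul]
        exact mem_map_of_mem _ ha
      have hu1 : ∀ a ∈ (sup q : Finset α), P ∣ pos (u a) := fun a ha =>
        (hν _ (hsk g)).2 (g a) (hmem g a ha)
      have hw1 : ∀ a ∈ (sup q : Finset α), P ∣ pos (w a) := fun a ha =>
        (hν _ (hsk h)).2 (h a) (hmem h a ha)
      have hu2 : ∀ a ∈ (sup q : Finset α), ∀ b ∈ (sup q : Finset α), (u a < u b ↔ g a < g b) :=
        fun a ha b hb => (hν _ (hsk g)).1.lt_iff_lt (hmem g a ha) (hmem g b hb)
      have hw2 : ∀ a ∈ (sup q : Finset α), ∀ b ∈ (sup q : Finset α), (w a < w b ↔ h a < h b) :=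
        fun a ha b hb => (hν _ (hsk h)).1.lt_iff_lt (hmem h a ha) (hmem h b hb)
      have hsame : SameData F v (u • q) ((w * u⁻¹) • (u • q)) := by
        apply sameData lib hS (u • q) (w * u⁻¹) _ _ _ (child_TT_smul hS.inv hT u)
        · rw [sup_smul]
          intro a ha b hb hab
          simp only [coe_map, Equiv.coe_toEmbedding, Set.mem_image] at ha hb
          obtain ⟨a, ha, rfl⟩ := ha
          obtain ⟨b, hb, rfl⟩ := hb
          have e : ∀ x, (w * u⁻¹) (u x) = w x := fun x => by simp
          show (w * u⁻¹) (u a) < (w * u⁻¹) (u b)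
          rw [e, e, hw2 a ha b hb, ← hgh a ha b hb, ← hu2 a ha b hb]
          exact hab
        · rw [sup_smul]
          intro a ha
          rw [mem_map] at ha
          obtain ⟨a, ha, rfl⟩ := ha
          exact hu1 a ha
        · rw [sup_smul]
          intro a ha
          rw [mem_map] at ha
          obtain ⟨a, ha, rfl⟩ := ha
          have := hw1 a ha
          simpa using this
      rw [← mul_smul, inv_mul_cancel_right] at hsame
      have hvg : F.var (g • q) = none := by rw [hS.inv.var, hvar]; rfl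
      have hvh : F.var (h • q) = none := by rw [hS.inv.var, hvar]; rfl
      rw [hv.conn _ hvg, hv.conn _ hvh, hS.inv.conn, hS.inv.conn, ← mul_smul, ← mul_smul, ← hu,
        ← hw, hsame.1, hsame.2.1, hsame.2.2]
    · have hvg : F.var (g • q) = some (a.map (Sum.map g id)) := by rw [hS.inv.var, hvar]; rfl
      have hvh : F.var (h • q) = some (a.map (Sum.map h id)) := by rw [hS.inv.var, hvar]; rfl
      rw [hv.var _ _ hvg, hv.var _ _ hvh]
      apply pull_inv hS₀ hp
      intro i x hx j y hy
      exact hgh x (hMEM σ α B Q m k F hS.inv hS.big hS.hsup q a hvar i x hx) y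
        (hMEM σ α B Q m k F hS.inv hS.big hS.hsup q a hvar j y hy)

/-- a formula with regular support is evaluated by its children -/
theorem respects_of_regular [Fintype Q] (lib : Lib) (hMEM : S_MEM)
    {F : MDag m (Atom σ (α ⊕ B)) Q} {k P : ℕ}
    (hS : Setup F k P) {S₀ : Atom σ (ℚ ⊕ B) → Prop} (hS₀ : OrderInvariant S₀) {p : α → ℚ}
    (hp : StrictMono p) {ν : Finset α → Perm α} {v : Q → Prop} (hv : IsVal F (pull S₀ p) ν v)
    (hν : ∀ t : Finset α, t.card ≤ k → StrictMonoOn (ν t) (t : Set α) ∧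
      ∀ a ∈ t, P ∣ pos (ν t a)) (q : Q) (hq : ∀ a ∈ (sup q : Finset α), P ∣ pos a) :
    F.Respects v q := by
  intro hvar
  have h1 := hν _ (hS.hsup q).1
  have hsame := sameData lib hS q (ν (sup q)) h1.1 hq h1.2
    (fun q' _ => TT_all lib hMEM hS hS₀ hp hv hν _ q' rfl)
  rw [hv.conn q hvar, hsame.1, hsame.2.1, hsame.2.2]

end H688R2.Ord
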