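import Pool.Agent.H688R2.Ord.Pairs
import Pool.Agent.H688R2.Cnt.Wide

/-!
# Linear combinations of counting formulas
-/

namespace H688R2.Ord

open Equiv Finset H688R2.Sym H688R2.Gap H688R2.Cnt H534R2.SymSw

variable {σ : Sig} {α B Q : Type} {m : ℕ} [LinearOrder α] [Fintype α] [MulAction (Perm α) Q]
  [Fintype Q]

/-- the new elements of a pair of formulas -/
noncomputable def pty (Z : Finset α) (x : Q × Q) : Finset α × Finset α :=
  ((sup x.1 : Finset α) \ Z, (sup x.2 : Finset α) \ (Z ∪ ((sup x.1 : Finset α) \ Z)))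

open Classical in
/-- the number of true children -/
noncomputable def NN (F : MDag m (Atom σ (α ⊕ B)) Q) (v : Q → Prop) (q : Q) : ZMod m :=
  ∑ q', if F.child q q' ∧ v q' then (1 : ZMod m) else 0

open Classical in
theorem pair_sum (lib : Lib) {F : MDag m (Atom σ (α ⊕ B)) Q} {k P : ℕ} (hS : Setup F k P)
    {v : Q → Prop} (hT : ∀ q, TT (α := α) v q) (Z : Finset α) (hZ : ∀ z ∈ Z, P ^ 2 ∣ pos z)
    (hc : Z.card + 2 * k + 2 ≤ Fintype.card α) (a : Q → ZMod m)
    (ha : ∀ g : Perm α, Perm.sign g = 1 → (∀ x ∈ Z, g x = x) → ∀ q, a (g • q) = a q) :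
    ∑ q, a q * NN F v q = ∑ q with (sup q : Finset α) ⊆ Reg α P, a q * NN F v q := by
  have hP0 : 0 < P := by have := hS.kP; omega
  have hZR : Z ⊆ Reg α P := fun z hz =>
    mem_Reg.2 ((Dvd.intro_left _ (by rw [← pow_succ])).trans (hZ z hz))
  let f : Q × Q → ZMod m := fun x => a x.1 * (if F.child x.1 x.2 ∧ v x.2 then 1 else 0)
  let T : Finset α × Finset α → ZMod m := fun p => ∑ x with pty Z x = p, f x
  let s : Finset (Finset α × Finset α) := univ.filter (PS Z k univ)
  let s' : Finset (Finset α × Finset α) := univ.filter (PS Z k (Reg α P))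
  have hin : ∀ x : Q × Q, PS Z k univ (pty Z x) := by
    intro x
    unfold PS pty
    exact ⟨⟨sdiff_subset_sdiff (subset_univ _) subset_rfl, (card_le_card sdiff_subset).trans
      (hS.hsup x.1).1⟩, sdiff_subset_sdiff (subset_univ _) subset_rfl,
      (card_le_card sdiff_subset).trans (hS.hsup x.2).1⟩
  have hin' : ∀ x : Q × Q, (sup x.1 : Finset α) ⊆ Reg α P → PS Z k (Reg α P) (pty Z x) := by
    intro x hx
    have := hin x
    unfold PS pty at this ⊢
    exact ⟨⟨sdiff_subset_sdiff hx subset_rfl, this.1.2⟩, this.2⟩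
  have e1 : ∑ q, a q * NN F v q = ∑ p ∈ s, T p := by
    show _ = ∑ p ∈ s, ∑ x with pty Z x = p, f x
    rw [Finset.sum_fiberwise_of_maps_to (g := fun x : Q × Q => pty Z x)
      (fun x _ => mem_filter.2 ⟨mem_univ _, hin x⟩)]
    rw [← univ_product_univ, sum_product]
    apply sum_congr rfl
    intro q _
    unfold NN
    rw [mul_sum]
  have e2 : ∑ q with (sup q : Finset α) ⊆ Reg α P, a q * NN F v q = ∑ p ∈ s', T p := by
    have h1 : ∀ p ∈ s', T p = ∑ x ∈ (univ.filter fun x : Q × Q => (sup x.1 : Finset α) ⊆ Reg α P)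
        with pty Z x = p, f x := by
      intro p hp
      apply sum_congr _ fun _ _ => rfl
      ext x
      simp only [mem_filter, mem_univ, true_and]
      constructor
      · intro h
        refine ⟨?_, h⟩
        rw [mem_filter] at hp
        have h2 := hp.2.1.1
        rw [← h] at h2
        intro y hy
        by_cases hyZ : y ∈ Z
        · exact hZR hyZ
        · exact (mem_sdiff.1 (h2 (mem_sdiff.2 ⟨hy, hyZ⟩))).1
      · exact fun h => h.2
    rw [sum_congr rfl h1, Finset.sum_fiberwise_of_maps_to (g := fun x : Q × Q => pty Z x)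
      (fun x hx => mem_filter.2 ⟨mem_univ _, hin' x (mem_filter.1 hx).2⟩)]
    rw [show (univ.filter fun x : Q × Q => (sup x.1 : Finset α) ⊆ Reg α P) =
      (univ.filter fun q : Q => (sup q : Finset α) ⊆ Reg α P) ×ˢ univ by
        ext x
        simp [mem_product], sum_product]
    apply sum_congr rfl
    intro q _
    unfold NN
    rw [mul_sum]
  -- the sums depend only on the type
  have hinv : ∀ p p', PS Z k univ p → PS Z k univ p' → ptau Z p = ptau Z p' → T p = T p' := by
    rintro ⟨A, U⟩ ⟨A', U'⟩ ⟨⟨a1, a2⟩, a3, a4⟩ ⟨⟨b1, b2⟩, b3, b4⟩ ht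
    simp only at a1 a2 a3 a4 b1 b2 b3 b4
    unfold ptau at ht
    rw [Prod.mk.injEq] at ht
    obtain ⟨g, g1, g2, g3, g4, g5⟩ := exists_pair_perm lib ((disj_iff _ _).2 a1)
      ((disj_iff _ _).2 a3) ((disj_iff _ _).2 b1) ((disj_iff _ _).2 b3) ht.1 ht.2 (by omega)
    have hgZ : Z.map g.toEmbedding = Z := by
      ext x
      rw [mem_map]
      constructor
      · rintro ⟨y, hy, rfl⟩
        change g y ∈ Z
        rw [g2 y hy]
        exact hy
      · intro hx
        exact ⟨x, hx, g2 x hx⟩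
    have hpty : ∀ x : Q × Q, pty Z (g • x) =
        ((pty Z x).1.map g.toEmbedding, (pty Z x).2.map g.toEmbedding) := by
      intro x
      unfold pty
      rw [Prod.smul_fst, Prod.smul_snd, sup_smul, sup_smul]
      simp only
      rw [Finset.map_sdiff, Finset.map_sdiff, map_union, Finset.map_sdiff, hgZ]
    apply Finset.sum_equiv (MulAction.toPerm g)
    · intro x
      simp only [mem_filter, mem_univ, true_and, MulAction.toPerm_apply]
      rw [hpty, ← g3, ← g4, Prod.ext_iff, Prod.ext_iff]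
      simp only [(map_injective _).eq_iff]
    · intro x hx
      rw [mem_filter] at hx
      have hx1 : (sup x.1 : Finset α) \ Z = A := congrArg Prod.fst hx.2
      have hx2 : (sup x.2 : Finset α) \ (Z ∪ ((sup x.1 : Finset α) \ Z)) = U :=
        congrArg Prod.snd hx.2
      rw [hx1] at hx2
      rw [MulAction.toPerm_apply]
      show a x.1 * _ = a (g • x.1) * (if F.child (g • x.1) (g • x.2) ∧ v (g • x.2) then 1 else 0)
      rw [ha g g1 g2]
      have h1 : v (g • x.2) ↔ v x.2 := by
        apply (hT x.2).of_mono (s := Z ∪ A ∪ U) _ g5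
        intro y hy
        by_cases h : y ∈ Z ∪ A
        · exact mem_union_left _ h
        · refine mem_union_right _ ?_
          rw [← hx2]
          exact mem_sdiff.2 ⟨hy, h⟩
      simp only [hS.inv.child, h1]
  have hmono : ∀ p, PS Z k (Reg α P) p → PS Z k univ p := fun p hp =>
    ⟨⟨hp.1.1.trans (sdiff_subset_sdiff (subset_univ _) subset_rfl), hp.1.2⟩, hp.2⟩
  rw [e1, e2]
  apply lib.cmp _ _ _ m s s' (ptau Z) (ptau Z) T T
  · intro p hp p' hp' h
    exact hinv p p' (mem_filter.1 hp).2 (hmono _ (mem_filter.1 hp').2) h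
  · intro p hp p' hp' h
    exact hinv p p' (mem_filter.1 hp).2 (mem_filter.1 hp').2 h
  · intro p hp p' hp' h
    exact hinv p p' (hmono _ (mem_filter.1 hp).2) (hmono _ (mem_filter.1 hp').2) h
  · intro i
    simp only [s, s', mem_filter, mem_univ, true_and]
    by_cases hex : ∃ p, PS Z k univ p ∧ ptau Z p = i
    · obtain ⟨⟨A₀, U₀⟩, h1, rfl⟩ := hex
      rw [card_pairs_all lib hS.per hS.dvd Z (fun z hz => mem_Reg.1 (hZR hz)) hc h1,
        card_pairs_reg lib hP0 hS.per hS.hN Z hZ h1]
    · have i1 : IsEmpty {p : Finset α × Finset α // PS Z k univ p ∧ ptau Z p = i} :=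
        ⟨fun p => hex ⟨p.1, p.2⟩⟩
      have i2 : IsEmpty {p : Finset α × Finset α // PS Z k (Reg α P) p ∧ ptau Z p = i} :=
        ⟨fun p => hex ⟨p.1, hmono _ p.2.1, p.2.2⟩⟩
      rw [Nat.card_of_isEmpty, Nat.card_of_isEmpty]

open Classical in
theorem linear_core (lib : Lib) {F : MDag m (Atom σ (α ⊕ B)) Q} {k P : ℕ} (hS : Setup F k P)
    {v : Q → Prop} (hT : ∀ q, TT (α := α) v q) (Z : Finset α) (hZ : ∀ z ∈ Z, P ^ 2 ∣ pos z)
    (hc : Z.card + 2 * k + 2 ≤ Fintype.card α) (a ρ : Q → ZMod m)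
    (ha : ∀ g : Perm α, Perm.sign g = 1 → (∀ x ∈ Z, g x = x) → ∀ q, a (g • q) = a q)
    (hmod : ∀ q, a q ≠ 0 → F.IsMod q (ρ q)) (q : Q) (r : ZMod m)
    (hchild : ∀ q'', (if F.child q q'' then (1 : ZMod m) else 0)
        = ∑ q', a q' * (if F.child q' q'' then (1 : ZMod m) else 0))
    (hr : r = ∑ q', a q' * ρ q')
    (hN : ∀ q', a q' ≠ 0 → (sup q' : Finset α) ⊆ Reg α P → NN F v q' = ρ q') :
    NN F v q = r := by
  have hP0 : 0 < P := by have := hS.kP; omega
  have hZR : Z ⊆ Reg α P := fun z hz =>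
    mem_Reg.2 ((Dvd.intro_left _ (by rw [← pow_succ])).trans (hZ z hz))
  have h1 : NN F v q = ∑ q', a q' * NN F v q' := by
    have h2 : ∀ q', NN F v q' = ∑ q'' with v q'', if F.child q' q'' then (1 : ZMod m) else 0 := by
      intro q'
      unfold NN
      rw [sum_filter]
      apply sum_congr rfl
      intro q'' _
      by_cases h : v q''
      · simp only [h, and_true, if_true]
      · simp only [h, and_false, if_false]
    rw [h2 q]
    simp only [hchild]
    rw [sum_comm]
    apply sum_congr rfl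
    intro q' _
    rw [h2 q', mul_sum]
  have hρinv : ∀ g : Perm α, Perm.sign g = 1 → (∀ x ∈ Z, g x = x) → ∀ q',
      a (g • q') * ρ (g • q') = a q' * ρ q' := by
    intro g g1 g2 q'
    rw [ha g g1 g2 q']
    by_cases h0 : a q' = 0
    · rw [h0, zero_mul, zero_mul]
    · have h1 := hmod q' h0
      have h2 := hmod (g • q') (by rw [ha g g1 g2 q']; exact h0)
      have h3 : ρ (g • q') = ρ q' := by
        have := (h1.2 True True (ρ (g • q')))
        rw [← hS.inv.conn g q', h2.2] at this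
        exact this.1 rfl
      rw [h3]
  have hout : ∑ q' with ¬ (sup q' : Finset α) ⊆ Reg α P, a q' * ρ q' = 0 := by
    apply vanish_inv (fun q => (hS.hsup q).1) (Reg α P) _ _ Z hZR (by omega) hρinv
    intro j h1 h2
    obtain ⟨t, ht⟩ := (lib.regf α P hP0 hS.hN).2.2
    rw [ht, mul_comm]
    exact hS.per t j h1 (by omega)
  rw [h1, pair_sum lib hS hT Z hZ hc a ha, hr, card_split (Reg α P) _ hout]
  apply sum_congr rfl
  intro q' hq'
  rw [mem_filter] at hq'
  by_cases h0 : a q' = 0
  · rw [h0, zero_mul, zero_mul]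
  · rw [hN q' h0 hq'.2]

end H688R2.Ord
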