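import Pool.Agent.H688R2.Ord.Spec

/-!
# More statements for the linear order project
-/

namespace H688R2.Ord

open Equiv Finset H688R2.Sym H688R2.Gap H688R2.Cnt

/-- short refutations without symmetry -/
def S_EASY : Prop := ∀ m n : ℕ, 1 ≤ n → ∃ (Q : Type) (_ : Fintype Q)
  (_ : MulAction (Perm Empty) Q) (F : MDag m (Atom ordSig (Empty ⊕ Fin n)) Q),
  Fintype.card Q ≤ 3 * n ^ 2 ∧ (∀ q, F.level q ≤ 1) ∧
  (∀ q, F.var q = none → ∀ s t z, F.conn q s t z ↔ s) ∧ F.Invariant ∧ F.Refutes noMin 3 6 1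

/-- part of the elements may be treated as names -/
def S_TRANS : Prop := ∀ (σ : Sig) (Φ : Sentence σ) (m : ℕ) (α α' α'' B Q : Type)
  [Fintype α] [Fintype Q] [MulAction (Perm α) Q] (_ : α ≃ α' ⊕ α'')
  (F : MDag m (Atom σ (α ⊕ B)) Q) (w c s : ℕ), F.Invariant →
  (∀ q : Q, Nat.card (MulAction.orbit (Perm α) q) ≤ s) → F.Refutes Φ w c s →
  ∃ (_ : MulAction (Perm α') Q) (F' : MDag m (Atom σ (α' ⊕ (α'' ⊕ B))) Q), F'.Invariant ∧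
    (∀ q : Q, Nat.card (MulAction.orbit (Perm α') q) ≤ s) ∧ F'.Refutes Φ w c s

/-- the choice of the numbers -/
def S_NUM : Prop := ∀ m w c : ℕ, 1 ≤ m → ∃ d n₀ : ℕ, ∀ n, n₀ ≤ n → ∀ k, 1 ≤ k → k ^ d ≤ n →
  ∃ n' P : ℕ, n' ≤ n ∧ (∀ t j, 1 ≤ j → j ≤ 2 * k → m ∣ (t * P).choose j) ∧ 2 * k < P ∧
    P ^ 2 ∣ n' + 1 ∧ ((c + 1) * (w + 1) * (k + 3) + k) * P ^ 2 ≤ n' ∧
    16 * (k + 1) * (k + 1) * (Nat.log 2 n' + 1) ≤ n' ∧ 4 ≤ n'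

end H688R2.Ord
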