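import Pool.Agent.H688R2.Ord.Sound
import Pool.Agent.H688R2.Ord.Spec2

/-!
# The lower bound for sentences with an order invariant model
-/

namespace H688R2.Ord

open Equiv Finset H688R2.Sym H688R2.Gap H688R2.Cnt H534R2.SymSw

/-- **Lower bound.** -/
theorem not_refutes_order (lib : Lib) (hREGU : S_REGU) (hWIT : S_WIT) (hMEM : S_MEM)
    {σ : Sig} {α B Q : Type} {m : ℕ} [Fintype α] [Fintype Q] [MulAction (Perm α) Q]
    (Φ : Sentence σ) {S₀ : Atom σ (ℚ ⊕ B) → Prop} (hS₀ : OrderInvariant S₀) (hM : Φ.Models S₀)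
    (F : MDag m (Atom σ (α ⊕ B)) Q) (hF : F.Invariant) {k w c n P : ℕ} (hk : 1 ≤ k)
    (hn : n ^ 2 ≤ Fintype.card α ^ k)
    (hQ : ∀ q : Q, Nat.card (MulAction.orbit (Perm α) q) ≤ n)
    (hK : 16 * (k + 1) * (k + 1) * (Nat.log 2 (Fintype.card α) + 1) ≤ Fintype.card α)
    (hP : ∀ t j, 1 ≤ j → j ≤ 2 * k → m ∣ (t * P).choose j) (hkP : 2 * k < P) (hqP : Φ.q < P)
    (hN : P ^ 2 ∣ Fintype.card α + 1)
    (hroom : ((c + 1) * (w + 1) * (k + Φ.p) + k) * P ^ 2 ≤ Fintype.card α) :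
    ¬ F.Refutes Φ w c n := by
  intro hR
  classical
  letI : LinearOrder α := LinearOrder.lift' (Fintype.equivFin α) (Fintype.equivFin α).injective
  let p : α → ℚ := fun a => ((Fintype.equivFin α a : ℕ) : ℚ)
  have hp : StrictMono p := by
    intro a b hab
    have h1 : Fintype.equivFin α a < Fintype.equivFin α b := hab
    show ((Fintype.equivFin α a : ℕ) : ℚ) < ((Fintype.equivFin α b : ℕ) : ℚ)
    exact_mod_cast h1
  have hsup : ∀ q : Q, (sup q : Finset α).card ≤ k ∧ IsSup (sup q : Finset α) q := fun q =>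
    small_sup_orbit hk q ((Nat.pow_le_pow_left (hQ q) 2).trans hn) hK
  have hS : Setup F k P := ⟨hF, hsup, hk, hP, hkP, hN⟩
  have hP0 : 0 < P := by omega
  have hν : ∀ t : Finset α, ∃ g : Perm α, t.card ≤ k → StrictMonoOn g (t : Set α) ∧
      ∀ a ∈ t, P ∣ pos (g a) := by
    intro t
    by_cases ht : t.card ≤ k
    · obtain ⟨g, g1, g2⟩ := hREGU α t P hP0 (by
        calc t.card * P ≤ k * P ^ 2 := by
              apply Nat.mul_le_mul ht
              nlinarith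
          _ ≤ ((c + 1) * (w + 1) * (k + Φ.p) + k) * P ^ 2 :=
              Nat.mul_le_mul_right _ (Nat.le_add_left _ _)
          _ ≤ _ := hroom)
      exact ⟨g, fun _ => ⟨g1, g2⟩⟩
    · exact ⟨1, fun h => absurd h ht⟩
  choose ν hν using hν
  obtain ⟨v, hv⟩ := exists_isVal F hF (pull S₀ p) ν
  have G : Good F Φ S₀ p v k P ((c + 1) * (w + 1) * (k + Φ.p) + k) := {
    lib := lib
    regu := hREGU
    wit := hWIT
    setup := hS
    inv₀ := hS₀
    model := hM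
    mono := hp
    hq := hqP
    room := hroom
    T := fun q => TT_all lib hMEM hS hS₀ hp hv hν _ q rfl
    var := hv.var
    resp := fun q hq => respects_of_regular lib hMEM hS hS₀ hp hv hν q hq }
  obtain ⟨l, hl, _⟩ := valid_of_derives G hn hK le_rfl hR 1
  exact absurd hl (notMem_empty l)

/-- the linear order principle, all numbers of elements -/
theorem lop_lower (lib : Lib) (hREGU : S_REGU) (hWIT : S_WIT) (hMEM : S_MEM) (hLOP : S_LOP)
    (hTRANS : S_TRANS) (hNUM : S_NUM) (m w c : ℕ) (hm : 1 ≤ m) :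
    ∃ d n₀ : ℕ, ∀ (α B Q : Type) (_ : Fintype α) (_ : Fintype Q) (_ : MulAction (Perm α) Q)
      (F : MDag m (Atom ordSig (α ⊕ B)) Q) (k s : ℕ), F.Invariant → n₀ ≤ Fintype.card α →
      k ^ d ≤ Fintype.card α →
      (∀ q : Q, Nat.card (MulAction.orbit (Perm α) q) ≤ s) → F.Refutes noMin w c s →
      2 ^ k < s := by
  classical
  obtain ⟨d, n₀, hn₀⟩ := hNUM m w c hm
  refine ⟨d, max n₀ 1, ?_⟩
  intro α B Q _ _ _ F k s hF hn hk hs hR
  obtain ⟨k', hk1, hkk', hk'⟩ : ∃ k', 1 ≤ k' ∧ k ≤ k' ∧ k' ^ d ≤ Fintype.card α := by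
    by_cases h : 1 ≤ k
    · exact ⟨k, h, le_rfl, hk⟩
    · refine ⟨1, le_rfl, by omega, ?_⟩
      rw [one_pow]
      exact (le_max_right _ _).trans hn
  obtain ⟨n', P, h1, h2, h3, h4, h5, h6, h7⟩ := hn₀ _ ((le_max_left _ _).trans hn) k' hk1 hk'
  obtain ⟨y, -, hy⟩ := exists_subset_card_eq (s := (univ : Finset α)) (n := n')
    (by rwa [card_univ])
  let e : α ≃ {a // a ∈ y} ⊕ {a // ¬ a ∈ y} := (Equiv.sumCompl (fun a => a ∈ y)).symm
  obtain ⟨inst, F', hF', hs', hR'⟩ := hTRANS ordSig noMin m α {a // a ∈ y} {a // ¬ a ∈ y} B Q e F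
    w c s hF hs hR
  have hcard : Fintype.card {a // a ∈ y} = n' := by rw [Fintype.card_coe, hy]
  obtain ⟨r, hr⟩ : ∃ r : LinearOrder ({a // ¬ a ∈ y} ⊕ B), True :=
    ⟨linearOrderOfSTO (WellOrderingRel), trivial⟩
  obtain ⟨S₀, hS₀, hinv⟩ := hLOP.2 ({a // ¬ a ∈ y} ⊕ B)
  by_contra hlt
  push Not at hlt
  refine not_refutes_order lib hREGU hWIT hMEM noMin hinv hS₀ F' hF' (k := k') (w := w) (c := c)
    (n := s) (P := P) hk1 ?_ hs' (by rwa [hcard]) h2 h3 (by show 1 < P; omega) (by rwa [hcard])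
    (by rw [hcard]; exact h5) hR'
  rw [hcard]
  calc s ^ 2 ≤ (2 ^ k) ^ 2 := Nat.pow_le_pow_left hlt 2
    _ = 4 ^ k := by rw [← pow_mul, mul_comm, pow_mul]; norm_num
    _ ≤ 4 ^ k' := Nat.pow_le_pow_right (by norm_num) hkk'
    _ ≤ n' ^ k' := Nat.pow_le_pow_left h7 _

end H688R2.Ord
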