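import Pool.Agent.H688R2.Ord.Spec

/-!
# MATCH: matching of sets with the same numbers of elements in all gaps
-/

namespace H688R2.Ord

open Equiv Finset H688R2.Sym H688R2.Gap H688R2.Cnt

theorem match_rk_mono {β : Type} [LinearOrder β] (Y : Finset β) {x y : β} (h : x ≤ y) :
    rk Y x ≤ rk Y y :=
  card_le_card (fun z hz => by
    rw [mem_filter] at hz ⊢
    exact ⟨hz.1, hz.2.trans_le h⟩)

theorem match_rk_lt {β : Type} [LinearOrder β] (Y : Finset β) {x y : β} (hx : x ∈ Y)
    (h : x < y) : rk Y x < rk Y y := by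
  apply card_lt_card
  rw [ssubset_iff_of_subset (fun z hz => by
    rw [mem_filter] at hz ⊢
    exact ⟨hz.1, hz.2.trans h⟩)]
  exact ⟨x, mem_filter.mpr ⟨hx, h⟩, fun h' => lt_irrefl _ (mem_filter.mp h').2⟩

theorem match_rk_inj {β : Type} [LinearOrder β] (Y : Finset β) {x y : β} (hx : x ∈ Y)
    (hy : y ∈ Y) (h : rk Y x = rk Y y) : x = y := by
  rcases lt_trichotomy x y with h1 | h1 | h1
  · exact absurd h (match_rk_lt Y hx h1).ne
  · exact h1
  · exact absurd h (match_rk_lt Y hy h1).ne'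

theorem match_card_J {β : Type} [LinearOrder β] (Y J : Finset β) :
    J.card = ∑ i ∈ range (Y.card + 1), tau Y J i := by
  unfold tau
  exact card_eq_sum_card_fiberwise (fun x _ => by
    have h : rk Y x ≤ Y.card := card_filter_le _ _
    have : rk Y x ∈ range (Y.card + 1) := mem_range.mpr (by omega)
    exact_mod_cast this)

theorem match_rk_union {β : Type} [LinearOrder β] (Y J : Finset β) (hd : Disjoint Y J) {y : β}
    (hy : y ∈ Y) :
    rk (Y ∪ J) y = rk Y y + ∑ i ∈ range (rk Y y + 1), tau Y J i := by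
  have h1 : rk (Y ∪ J) y = rk Y y + (J.filter fun x => x < y).card := by
    unfold rk
    rw [filter_union, card_union_of_disjoint]
    exact disjoint_filter_filter hd
  have h2 : (J.filter fun x => x < y) = J.filter fun x => rk Y x ≤ rk Y y := by
    ext x
    simp only [mem_filter, and_congr_right_iff]
    intro hxJ
    constructor
    · intro h; exact match_rk_mono Y h.le
    · intro h
      by_contra hcon
      rcases lt_or_eq_of_le (not_lt.mp hcon) with h3 | h3
      · exact absurd h (not_le.mpr (match_rk_lt Y hy h3))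
      · subst h3
        exact disjoint_left.mp hd hy hxJ
  have h3 : (J.filter fun x => rk Y x ≤ rk Y y).card =
      ∑ i ∈ range (rk Y y + 1), tau Y J i := by
    have h4 : (J.filter fun x => rk Y x ≤ rk Y y).card =
        ∑ i ∈ range (rk Y y + 1),
          ((J.filter fun x => rk Y x ≤ rk Y y).filter fun x => rk Y x = i).card :=
      card_eq_sum_card_fiberwise (fun x hx => by
        have h5 : rk Y x ≤ rk Y y := by
          have := mem_coe.mp hx
          exact (mem_filter.mp this).2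
        have : rk Y x ∈ range (rk Y y + 1) := mem_range.mpr (by omega)
        exact_mod_cast this)
    rw [h4]
    refine sum_congr rfl fun i hi => ?_
    unfold tau
    congr 1
    ext x
    simp only [mem_filter]
    have hi' := mem_range.mp hi
    constructor
    · rintro ⟨⟨h5, _⟩, h6⟩; exact ⟨h5, h6⟩
    · rintro ⟨h5, h6⟩; exact ⟨⟨h5, by omega⟩, h6⟩
  rw [h1, h2, h3]

theorem match_rk_iso {β α : Type} [LinearOrder β] [LinearOrder α] (S : Finset β) (S' : Finset α)
    (G : S ≃o S') (s : S) : rk S' (G s : α) = rk S (s : β) := by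
  unfold rk
  symm
  refine card_bij (fun x hx => (G ⟨x, (mem_filter.mp hx).1⟩ : α)) ?_ ?_ ?_
  · intro x hx
    rw [mem_filter]
    refine ⟨(G _).2, ?_⟩
    have h : G ⟨x, (mem_filter.mp hx).1⟩ < G s := G.lt_iff_lt.mpr (mem_filter.mp hx).2
    exact h
  · intro x hx y hy h
    have h1 := G.injective (Subtype.ext h)
    exact congrArg Subtype.val h1
  · intro z hz
    rw [mem_filter] at hz
    have h1 : (G.symm ⟨z, hz.1⟩ : S) < s := by
      rw [← G.lt_iff_lt, G.apply_symm_apply]
      exact hz.2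
    refine ⟨(G.symm ⟨z, hz.1⟩ : S), mem_filter.mpr ⟨(G.symm ⟨z, hz.1⟩ : S).2, h1⟩, ?_⟩
    simp

theorem t_MATCH : S_MATCH := by
  intro β α _ _ _ Y J Y' J' hd hd' hc htau
  classical
  have hJ : J.card = J'.card := by
    rw [match_card_J Y J, match_card_J Y' J', hc]
    exact sum_congr rfl fun i _ => htau i
  have hS : (Y ∪ J).card = (Y' ∪ J').card := by
    rw [card_union_of_disjoint hd, card_union_of_disjoint hd', hc, hJ]
  set G : (Y ∪ J : Finset β) ≃o (Y' ∪ J' : Finset α) :=
    ((Y ∪ J).orderIsoOfFin hS).symm.trans ((Y' ∪ J').orderIsoOfFin rfl) with hG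
  set F : Y ≃o Y' := (Y.orderIsoOfFin hc).symm.trans (Y'.orderIsoOfFin rfl) with hF
  set e : β → α := fun x => if h : x ∈ Y ∪ J then (G ⟨x, h⟩ : α) else Classical.arbitrary α with he
  have he1 : ∀ (x : β) (h : x ∈ Y ∪ J), e x = (G ⟨x, h⟩ : α) := by
    intro x h
    simp only [he, dif_pos h]
  have hmono : StrictMonoOn e ↑(Y ∪ J) := by
    intro x hx y hy hxy
    rw [he1 x hx, he1 y hy]
    have h : G ⟨x, hx⟩ < G ⟨y, hy⟩ := G.lt_iff_lt.mpr hxy
    exact h
  have hY : ∀ y ∈ Y, e y ∈ Y' := by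
    intro y hy
    have hyS : y ∈ Y ∪ J := mem_union_left _ hy
    have h1 : rk (Y' ∪ J') (G ⟨y, hyS⟩ : α) = rk (Y ∪ J) y := match_rk_iso _ _ G ⟨y, hyS⟩
    have h2 : rk Y' (F ⟨y, hy⟩ : α) = rk Y y := match_rk_iso _ _ F ⟨y, hy⟩
    have h3 : rk (Y' ∪ J') (F ⟨y, hy⟩ : α) = rk (Y ∪ J) y := by
      rw [match_rk_union Y' J' hd' (F ⟨y, hy⟩).2, match_rk_union Y J hd hy, h2]
      congr 1
      exact sum_congr rfl fun i _ => (htau i).symm
    have h4 : (G ⟨y, hyS⟩ : α) = (F ⟨y, hy⟩ : α) :=
      match_rk_inj (Y' ∪ J') (G ⟨y, hyS⟩).2 (mem_union_left _ (F ⟨y, hy⟩).2) (h1.trans h3.symm)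
    rw [he1 y hyS, h4]
    exact (F ⟨y, hy⟩).2
  have hinj : Set.InjOn e ↑(Y ∪ J) := hmono.injOn
  have hYim : Y.image e = Y' := by
    apply eq_of_subset_of_card_le
    · intro z hz
      obtain ⟨y, hy, rfl⟩ := mem_image.mp hz
      exact hY y hy
    · rw [card_image_of_injOn (hinj.mono (by
        intro x hx; exact mem_coe.mpr (mem_union_left _ (mem_coe.mp hx)))), hc]
  refine ⟨e, hmono, hYim, ?_⟩
  apply eq_of_subset_of_card_le
  · intro z hz
    obtain ⟨x, hx, rfl⟩ := mem_image.mp hz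
    have hxS : x ∈ Y ∪ J := mem_union_right _ hx
    have h1 : e x ∈ Y' ∪ J' := by rw [he1 x hxS]; exact (G ⟨x, hxS⟩).2
    rcases mem_union.mp h1 with h2 | h2
    · exfalso
      rw [← hYim] at h2
      obtain ⟨y, hy, hyx⟩ := mem_image.mp h2
      have h3 : y = x := hinj (mem_coe.mpr (mem_union_left _ hy)) (mem_coe.mpr hxS) hyx
      subst h3
      exact disjoint_left.mp hd hy hx
    · exact h2
  · rw [card_image_of_injOn (hinj.mono (by
      intro x hx; exact mem_coe.mpr (mem_union_right _ (mem_coe.mp hx)))), hJ]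

end H688R2.Ord
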