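import Pool.Agent.H688R2.Ord.Spec

namespace H688R2.Ord

open Equiv Finset H688R2.Sym H688R2.Gap H688R2.Cnt H534R2.SymSw

theorem t_MEM : S_MEM := by
  intro σ α B Q m k _ _ _ F hF hK hsup q a h i x hi
  classical
  by_contra hxs
  have h1 : 2 ≤ ((insert x (sup q : Finset α))ᶜ).card := by
    rw [card_compl]
    have := card_insert_le x (sup q : Finset α)
    have := (hsup q).1
    omega
  obtain ⟨u, hu, z, hz, huz⟩ := Finset.one_lt_card.1 (show 1 < _ from h1)
  simp only [mem_compl, mem_insert, not_or] at hu hz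
  have hfix : c3 x u z • q = q := by
    apply (hsup q).2
    · unfold c3
      rw [map_mul, Perm.sign_swap (Ne.symm hu.1), Perm.sign_swap huz]
      rfl
    · intro w hw
      apply c3_apply_of_ne
      · rintro rfl; exact hxs hw
      · rintro rfl; exact hu.2 hw
      · rintro rfl; exact hz.2 hw
  have h2 := hF.var (c3 x u z) q
  rw [hfix, h] at h2
  simp only [Option.map_some, Option.some.injEq] at h2
  have h3 : a.2 i = Sum.map (c3 x u z) id (a.2 i) := by
    have : ∀ b : Atom σ (α ⊕ B), a = b → ∀ j : Fin (σ.ar b.1), HEq i j → a.2 i = b.2 j := by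
      rintro b rfl j hj
      rw [eq_of_heq hj]
    exact this _ h2 i HEq.rfl
  rw [hi] at h3
  simp only [Sum.map_inl, Sum.inl.injEq] at h3
  rw [c3_apply1 (Ne.symm hu.1) (Ne.symm hz.1)] at h3
  exact hu.1 h3.symm

end H688R2.Ord
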