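import Pool.Agent.H688R2.Ord.Spec2
import Pool.Agent.H688R2.Cnt.Apply

/-!
# The choice of the numbers
-/

namespace H688R2.Ord

open Equiv Finset H688R2.Sym H688R2.Gap H688R2.Cnt

theorem NUM_log (L : ℕ) (hL : 24 ≤ L) : 16384 * (L + 1) ^ 2 ≤ 2 ^ L := by
  induction L, hL using Nat.le_induction with
  | base => norm_num
  | succ L hL ih =>
    rw [pow_succ 2 L]
    nlinarith

theorem t_NUM : S_NUM := by
  intro m w c hm
  have hm0 : m ≠ 0 := by omega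
  obtain ⟨w0, hw0⟩ : ∃ w0, w0 = m.primeFactors.card := ⟨_, rfl⟩
  obtain ⟨Q, hQ⟩ : ∃ Q, Q = (c + 1) * (w + 1) := ⟨_, rfl⟩
  obtain ⟨C, hC⟩ : ∃ C, C = (4 * Q + 2) * (m ^ 2 * 4 ^ (2 * w0 + 2)) := ⟨_, rfl⟩
  refine ⟨2 * (2 * w0 + 3), 4 * C ^ 2 + 2 ^ 24, fun n hn k hk hkd => ?_⟩
  have hper := per_le m (2 * k) (by omega)
  have hpos := per_pos m (2 * k) hm0
  rw [← hw0] at hper
  obtain ⟨P, hP⟩ : ∃ P, P = per m (2 * k) * (2 * k + 2) := ⟨_, rfl⟩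
  have h1 : P ≤ m * (4 * k) ^ (w0 + 1) := by
    calc P ≤ m * (2 * k) ^ w0 * (4 * k) := by
          rw [hP]
          exact Nat.mul_le_mul hper (by omega)
      _ ≤ m * (4 * k) ^ w0 * (4 * k) := by gcongr; omega
      _ = m * (4 * k) ^ (w0 + 1) := by rw [pow_succ]; ring
  have h2 : P ^ 2 ≤ m ^ 2 * 4 ^ (2 * w0 + 2) * k ^ (2 * w0 + 2) := by
    calc P ^ 2 ≤ (m * (4 * k) ^ (w0 + 1)) ^ 2 := Nat.pow_le_pow_left h1 2
      _ = m ^ 2 * 4 ^ (2 * w0 + 2) * k ^ (2 * w0 + 2) := by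
        rw [mul_pow, ← pow_mul, mul_pow, show (w0 + 1) * 2 = 2 * w0 + 2 by ring]
        ring
  have h3 : Q * (k + 3) + k + 1 ≤ (4 * Q + 2) * k := by
    nlinarith [Nat.mul_le_mul (Nat.zero_le Q) hk, Nat.mul_le_mul_left Q hk]
  have h4 : (Q * (k + 3) + k + 1) * P ^ 2 ≤ C * k ^ (2 * w0 + 3) := by
    calc (Q * (k + 3) + k + 1) * P ^ 2
        ≤ ((4 * Q + 2) * k) * (m ^ 2 * 4 ^ (2 * w0 + 2) * k ^ (2 * w0 + 2)) :=
          Nat.mul_le_mul h3 h2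
      _ = C * k ^ (2 * w0 + 3) := by
        rw [hC, show 2 * w0 + 3 = (2 * w0 + 2) + 1 by ring, pow_succ k (2 * w0 + 2)]
        ring
  have hkd2 : (k ^ (2 * w0 + 3)) ^ 2 ≤ n := by
    rw [← pow_mul, mul_comm (2 * w0 + 3) 2]
    exact hkd
  have h5 : 2 * (C * k ^ (2 * w0 + 3)) ≤ n := by
    rw [← Nat.pow_le_pow_iff_left (n := 2) (by norm_num)]
    calc (2 * (C * k ^ (2 * w0 + 3))) ^ 2 = 4 * C ^ 2 * (k ^ (2 * w0 + 3)) ^ 2 := by ring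
      _ ≤ n * n := Nat.mul_le_mul (by omega) hkd2
      _ = n ^ 2 := by ring
  have hlog : 24 ≤ Nat.log 2 n := by
    apply Nat.le_log_of_pow_le (by norm_num)
    omega
  have hn0 : n ≠ 0 := by
    have : 0 < 2 ^ 24 := by norm_num
    omega
  have h6 : 16384 * (Nat.log 2 n + 1) ^ 2 ≤ n :=
    (NUM_log _ hlog).trans (Nat.pow_log_le_self 2 hn0)
  have h7 : 128 * k ^ (2 * w0 + 3) * (Nat.log 2 n + 1) ≤ n := by
    rw [← Nat.pow_le_pow_iff_left (n := 2) (by norm_num)]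
    calc (128 * k ^ (2 * w0 + 3) * (Nat.log 2 n + 1)) ^ 2 =
          (16384 * (Nat.log 2 n + 1) ^ 2) * (k ^ (2 * w0 + 3)) ^ 2 := by ring
      _ ≤ n * n := Nat.mul_le_mul h6 hkd2
      _ = n ^ 2 := by ring
  have hk2 : k ^ 2 ≤ k ^ (2 * w0 + 3) := Nat.pow_le_pow_right hk (by omega)
  have hPpos : 0 < P := by
    rw [hP]
    positivity
  have hP2 : 0 < P ^ 2 := by positivity
  have h8 : (Q * (k + 3) + k + 1) * P ^ 2 = (Q * (k + 3) + k) * P ^ 2 + P ^ 2 := by ring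
  -- the number
  have hmod := Nat.div_add_mod (n + 1) (P ^ 2)
  have hlt := Nat.mod_lt (n + 1) hP2
  obtain ⟨N, hN⟩ : ∃ N, N = P ^ 2 * ((n + 1) / P ^ 2) := ⟨_, rfl⟩
  rw [← hN] at hmod
  obtain ⟨r, hr⟩ : ∃ r, r = (n + 1) % P ^ 2 := ⟨_, rfl⟩
  rw [← hr] at hmod hlt
  have h9 : 2 * P ^ 2 ≤ n := by omega
  refine ⟨N - 1, P, ?_, ?_, ?_, ?_, ?_, ?_, ?_⟩
  · omega
  · intro t j hj1 hj2
    rw [hP, show t * (per m (2 * k) * (2 * k + 2)) = t * (2 * k + 2) * per m (2 * k) by ring]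
    exact choose_mul_per m (2 * k) hm0 _ j hj1 hj2
  · rw [hP]
    nlinarith
  · rw [show N - 1 + 1 = N by omega, hN]
    exact Dvd.intro _ rfl
  · rw [← hQ]
    omega
  · have h10 : Nat.log 2 (N - 1) ≤ Nat.log 2 n := Nat.log_mono_right (by omega)
    have h11 : 16 * (k + 1) * (k + 1) ≤ 64 * k ^ 2 := by nlinarith
    have h12 : 2 * (16 * (k + 1) * (k + 1) * (Nat.log 2 (N - 1) + 1)) ≤ n := by
      calc 2 * (16 * (k + 1) * (k + 1) * (Nat.log 2 (N - 1) + 1))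
          ≤ 2 * (64 * k ^ (2 * w0 + 3) * (Nat.log 2 n + 1)) := by
            apply Nat.mul_le_mul_left
            exact Nat.mul_le_mul (h11.trans (Nat.mul_le_mul_left _ hk2)) (by omega)
        _ = 128 * k ^ (2 * w0 + 3) * (Nat.log 2 n + 1) := by ring
        _ ≤ n := h7
    omega
  · have : 2 ^ 24 = 16777216 := by norm_num
    omega

end H688R2.Ord
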