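import Pool.Agent.H688R2.Ord.Spec

namespace H688R2.Ord

open Equiv Finset H688R2.Sym H688R2.Gap H688R2.Cnt

theorem pair_fix {α : Type} [LinearOrder α] (Z : Finset α) (g : α → α)
    (hg : StrictMonoOn g ↑Z) (hgZ : ∀ z ∈ Z, g z ∈ Z) : ∀ z ∈ Z, g z = z := by
  set g' : Z → Z := fun z => ⟨g z.1, hgZ z.1 z.2⟩ with hg'
  have hmono : StrictMono g' := fun a b hab => hg a.2 b.2 hab
  intro z hz
  have h1 : (⟨z, hz⟩ : Z) ≤ g' ⟨z, hz⟩ := hmono.le_apply
  have h2 : g' ⟨z, hz⟩ ≤ (⟨z, hz⟩ : Z) := hmono.apply_le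
  exact le_antisymm h2 h1

theorem pair_rk {α : Type} [LinearOrder α] (g : Perm α) (Y T : Finset α) (hYT : Y ⊆ T)
    (hg : StrictMonoOn g ↑T) {x : α} (hx : x ∈ T) :
    rk (Y.map g.toEmbedding) (g x) = rk Y x := by
  unfold rk
  rw [← Finset.card_map g.toEmbedding (s := Y.filter fun y => y < x)]
  congr 1
  ext y
  simp only [Finset.mem_filter, Finset.mem_map, Equiv.coe_toEmbedding]
  constructor
  · rintro ⟨⟨z, hz, rfl⟩, hlt⟩
    exact ⟨z, ⟨hz, (hg.lt_iff_lt (Finset.mem_coe.2 (hYT hz)) (Finset.mem_coe.2 hx)).1 hlt⟩, rfl⟩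
  · rintro ⟨z, ⟨hz, hlt⟩, rfl⟩
    exact ⟨⟨z, hz, rfl⟩,
      (hg.lt_iff_lt (Finset.mem_coe.2 (hYT hz)) (Finset.mem_coe.2 hx)).2 hlt⟩

theorem pair_tau {α : Type} [LinearOrder α] (g : Perm α) (Y J T : Finset α) (hYT : Y ⊆ T)
    (hJT : J ⊆ T) (hg : StrictMonoOn g ↑T) :
    tau (Y.map g.toEmbedding) (J.map g.toEmbedding) = tau Y J := by
  funext i
  unfold tau
  rw [← Finset.card_map g.toEmbedding (s := J.filter fun x => rk Y x = i)]
  congr 1
  ext y
  simp only [Finset.mem_filter, Finset.mem_map, Equiv.coe_toEmbedding]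
  constructor
  · rintro ⟨⟨z, hz, rfl⟩, h⟩
    rw [pair_rk g Y T hYT hg (hJT hz)] at h
    exact ⟨z, ⟨hz, h⟩, rfl⟩
  · rintro ⟨z, ⟨hz, h⟩, rfl⟩
    refine ⟨⟨z, hz, rfl⟩, ?_⟩
    rw [pair_rk g Y T hYT hg (hJT hz)]
    exact h

theorem pair_map_id {α : Type} [LinearOrder α] (g : Perm α) (Z : Finset α)
    (h : ∀ a ∈ Z, g a = a) : Z.map g.toEmbedding = Z := by
  ext y
  simp only [Finset.mem_map, Equiv.coe_toEmbedding]
  constructor
  · rintro ⟨z, hz, rfl⟩
    rw [h z hz]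
    exact hz
  · intro hy
    exact ⟨y, hy, h y hy⟩

theorem pair_agree {α : Type} [LinearOrder α] (g g' : Perm α) (J : Finset α)
    (hg : StrictMonoOn g ↑J) (hg' : StrictMonoOn g' ↑J)
    (h : J.map g.toEmbedding = J.map g'.toEmbedding) : ∀ x ∈ J, g x = g' x := by
  have h1 : ∀ x ∈ J, g'.symm (g x) ∈ J := by
    intro x hx
    have h2 : g x ∈ J.map g'.toEmbedding := by
      rw [← h]
      exact Finset.mem_map_of_mem g.toEmbedding hx
    obtain ⟨z, hz, hzx⟩ := Finset.mem_map.1 h2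
    have h3 : g' z = g x := hzx
    rw [← h3, Equiv.symm_apply_apply]
    exact hz
  have h2 := pair_fix J (fun x => g'.symm (g x)) (by
    intro a ha b hb hab
    have h3 := hg ha hb hab
    show g'.symm (g a) < g'.symm (g b)
    refine (hg'.lt_iff_lt (h1 a ha) (h1 b hb)).1 ?_
    rw [Equiv.apply_symm_apply, Equiv.apply_symm_apply]
    exact h3) h1
  intro x hx
  have h3 : g'.symm (g x) = x := h2 x hx
  rw [Equiv.symm_apply_eq] at h3
  exact h3

/-- a pair of the type of `(A₀, U₀)` is the image of `(A₀, U₀)` -/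
theorem pair_exists (hP : S_PERM) {α : Type} [Fintype α] [LinearOrder α] {Z A₀ U₀ : Finset α}
    (h1 : Disjoint Z A₀) (h2 : Disjoint (Z ∪ A₀) U₀)
    (h3 : Z.card + A₀.card + U₀.card + 2 ≤ Fintype.card α) {A U : Finset α}
    (h4 : Disjoint Z A) (h5 : Disjoint (Z ∪ A) U) (h6 : tau Z A = tau Z A₀)
    (h7 : tau (Z ∪ A) U = tau (Z ∪ A₀) U₀) :
    ∃ g : Perm α, (∀ a ∈ Z, g a = a) ∧ A₀.map g.toEmbedding = A ∧ U₀.map g.toEmbedding = U ∧
      StrictMonoOn g ↑(Z ∪ A₀ ∪ U₀) := by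
  have e1 : Z.map (1 : Perm α).toEmbedding = Z := pair_map_id 1 Z fun a _ => rfl
  obtain ⟨g1, -, hg1, hA, hmono1⟩ := hP α 1 Z A₀ A h1 (by rw [e1]; exact h4)
    (fun a _ b _ hab => hab) (fun i => by rw [e1, h6]) (by omega)
  have e2 : (Z ∪ A₀).map g1.toEmbedding = Z ∪ A := by
    rw [Finset.map_union, hA, pair_map_id g1 Z hg1]
  obtain ⟨g, -, hg, hU, hmono⟩ := hP α g1 (Z ∪ A₀) U₀ U h2 (by rw [e2]; exact h5) hmono1
    (fun i => by rw [e2, h7]) (by
      have := Finset.card_union_le Z A₀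
      omega)
  refine ⟨g, ?_, ?_, hU, hmono⟩
  · intro a ha
    rw [hg a (Finset.mem_union_left _ ha), hg1 a ha]
    rfl
  · rw [← hA]
    ext y
    simp only [Finset.mem_map, Equiv.coe_toEmbedding]
    constructor
    · rintro ⟨z, hz, rfl⟩
      exact ⟨z, hz, (hg z (Finset.mem_union_right _ hz)).symm⟩
    · rintro ⟨z, hz, rfl⟩
      exact ⟨z, hz, hg z (Finset.mem_union_right _ hz)⟩

theorem pair_dis {α : Type} [LinearOrder α] (g : Perm α) {S T : Finset α} (h : Disjoint S T) :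
    Disjoint (S.map g.toEmbedding) (T.map g.toEmbedding) :=
  (Finset.disjoint_map g.toEmbedding).2 h

theorem t_PAIR (hP : S_PERM) : S_PAIR := by
  intro α _ _ Z A₀ U₀ h1 h2 h3
  have hA0 : Disjoint Z (A₀ ∪ U₀) := by
    rw [Finset.disjoint_union_right]
    exact ⟨h1, (Finset.disjoint_union_left.1 h2).1⟩
  have hunion : Z ∪ (A₀ ∪ U₀) = Z ∪ A₀ ∪ U₀ := (Finset.union_assoc _ _ _).symm
  -- the map
  have hF : ∀ p : Finset α × Finset α, (Disjoint Z p.1 ∧ Disjoint (Z ∪ p.1) p.2 ∧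
      tau Z p.1 = tau Z A₀ ∧ tau (Z ∪ p.1) p.2 = tau (Z ∪ A₀) U₀) →
      Disjoint Z (p.1 ∪ p.2) ∧ tau Z (p.1 ∪ p.2) = tau Z (A₀ ∪ U₀) := by
    rintro ⟨A, U⟩ ⟨h4, h5, h6, h7⟩
    obtain ⟨g, hgZ, hgA, hgU, hmono⟩ := pair_exists hP h1 h2 h3 h4 h5 h6 h7
    refine ⟨?_, ?_⟩
    · rw [Finset.disjoint_union_right]
      exact ⟨h4, (Finset.disjoint_union_left.1 h5).1⟩
    · have e1 : A ∪ U = (A₀ ∪ U₀).map g.toEmbedding := by
        rw [Finset.map_union, hgA, hgU]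
      have e2 := pair_tau g Z (A₀ ∪ U₀) (Z ∪ A₀ ∪ U₀) (by
        rw [← hunion]; exact Finset.subset_union_left) (by
        rw [← hunion]; exact Finset.subset_union_right) hmono
      rw [pair_map_id g Z hgZ] at e2
      simp only
      rw [e1, e2]
  refine Nat.card_congr (Equiv.ofBijective (fun p => ⟨p.1.1 ∪ p.1.2, hF p.1 p.2⟩) ⟨?_, ?_⟩)
  · rintro ⟨⟨A, U⟩, h4, h5, h6, h7⟩ ⟨⟨A', U'⟩, h4', h5', h6', h7'⟩ heq
    have heq' : A ∪ U = A' ∪ U' := congrArg Subtype.val heq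
    simp only at h4 h5 h6 h7 h4' h5' h6' h7'
    obtain ⟨g, hgZ, hgA, hgU, hmono⟩ := pair_exists hP h1 h2 h3 h4 h5 h6 h7
    obtain ⟨g', hgZ', hgA', hgU', hmono'⟩ := pair_exists hP h1 h2 h3 h4' h5' h6' h7'
    have hsub : ((A₀ ∪ U₀ : Finset α) : Set α) ⊆ ((Z ∪ A₀ ∪ U₀ : Finset α) : Set α) := by
      rw [← hunion]
      exact Finset.coe_subset.2 Finset.subset_union_right
    have hag := pair_agree g g' (A₀ ∪ U₀) (hmono.mono hsub) (hmono'.mono hsub) (by
      rw [Finset.map_union, Finset.map_union, hgA, hgU, hgA', hgU', heq'])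
    have e1 : A = A' := by
      rw [← hgA, ← hgA']
      ext y
      simp only [Finset.mem_map, Equiv.coe_toEmbedding]
      constructor
      · rintro ⟨z, hz, rfl⟩
        exact ⟨z, hz, (hag z (Finset.mem_union_left _ hz)).symm⟩
      · rintro ⟨z, hz, rfl⟩
        exact ⟨z, hz, hag z (Finset.mem_union_left _ hz)⟩
    have e2 : U = U' := by
      rw [← hgU, ← hgU']
      ext y
      simp only [Finset.mem_map, Equiv.coe_toEmbedding]
      constructor
      · rintro ⟨z, hz, rfl⟩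
        exact ⟨z, hz, (hag z (Finset.mem_union_right _ hz)).symm⟩
      · rintro ⟨z, hz, rfl⟩
        exact ⟨z, hz, hag z (Finset.mem_union_right _ hz)⟩
    subst e1
    subst e2
    rfl
  · rintro ⟨J, h4, h5⟩
    have e1 : Z.map (1 : Perm α).toEmbedding = Z := pair_map_id 1 Z fun a _ => rfl
    obtain ⟨g, -, hg, hJ, hmono⟩ := hP α 1 Z (A₀ ∪ U₀) J hA0 (by rw [e1]; exact h4)
      (fun a _ b _ hab => hab) (fun i => by rw [e1, h5]) (by
        have := Finset.card_union_le A₀ U₀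
        omega)
    have hgZ : Z.map g.toEmbedding = Z := pair_map_id g Z hg
    rw [hunion] at hmono
    refine ⟨⟨(A₀.map g.toEmbedding, U₀.map g.toEmbedding), ?_, ?_, ?_, ?_⟩, ?_⟩
    · have := pair_dis g h1
      rwa [hgZ] at this
    · have := pair_dis g h2
      rwa [Finset.map_union, hgZ] at this
    · have := pair_tau g Z A₀ (Z ∪ A₀ ∪ U₀)
        (Finset.subset_union_left.trans Finset.subset_union_left)
        (Finset.subset_union_right.trans Finset.subset_union_left) hmono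
      rwa [hgZ] at this
    · have := pair_tau g (Z ∪ A₀) U₀ (Z ∪ A₀ ∪ U₀) Finset.subset_union_left
        Finset.subset_union_right hmono
      rwa [Finset.map_union, hgZ] at this
    · refine Subtype.ext ?_
      show A₀.map g.toEmbedding ∪ U₀.map g.toEmbedding = J
      rw [← Finset.map_union, hJ]

end H688R2.Ord
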