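import Pool.Agent.H688R2.Ord.Spec

/-!
# Extending a matching to a permutation of given sign
-/

namespace H688R2.Ord

open Equiv Finset H688R2.Sym H688R2.Gap H688R2.Cnt

/-- two strictly increasing maps on a finite set with the same image agree -/
theorem perm_eq_of_image {α : Type} [LinearOrder α] (Y : Finset α) (e h : α → α)
    (he : StrictMonoOn e ↑Y) (hh : StrictMonoOn h ↑Y) (him : Y.image e = Y.image h) :
    ∀ a ∈ Y, e a = h a := by
  have h1 : StrictMono (fun y : Y => e y.1) := fun a b hab => he a.2 b.2 hab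
  have h2 : StrictMono (fun y : Y => h y.1) := fun a b hab => hh a.2 b.2 hab
  have h3 : Set.range (fun y : Y => e y.1) = Set.range (fun y : Y => h y.1) := by
    ext z
    have h4 : z ∈ Y.image e ↔ z ∈ Y.image h := by rw [him]
    rw [Finset.mem_image, Finset.mem_image] at h4
    constructor
    · rintro ⟨a, rfl⟩
      obtain ⟨b, hb, hb'⟩ := h4.1 ⟨a.1, a.2, rfl⟩
      exact ⟨⟨b, hb⟩, hb'⟩
    · rintro ⟨a, rfl⟩
      obtain ⟨b, hb, hb'⟩ := h4.2 ⟨a.1, a.2, rfl⟩
      exact ⟨⟨b, hb⟩, hb'⟩
  have h5 := (StrictMono.range_inj h1 h2).1 h3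
  intro a ha
  exact congrFun h5 ⟨a, ha⟩

/-- a map which is injective on a small set extends to a permutation of given sign -/
theorem perm_extend {α : Type} [Fintype α] [DecidableEq α] (h : Perm α) (S : Finset α)
    (e : α → α) (he : Set.InjOn e ↑S) (hc : S.card + 2 ≤ Fintype.card α) :
    ∃ g : Perm α, Perm.sign g = Perm.sign h ∧ ∀ a ∈ S, g a = e a := by
  obtain ⟨g, hg⟩ := Finset.exists_equiv_extend_of_card_eq (t := (univ : Finset α)) (s := S)
    (f := e) (by simp) (subset_univ _) he
  set g0 : Perm α := g.trans (Equiv.subtypeUnivEquiv (fun x => mem_univ x)) with hg0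
  have hg0' : ∀ a ∈ S, g0 a = e a := fun a ha => hg a ha
  by_cases hs : Perm.sign g0 = Perm.sign h
  · exact ⟨g0, hs, hg0'⟩
  · have h1 : 1 < ((S.image g0)ᶜ).card := by
      rw [Finset.card_compl]
      have := Finset.card_image_le (s := S) (f := g0)
      omega
    obtain ⟨u, hu, v, hv, huv⟩ := Finset.one_lt_card.1 h1
    refine ⟨swap u v * g0, ?_, fun a ha => ?_⟩
    · rw [map_mul, Perm.sign_swap huv]
      rcases Int.units_eq_one_or (Perm.sign g0) with h2 | h2 <;>
        rcases Int.units_eq_one_or (Perm.sign h) with h3 | h3 <;>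
        rw [h2, h3] at hs ⊢ <;> first | exact absurd rfl hs | rfl
    · rw [Perm.mul_apply, hg0' a ha]
      have h2 : e a ∈ S.image g0 := by
        rw [← hg0' a ha]
        exact Finset.mem_image_of_mem _ ha
      refine Equiv.swap_apply_of_ne_of_ne ?_ ?_
      · rintro h3
        rw [h3] at h2
        exact (Finset.mem_compl.1 hu) h2
      · rintro h3
        rw [h3] at h2
        exact (Finset.mem_compl.1 hv) h2

theorem t_PERM (hM : S_MATCH) : S_PERM := by
  intro α _ _ h Y J J' hd hd' hh ht hc
  have : Nonempty α := Fintype.card_pos_iff.1 (by omega)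
  obtain ⟨e, he, heY, heJ⟩ := hM α α Y J (Y.map h.toEmbedding) J' hd hd' (Finset.card_map _).symm ht
  have hY : ∀ a ∈ Y, e a = h a := by
    refine perm_eq_of_image Y e h (he.mono ?_) hh ?_
    · rw [Finset.coe_union]
      exact Set.subset_union_left
    · rw [heY, Finset.map_eq_image]
      rfl
  obtain ⟨g, hg1, hg2⟩ := perm_extend h (Y ∪ J) e he.injOn
    (by have := Finset.card_union_le Y J; omega)
  refine ⟨g, hg1, fun a ha => ?_, ?_, ?_⟩
  · rw [hg2 a (Finset.mem_union_left _ ha), hY a ha]
  · rw [← heJ, Finset.map_eq_image]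
    exact Finset.image_congr fun a ha => hg2 a (Finset.mem_union_right _ ha)
  · intro a ha b hb hab
    rw [hg2 a ha, hg2 b hb]
    exact he ha hb hab

end H688R2.Ord
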