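import Pool.Agent.H688R2.Ord.Inv2

/-!
# Sums over pairs of formulas
-/

namespace H688R2.Ord

open Equiv Finset H688R2.Sym H688R2.Gap H688R2.Cnt H534R2.SymSw

section sets

variable {α : Type} [LinearOrder α] [Fintype α]

theorem mem_Reg {P : ℕ} {a : α} : a ∈ Reg α P ↔ P ∣ pos a := by
  unfold Reg
  simp

/-- two pairs of sets of the same type over `Z` -/
theorem exists_pair_perm (lib : Lib) {Z A U A' U' : Finset α} (h1 : Disjoint Z A)
    (h2 : Disjoint (Z ∪ A) U) (h1' : Disjoint Z A') (h2' : Disjoint (Z ∪ A') U')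
    (t1 : tau Z A = tau Z A') (t2 : tau (Z ∪ A) U = tau (Z ∪ A') U')
    (hc : Z.card + A.card + U.card + 2 ≤ Fintype.card α) :
    ∃ g : Perm α, Perm.sign g = 1 ∧ (∀ a ∈ Z, g a = a) ∧ A.map g.toEmbedding = A' ∧
      U.map g.toEmbedding = U' ∧ StrictMonoOn g ((Z ∪ A ∪ U : Finset α) : Set α) := by
  have hone : ∀ s : Finset α, s.map (1 : Perm α).toEmbedding = s := fun s => Finset.map_refl
  obtain ⟨g, g1, g2, g3, g4⟩ := lib.perm α 1 Z A A' h1 (by rw [hone]; exact h1')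
    (fun a _ b _ h => h) (fun i => by rw [hone, t1]) (by omega)
  have hZA : (Z ∪ A).map g.toEmbedding = Z ∪ A' := by
    rw [map_union, g3]
    congr 1
    ext x
    rw [mem_map]
    constructor
    · rintro ⟨a, ha, rfl⟩
      change g a ∈ Z
      rw [g2 a ha]
      exact ha
    · intro hx
      exact ⟨x, hx, g2 x hx⟩
  obtain ⟨h, e1, e2, e3, e4⟩ := lib.perm α g (Z ∪ A) U U' h2 (by rw [hZA]; exact h2') g4
    (fun i => by rw [hZA, t2]) (by
      have := card_union_le Z A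
      omega)
  refine ⟨h, by rw [e1, g1, map_one], ?_, ?_, e3, e4⟩
  · intro a ha
    rw [e2 a (mem_union_left _ ha), g2 a ha]
    rfl
  · rw [← g3]
    ext x
    simp only [mem_map, Equiv.coe_toEmbedding]
    constructor
    · rintro ⟨a, ha, rfl⟩
      exact ⟨a, ha, (e2 a (mem_union_right _ ha)).symm⟩
    · rintro ⟨a, ha, rfl⟩
      exact ⟨a, ha, e2 a (mem_union_right _ ha)⟩

theorem disj_iff (Z J : Finset α) : Disjoint Z J ↔ J ⊆ univ \ Z := by
  constructor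
  · intro h x hx
    rw [mem_sdiff]
    exact ⟨mem_univ _, fun hz => disjoint_left.1 h hz hx⟩
  · intro h
    exact disjoint_left.2 fun a ha hb => (mem_sdiff.1 (h hb)).2 ha

/-- the index set of the pairs -/
def PS (Z : Finset α) (k : ℕ) (R : Finset α) (p : Finset α × Finset α) : Prop :=
  (p.1 ⊆ R \ Z ∧ p.1.card ≤ k) ∧ (p.2 ⊆ univ \ (Z ∪ p.1) ∧ p.2.card ≤ k)

/-- the type of a pair -/
def ptau (Z : Finset α) (p : Finset α × Finset α) : (ℕ → ℕ) × (ℕ → ℕ) :=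
  (tau Z p.1, tau (Z ∪ p.1) p.2)

theorem card_of_tau {Z A A₀ : Finset α} (h : tau Z A = tau Z A₀) : A.card = A₀.card := by
  rw [card_eq_sum_tau Z A, card_eq_sum_tau Z A₀, h]

theorem card_of_tau' {Z A A₀ U U₀ : Finset α} (h1 : Disjoint Z A) (h2 : Disjoint Z A₀)
    (h : tau Z A = tau Z A₀) (h' : tau (Z ∪ A) U = tau (Z ∪ A₀) U₀) : U.card = U₀.card := by
  rw [card_eq_sum_tau (Z ∪ A) U, card_eq_sum_tau (Z ∪ A₀) U₀, h', card_union_of_disjoint h1,
    card_union_of_disjoint h2, card_of_tau h]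

theorem card_pairs_all (lib : Lib) {m P k : ℕ}
    (hP : ∀ t j, 1 ≤ j → j ≤ 2 * k → m ∣ (t * P).choose j) (hN : P ∣ Fintype.card α + 1)
    (Z : Finset α) (hZ : ∀ z ∈ Z, P ∣ pos z) (hc : Z.card + 2 * k + 2 ≤ Fintype.card α)
    {A₀ U₀ : Finset α} (h : PS Z k univ (A₀, U₀)) :
    (Nat.card {p : Finset α × Finset α // PS Z k univ p ∧ ptau Z p = ptau Z (A₀, U₀)} : ZMod m) =
      (-1) ^ (A₀.card + U₀.card) := by
  obtain ⟨⟨h1, h2⟩, h3, h4⟩ := h
  simp only at h1 h2 h3 h4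
  have d1 := (disj_iff Z A₀).2 h1
  have d2 := (disj_iff (Z ∪ A₀) U₀).2 h3
  have e1 : Nat.card {p : Finset α × Finset α // PS Z k univ p ∧ ptau Z p = ptau Z (A₀, U₀)} =
      Nat.card {p : Finset α × Finset α // Disjoint Z p.1 ∧ Disjoint (Z ∪ p.1) p.2 ∧
        tau Z p.1 = tau Z A₀ ∧ tau (Z ∪ p.1) p.2 = tau (Z ∪ A₀) U₀} := by
    apply Nat.card_congr
    apply Equiv.subtypeEquivRight
    rintro ⟨A, U⟩
    unfold PS ptau
    simp only [Prod.mk.injEq, disj_iff]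
    constructor
    · rintro ⟨⟨⟨a1, a2⟩, a3, a4⟩, a5, a6⟩
      exact ⟨a1, a3, a5, a6⟩
    · rintro ⟨a1, a3, a5, a6⟩
      have c1 := card_of_tau a5
      have c2 := card_of_tau' ((disj_iff Z A).2 a1) d1 a5 a6
      exact ⟨⟨⟨a1, by omega⟩, a3, by omega⟩, a5, a6⟩
  have e2 : Nat.card {J : Finset α // Disjoint Z J ∧ tau Z J = tau Z (A₀ ∪ U₀)} =
      Nat.card {J : Finset α // J ⊆ univ \ Z ∧ tau Z J = tau Z (A₀ ∪ U₀)} := by
    apply Nat.card_congr
    apply Equiv.subtypeEquivRight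
    intro J
    rw [disj_iff]
  have d3 : Disjoint A₀ U₀ := disjoint_left.2 fun a ha hb =>
    disjoint_left.1 d2 (mem_union_right _ ha) hb
  have e3 : ∑ i ∈ range (Z.card + 1), tau Z (A₀ ∪ U₀) i = A₀.card + U₀.card := by
    rw [← card_eq_sum_tau, card_union_of_disjoint d3]
  rw [e1, lib.pair α Z A₀ U₀ d1 d2 (by omega), e2, lib.cnt α m P (2 * k) hP univ Z (subset_univ _)
    (fun y hy => hZ y hy) (by rwa [card_univ]) _ (fun i hi => tau_eq_zero _ _ hi)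
    (by rw [e3]; omega), e3]

theorem card_pairs_reg (lib : Lib) {m P k : ℕ} (hP0 : 0 < P)
    (hP : ∀ t j, 1 ≤ j → j ≤ 2 * k → m ∣ (t * P).choose j) (hN : P ^ 2 ∣ Fintype.card α + 1)
    (Z : Finset α) (hZ : ∀ z ∈ Z, P ^ 2 ∣ pos z) {A₀ U₀ : Finset α}
    (h : PS Z k univ (A₀, U₀)) :
    (Nat.card {p : Finset α × Finset α // PS Z k (Reg α P) p ∧
      ptau Z p = ptau Z (A₀, U₀)} : ZMod m) = (-1) ^ (A₀.card + U₀.card) := by
  classical
  obtain ⟨⟨h1, h2⟩, h3, h4⟩ := h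
  simp only at h1 h2 h3 h4
  have d1 := (disj_iff Z A₀).2 h1
  have d2 := (disj_iff (Z ∪ A₀) U₀).2 h3
  obtain ⟨r1, r2, r3⟩ := lib.regf α P hP0 hN
  have hPN : P ∣ Fintype.card α + 1 := (Dvd.intro_left _ (by rw [← pow_succ])).trans hN
  have hZP : ∀ z ∈ Z, P ∣ pos z := fun z hz => (Dvd.intro_left _ (by rw [← pow_succ])).trans (hZ z hz)
  have hZR : Z ⊆ Reg α P := fun z hz => mem_Reg.2 (hZP z hz)
  let T1 := {A : Finset α // (A ⊆ Reg α P \ Z ∧ A.card ≤ k) ∧ tau Z A = tau Z A₀}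
  let T2 : T1 → Type := fun A =>
    {U : Finset α // (U ⊆ univ \ (Z ∪ A.1) ∧ U.card ≤ k) ∧ tau (Z ∪ A.1) U = tau (Z ∪ A₀) U₀}
  have e1 : Nat.card {p : Finset α × Finset α // PS Z k (Reg α P) p ∧
      ptau Z p = ptau Z (A₀, U₀)} = Nat.card (Σ A : T1, T2 A) := by
    apply Nat.card_congr
    refine ⟨fun p => ⟨⟨p.1.1, p.2.1.1, (Prod.mk.inj p.2.2).1⟩, ⟨p.1.2, p.2.1.2,
      (Prod.mk.inj p.2.2).2⟩⟩, fun x => ⟨(x.1.1, x.2.1), ⟨x.1.2.1, x.2.2.1⟩,
      Prod.ext x.1.2.2 x.2.2.2⟩, fun p => rfl, fun x => rfl⟩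
  have e2 : ∀ A : T1, (Nat.card (T2 A) : ZMod m) = (-1) ^ U₀.card := by
    rintro ⟨A, ⟨a1, a2⟩, a3⟩
    have dA : Disjoint Z A := disjoint_left.2 fun x hx hx' => (mem_sdiff.1 (a1 hx')).2 hx
    have c1 := card_of_tau a3
    have c2 : (Z ∪ A).card = (Z ∪ A₀).card := by
      rw [card_union_of_disjoint dA, card_union_of_disjoint d1, c1]
    have := count_types lib hP univ (Z ∪ A) (subset_univ _) (by
      intro y hy
      rcases mem_union.1 hy with hy | hy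
      · exact hZP y hy
      · exact mem_Reg.1 (mem_sdiff.1 (a1 hy)).1) (by rwa [card_univ]) (k := k) (by omega)
      (tau (Z ∪ A₀) U₀)
    rw [show (Nat.card (T2 ⟨A, ⟨a1, a2⟩, a3⟩) : ZMod m) = _ from this, c2, if_pos, ← card_eq_sum_tau]
    exact ⟨fun i hi => tau_eq_zero _ _ hi, by rw [← card_eq_sum_tau]; exact h4⟩
  have e3 : (Nat.card T1 : ZMod m) = (-1) ^ A₀.card := by
    have := count_types lib hP (Reg α P) Z hZR (fun y hy => r1 y (hZ y hy)) r2 (k := k) (by omega)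
      (tau Z A₀)
    rw [show (Nat.card T1 : ZMod m) = _ from this, if_pos, ← card_eq_sum_tau]
    exact ⟨fun i hi => tau_eq_zero _ _ hi, by rw [← card_eq_sum_tau]; exact h2⟩
  have : Fintype T1 := Fintype.ofFinite _
  have : ∀ A : T1, Finite (T2 A) := fun A => Subtype.finite
  rw [e1, Nat.card_sigma, Nat.cast_sum, Finset.sum_congr rfl fun A _ => e2 A, sum_const, card_univ,
    nsmul_eq_mul, ← Nat.card_eq_fintype_card, e3, pow_add]

end sets

end H688R2.Ord
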