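import Pool.Agent.H688R2.Ord.Spec

namespace H688R2.Ord

open Equiv Finset H688R2.Sym H688R2.Gap H688R2.Cnt

section

variable {α : Type} [Fintype α] [LinearOrder α]

theorem regf_strictMono : StrictMono (pos : α → ℕ) := by
  intro a b hab
  unfold pos
  apply card_lt_card
  rw [ssubset_iff_of_subset]
  · exact ⟨b, by simp, by simp [hab]⟩
  · intro x hx
    simp only [mem_filter, mem_univ, true_and] at hx ⊢
    exact hx.trans hab.le

theorem regf_pos (a : α) : 0 < pos a := by
  unfold pos
  rw [card_pos]
  exact ⟨a, by simp⟩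

theorem regf_le_card (a : α) : pos a ≤ Fintype.card α := card_le_univ _

theorem regf_image (y : α) : (univ.filter fun x : α => x ≤ y).image pos = Ioc 0 (pos y) := by
  apply eq_of_subset_of_card_le
  · intro n hn
    obtain ⟨x, hx, rfl⟩ := mem_image.1 hn
    simp only [mem_filter, mem_univ, true_and] at hx
    rw [mem_Ioc]
    exact ⟨regf_pos x, regf_strictMono.monotone hx⟩
  · rw [card_image_of_injective _ regf_strictMono.injective, Nat.card_Ioc, Nat.sub_zero]
    rfl

theorem regf_image_univ : (univ : Finset α).image pos = Ioc 0 (Fintype.card α) := by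
  apply eq_of_subset_of_card_le
  · intro n hn
    obtain ⟨x, _, rfl⟩ := mem_image.1 hn
    rw [mem_Ioc]
    exact ⟨regf_pos x, regf_le_card x⟩
  · rw [card_image_of_injective _ regf_strictMono.injective, Nat.card_Ioc, Nat.sub_zero]
    rfl

theorem regf_card_le (P : ℕ) (y : α) : ((Reg α P).filter fun x => x ≤ y).card = pos y / P := by
  rw [← Nat.Ioc_filter_dvd_card_eq_div, ← regf_image y, filter_image,
    card_image_of_injective _ regf_strictMono.injective]
  congr 1
  ext x
  simp only [Reg, mem_filter, mem_univ, true_and]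
  exact and_comm

theorem regf_card (P : ℕ) : (Reg α P).card = Fintype.card α / P := by
  rw [← Nat.Ioc_filter_dvd_card_eq_div, ← regf_image_univ, filter_image,
    card_image_of_injective _ regf_strictMono.injective]
  rfl

end

theorem t_REGF : S_REGF := by
  intro α _ _ P hP hd
  obtain ⟨c, hc⟩ := hd
  have hc1 : 1 ≤ c := by
    rcases Nat.eq_zero_or_pos c with h | h
    · rw [h, Nat.mul_zero] at hc
      omega
    · exact h
  have h1 : 1 ≤ P * c := Nat.mul_pos hP hc1
  have hN : Fintype.card α = P * (P * c - 1) + (P - 1) := by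
    have h2 : P * (P * c - 1) + P = P ^ 2 * c := by
      obtain ⟨e, he⟩ := Nat.exists_eq_add_of_le h1
      rw [he, Nat.add_sub_cancel_left]
      calc P * e + P = P * (1 + e) := by ring
        _ = P ^ 2 * c := by rw [← he]; ring
    omega
  have hdiv : Fintype.card α / P = P * c - 1 := by
    rw [hN, Nat.mul_add_div hP, Nat.div_eq_of_lt (by omega), Nat.add_zero]
  refine ⟨?_, ?_, ?_⟩
  · rintro y ⟨d, hd⟩
    rw [regf_card_le, hd]
    refine ⟨d, ?_⟩
    rw [pow_two, Nat.mul_assoc, Nat.mul_div_cancel_left _ hP]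
  · rw [regf_card, hdiv]
    exact ⟨c, by omega⟩
  · rw [card_compl, regf_card, hdiv, hN]
    have h3 : P * (P * c - 1) + (P - 1) - (P * c - 1) = P * (P * c - c) := by
      have h4 : c ≤ P * c := Nat.le_mul_of_pos_left _ hP
      have h5 : P * c ≤ P * (P * c) := Nat.le_mul_of_pos_left _ hP
      have h6 : P ≤ P * c := Nat.le_mul_of_pos_right _ hc1
      have h7 : P ≤ P * (P * c) := h6.trans h5
      rw [Nat.mul_sub, Nat.mul_sub, Nat.mul_one]
      omega
    rw [h3]
    exact ⟨_, rfl⟩

end H688R2.Ord
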