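import Pool.Agent.H688R2.Ord.Spec

/-!
# Moving a set to regular positions
-/

namespace H688R2.Ord

open Equiv Finset H688R2.Sym H688R2.Gap H688R2.Cnt

theorem regu_pos {α : Type} [Fintype α] [LinearOrder α] {N : ℕ} (e : Fin N ≃o α) (j : Fin N) :
    pos (e j) = j + 1 := by
  unfold pos
  have h1 : (univ.filter fun x : α => x ≤ e j) = (univ.filter fun i : Fin N => i ≤ j).map
      e.toEquiv.toEmbedding := by
    ext x
    simp only [mem_filter, mem_univ, true_and, mem_map]
    constructor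
    · intro hx
      refine ⟨e.symm x, ?_, by simp⟩
      exact (e.symm_apply_le).2 hx
    · rintro ⟨i, hi, rfl⟩
      exact e.monotone hi
  rw [h1, card_map]
  have h2 : (univ.filter fun i : Fin N => i ≤ j) = Finset.Iic j := by
    ext i
    simp
  rw [h2, Fin.card_Iic]

theorem regu_rk_lt {α : Type} [LinearOrder α] (t : Finset α) (x : α) (hx : x ∈ t) :
    rk t x < t.card := by
  unfold rk
  refine Finset.card_lt_card ?_
  rw [Finset.filter_ssubset]
  exact ⟨x, hx, lt_irrefl x⟩

theorem regu_rk_mono {α : Type} [LinearOrder α] (t : Finset α) (x y : α) (hx : x ∈ t)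
    (hxy : x < y) : rk t x < rk t y := by
  unfold rk
  refine Finset.card_lt_card ?_
  rw [Finset.ssubset_iff_of_subset]
  · exact ⟨x, by simp [hx, hxy], by simp⟩
  · intro z hz
    rw [mem_filter] at hz ⊢
    exact ⟨hz.1, hz.2.trans hxy⟩

theorem t_REGU : S_REGU := by
  intro α _ _ t D hD hcard
  classical
  set e := monoEquivOfFin α (rfl : Fintype.card α = Fintype.card α) with he
  have hlt : ∀ x ∈ t, D * (rk t x + 1) - 1 < Fintype.card α := by
    intro x hx
    have h1 := regu_rk_lt t x hx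
    have h2 : D * (rk t x + 1) ≤ D * t.card := Nat.mul_le_mul_left _ h1
    have h3 : D * 1 ≤ D * (rk t x + 1) := Nat.mul_le_mul_left _ (by omega)
    rw [mul_comm] at hcard
    omega
  have hmono : ∀ (x y : {x // x ∈ t}), x < y →
      e ⟨_, hlt x.1 x.2⟩ < e ⟨_, hlt y.1 y.2⟩ := by
    intro x y hxy
    apply e.strictMono
    rw [Fin.mk_lt_mk]
    have h1 := regu_rk_mono t x.1 y.1 x.2 hxy
    have h2 : D * (rk t x.1 + 1) < D * (rk t y.1 + 1) := by
      apply Nat.mul_lt_mul_of_pos_left _ hD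
      omega
    have h3 : D * 1 ≤ D * (rk t x.1 + 1) := Nat.mul_le_mul_left _ (by omega)
    omega
  have hinj : Function.Injective (fun x : {x // x ∈ t} => e ⟨_, hlt x.1 x.2⟩) := by
    intro x y hxy
    rcases lt_trichotomy x y with h | h | h
    · exact absurd hxy (ne_of_lt (hmono x y h))
    · exact h
    · exact absurd hxy (ne_of_gt (hmono y x h))
  obtain ⟨g, hg⟩ := Equiv.Perm.exists_extending_pair (fun x : {x // x ∈ t} => (x : α))
    (fun x : {x // x ∈ t} => e ⟨_, hlt x.1 x.2⟩) Subtype.val_injective hinj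
  have hg' : ∀ (a : α) (ha : a ∈ t), g a = e ⟨_, hlt a ha⟩ := fun a ha => hg ⟨a, ha⟩
  refine ⟨g, ?_, ?_⟩
  · intro a ha b hb hab
    rw [Finset.mem_coe] at ha hb
    rw [hg' a ha, hg' b hb]
    exact hmono ⟨a, ha⟩ ⟨b, hb⟩ hab
  · intro a ha
    rw [hg' a ha, regu_pos]
    have h3 : D * 1 ≤ D * (rk t a + 1) := Nat.mul_le_mul_left _ (by omega)
    have h4 : D * (rk t a + 1) - 1 + 1 = D * (rk t a + 1) := by omega
    change D ∣ D * (rk t a + 1) - 1 + 1
    rw [h4]
    exact Dvd.intro _ rfl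

end H688R2.Ord
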