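import Pool.Agent.H688R2.Cnt.World

/-!
# The permutation rule
-/

namespace H688R2.Ord

open Equiv Finset H688R2.Gap H688R2.Cnt

variable {σ : Sig} {α B Q : Type} {m : ℕ} [MulAction (Perm α) Q]

/-- Renaming the elements of the domain in a line. -/
def ren (g : Perm α) : (Q × Bool) ↪ (Q × Bool) :=
  (MulAction.toPerm g).toEmbedding.prodMap (Function.Embedding.refl Bool)

theorem ren_apply (g : Perm α) (l : Q × Bool) : ren g l = (g • l.1, l.2) := rfl

open Classical in
/-- The lines that can be derived by the rules of `MDag.Derives` and the permutation rule: a derived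
line may be renamed by any permutation of the elements of `α`. -/
inductive DerivesP {σ : Sig} {α B : Type} [Fintype Q] [MulAction (Perm α) Q]
    (F : MDag m (Atom σ (α ⊕ B)) Q) (Φ : Sentence σ) (w c n : ℕ) : Finset (Q × Bool) → Prop
  | infer (L : Finset (Q × Bool)) (D : Finset Q) (X : Finset (Fin Φ.p → α ⊕ B))
      (P : Finset (Finset (Q × Bool))) (hw : L.card ≤ w) (hc : D.card + X.card + P.card ≤ c)
      (hP : ∀ L' ∈ P, DerivesP F Φ w c n L') (h : F.Entails Φ D X P L) : DerivesP F Φ w c n L
  | wide (Γ : Finset (Q × Bool)) (q : Q) (b b' : Bool) (hw : (insert (q, b) Γ).card ≤ w)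
      (hq : F.var q = none)
      (hP : ∀ q', F.child q q' → DerivesP F Φ w c n (insert (q', b') Γ))
      (h : F.conn q (b' = true ∧ ∃ q', F.child q q') (b' = false ∧ ∃ q', F.child q q')
        (if b' = true then (Nat.card {q' // F.child q q'} : ZMod m) else 0) ↔ b = true) :
      DerivesP F Φ w c n (insert (q, b) Γ)
  | linear (Γ : Finset (Q × Bool)) (q : Q) (r : ZMod m) (a ρ : Q → ZMod m)
      (hw : (insert (q, true) Γ).card ≤ w) (ha : FewImages α n a) (hq : F.IsMod q r)
      (hmod : ∀ q', a q' ≠ 0 → F.IsMod q' (ρ q'))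
      (hP : ∀ q', a q' ≠ 0 → DerivesP F Φ w c n (insert (q', true) Γ))
      (hchild : ∀ q'', (if F.child q q'' then (1 : ZMod m) else 0)
        = ∑ q', a q' * (if F.child q' q'' then (1 : ZMod m) else 0))
      (hr : r = ∑ q', a q' * ρ q') : DerivesP F Φ w c n (insert (q, true) Γ)
  | replace (Γ : Finset (Q × Bool)) (q₁ q₂ : Q) (ρ : Q × Q → Prop)
      (hw : (insert (q₁, false) (insert (q₂, true) Γ)).card ≤ w) (hρ : FewImages α n ρ)
      (h₁ : F.var q₁ = none) (h₂ : F.var q₂ = none) (hconn : F.conn q₁ = F.conn q₂)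
      (hρc : ∀ a b, ρ (a, b) → F.child q₁ a ∧ F.child q₂ b)
      (hρ₁ : ∀ a, F.child q₁ a → ∃! b, ρ (a, b)) (hρ₂ : ∀ b, F.child q₂ b → ∃! a, ρ (a, b))
      (hP₁ : ∀ a b, ρ (a, b) → DerivesP F Φ w c n (insert (a, false) (insert (b, true) Γ)))
      (hP₂ : ∀ a b, ρ (a, b) → DerivesP F Φ w c n (insert (a, true) (insert (b, false) Γ))) :
      DerivesP F Φ w c n (insert (q₁, false) (insert (q₂, true) Γ))
  | rename (g : Perm α) (L : Finset (Q × Bool)) (hL : DerivesP F Φ w c n L) :
      DerivesP F Φ w c n (L.map (ren g))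

theorem satLine_map (g : Perm α) (v : Q → Prop) (L : Finset (Q × Bool)) :
    SatLine v (L.map (ren g)) ↔ SatLine (fun q => v (g • q)) L := by
  unfold SatLine
  simp only [mem_map]
  constructor
  · rintro ⟨_, ⟨l, hl, rfl⟩, h⟩
    exact ⟨l, hl, h⟩
  · rintro ⟨l, hl, h⟩
    exact ⟨_, ⟨l, hl, rfl⟩, h⟩

theorem respects_ren {F : MDag m (Atom σ (α ⊕ B)) Q} (hF : F.Invariant) {v : Q → Prop}
    (h : Perm α) (q : Q) (hr : F.Respects v (h • q)) : F.Respects (fun q => v (h • q)) q := by
  intro hq
  have h0 : F.var (h • q) = none := by rw [hF.var, hq]; rfl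
  have h1 := hr h0
  have key : ∀ (ε : Prop → Prop) (q' : Q), (F.child (h • q) (h • q') ∧ ε (v (h • q'))) ↔
      (F.child q q' ∧ ε (v (h • q'))) := by
    intro ε q'
    rw [hF.child]
  have k1 := ex_smul h (p := fun q' => F.child q q' ∧ v (h • q'))
    (p' := fun q' => F.child (h • q) q' ∧ v q') (key id)
  have k2 := ex_smul h (p := fun q' => F.child q q' ∧ ¬ v (h • q'))
    (p' := fun q' => F.child (h • q) q' ∧ ¬ v q') (key Not)
  have k3 := card_smul h (p := fun q' => F.child q q' ∧ v (h • q'))
    (p' := fun q' => F.child (h • q) q' ∧ v q') (key id)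
  rw [k1, k2, k3, hF.conn] at h1
  exact h1

theorem inst_ren {Φ : Sentence σ} {S : Atom σ (α ⊕ B) → Prop} (g : Perm α)
    {x : Fin Φ.p → α ⊕ B} (h : Φ.Inst S (fun i => Sum.map g id (x i))) :
    Φ.Inst (fun a => S (a.map (Sum.map g id))) x := by
  obtain ⟨y, hy⟩ := h
  have hinj : Function.Injective (Sum.map g id : α ⊕ B → α ⊕ B) :=
    Sum.map_injective.2 ⟨g.injective, Function.injective_id⟩
  have hgg : ∀ z : α ⊕ B, Sum.map g id (Sum.map (g⁻¹ : Perm α) id z) = z := by
    rintro (z | z) <;> simp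
  refine ⟨fun j => Sum.map (g⁻¹ : Perm α) id (y j), ?_⟩
  have hel : ∀ i, Sum.map g id (Sum.elim x (fun j => Sum.map (g⁻¹ : Perm α) id (y j)) i) =
      Sum.elim (fun i => Sum.map g id (x i)) y i := by
    rintro (i | j)
    · rfl
    · exact hgg _
  have e1 : (fun i j => Sum.elim x (fun j => Sum.map (g⁻¹ : Perm α) id (y j)) i =
      Sum.elim x (fun j => Sum.map (g⁻¹ : Perm α) id (y j)) j) =
      (fun i j => Sum.elim (fun i => Sum.map g id (x i)) y i =
        Sum.elim (fun i => Sum.map g id (x i)) y j) := by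
    funext i j
    rw [← hel i, ← hel j]
    exact propext hinj.eq_iff.symm
  have e2 : (fun a : Atom σ (Fin Φ.p ⊕ Fin Φ.q) =>
      S ((a.map (Sum.elim x (fun j => Sum.map (g⁻¹ : Perm α) id (y j)))).map (Sum.map g id))) =
      (fun a => S (a.map (Sum.elim (fun i => Sum.map g id (x i)) y))) := by
    funext a
    congr 1
    unfold Atom.map
    simp only
    congr 1
    funext i
    exact hel _
  rw [e1, e2]
  exact hy

theorem fewImages_ren {T Z : Type} [MulAction (Perm α) T] {n : ℕ} {f : T → Z} (g : Perm α)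
    (h : FewImages α n f) : FewImages α n (fun x => f (g⁻¹ • x)) := by
  unfold FewImages at *
  refine le_trans (le_of_eq ?_) h
  apply Nat.card_congr
  apply Equiv.subtypeEquivRight
  intro f'
  constructor
  · rintro ⟨u, hu⟩
    refine ⟨u * g, fun x => ?_⟩
    rw [mul_smul, hu]
    show f (g⁻¹ • g • x) = f x
    rw [inv_smul_smul]
  · rintro ⟨u, hu⟩
    refine ⟨u * g⁻¹, fun x => ?_⟩
    rw [mul_smul, hu]

theorem derives_ren [Fintype Q] {F : MDag m (Atom σ (α ⊕ B)) Q} (hF : F.Invariant)
    {Φ : Sentence σ} {w c n : ℕ} {L : Finset (Q × Bool)} (hL : F.Derives Φ w c n L)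
    (g : Perm α) : F.Derives Φ w c n (L.map (ren g)) := by
  classical
  have hch : ∀ q x, F.child (g • q) x ↔ F.child q (g⁻¹ • x) := by
    intro q x
    have := hF.child g q (g⁻¹ • x)
    rwa [smul_inv_smul] at this
  have hins : ∀ (q : Q) (b : Bool) (Γ : Finset (Q × Bool)),
      (insert (q, b) Γ).map (ren g) = insert (g • q, b) (Γ.map (ren g)) := by
    intro q b Γ
    rw [map_insert, ren_apply]
  have hvar : ∀ q, F.var q = none → F.var (g • q) = none := by
    intro q hq
    rw [hF.var, hq]
    rfl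
  have hmod : ∀ q r, F.IsMod q r → F.IsMod (g • q) r := by
    rintro q r ⟨h1, h2⟩
    exact ⟨hvar q h1, by rw [hF.conn]; exact h2⟩
  induction hL with
  | infer L D X P hw hc hP h ih =>
    refine MDag.Derives.infer (L.map (ren g)) (D.image (g • ·))
      (X.image fun x i => Sum.map g id (x i)) (P.image fun L' => L'.map (ren g)) (by rwa [card_map])
      ?_ ?_ ?_
    · have h1 := card_image_le (s := D) (f := (g • ·))
      have h2 := card_image_le (s := X) (f := fun x i => Sum.map g id (x i))
      have h3 := card_image_le (s := P) (f := fun L' => L'.map (ren g))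
      omega
    · intro L' hL'
      rw [mem_image] at hL'
      obtain ⟨L'', hL'', rfl⟩ := hL'
      exact ih L'' hL''
    · intro S v h1 h2 h3 h4
      rw [satLine_map]
      apply h (fun a => S (a.map (Sum.map g id))) (fun q => v (g • q))
      · intro q a hq
        apply h1
        rw [hF.var, hq]
        rfl
      · intro q hq
        exact respects_ren hF g q (h2 _ (mem_image_of_mem _ hq))
      · intro x hx
        exact inst_ren g (h3 _ (mem_image_of_mem (fun x i => Sum.map g id (x i)) hx))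
      · intro L' hL'
        rw [← satLine_map]
        exact h4 _ (mem_image_of_mem (fun L' => L'.map (ren g)) hL')
  | wide Γ q b b' hw hq hP h ih =>
    rw [hins] at *
    refine MDag.Derives.wide (Γ.map (ren g)) (g • q) b b' (by
      rw [← hins, card_map]; exact hw) (hvar q hq) ?_ ?_
    · intro q' hq'
      have := ih (g⁻¹ • q') ((hch q q').1 hq')
      rwa [hins, smul_inv_smul] at this
    · rw [hF.conn, ← h]
      have k1 : (∃ q', F.child (g • q) q') ↔ ∃ q', F.child q q' :=
        ex_smul g (p := fun q' => F.child q q') (p' := fun q' => F.child (g • q) q')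
          (fun q' => hF.child g q q')
      have k2 : Nat.card {q' // F.child (g • q) q'} = Nat.card {q' // F.child q q'} :=
        card_smul g (p := fun q' => F.child q q') (p' := fun q' => F.child (g • q) q')
          (fun q' => hF.child g q q')
      rw [k1, k2]
  | linear Γ q r a ρ hw ha hq hm hP hchild hr ih =>
    rw [hins]
    refine MDag.Derives.linear (Γ.map (ren g)) (g • q) r (fun x => a (g⁻¹ • x))
      (fun x => ρ (g⁻¹ • x)) (by rw [← hins, card_map]; exact hw) (fewImages_ren g ha)
      (hmod q r hq) ?_ ?_ ?_ ?_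
    · intro x hx
      have := hmod _ _ (hm _ hx)
      rwa [smul_inv_smul] at this
    · intro x hx
      have := ih _ hx
      rwa [hins, smul_inv_smul] at this
    · intro x
      simp only [hch q x, hchild]
      apply Finset.sum_equiv (MulAction.toPerm g)
      · intro y
        simp
      · intro y _
        rw [MulAction.toPerm_apply, inv_smul_smul]
        simp only [hch]
    · rw [hr]
      apply Finset.sum_equiv (MulAction.toPerm g)
      · intro y
        simp
      · intro y _
        rw [MulAction.toPerm_apply, inv_smul_smul]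
  | replace Γ q₁ q₂ ρ hw hρ h₁ h₂ hconn hρc hρ₁ hρ₂ hP₁ hP₂ ih₁ ih₂ =>
    rw [hins, hins]
    refine MDag.Derives.replace (Γ.map (ren g)) (g • q₁) (g • q₂) (fun x => ρ (g⁻¹ • x))
      (by rw [← hins, ← hins, card_map]; exact hw) (fewImages_ren g hρ) (hvar _ h₁) (hvar _ h₂)
      (by rw [hF.conn, hF.conn, hconn]) ?_ ?_ ?_ ?_ ?_
    · intro a b hab
      rw [hch, hch]
      exact hρc _ _ hab
    · intro a ha
      obtain ⟨b, hb, hu⟩ := hρ₁ _ ((hch _ _).1 ha)
      refine ⟨g • b, ?_, ?_⟩
      · show ρ (g⁻¹ • (a, g • b))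
        rw [Prod.smul_mk, inv_smul_smul]
        exact hb
      · intro b' hb'
        have := hu (g⁻¹ • b') hb'
        rw [← this, smul_inv_smul]
    · intro b hb
      obtain ⟨a, ha, hu⟩ := hρ₂ _ ((hch _ _).1 hb)
      refine ⟨g • a, ?_, ?_⟩
      · show ρ (g⁻¹ • (g • a, b))
        rw [Prod.smul_mk, inv_smul_smul]
        exact ha
      · intro a' ha'
        have := hu (g⁻¹ • a') ha'
        rw [← this, smul_inv_smul]
    · intro a b hab
      have := ih₁ _ _ hab
      rwa [hins, hins, smul_inv_smul, smul_inv_smul] at this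
    · intro a b hab
      have := ih₂ _ _ hab
      rwa [hins, hins, smul_inv_smul, smul_inv_smul] at this

/-- the permutation rule is not needed -/
theorem derives_of_derivesP [Fintype Q] {F : MDag m (Atom σ (α ⊕ B)) Q} (hF : F.Invariant)
    {Φ : Sentence σ} {w c n : ℕ} {L : Finset (Q × Bool)} (hL : DerivesP F Φ w c n L) :
    F.Derives Φ w c n L := by
  induction hL with
  | infer L D X P hw hc hP h ih => exact MDag.Derives.infer L D X P hw hc ih h
  | wide Γ q b b' hw hq hP h ih => exact MDag.Derives.wide Γ q b b' hw hq ih h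
  | linear Γ q r a ρ hw ha hq hm hP hchild hr ih =>
    exact MDag.Derives.linear Γ q r a ρ hw ha hq hm ih hchild hr
  | replace Γ q₁ q₂ ρ hw hρ h₁ h₂ hconn hρc hρ₁ hρ₂ hP₁ hP₂ ih₁ ih₂ =>
    exact MDag.Derives.replace Γ q₁ q₂ ρ hw hρ h₁ h₂ hconn hρc hρ₁ hρ₂ ih₁ ih₂
  | rename g L hL ih => exact derives_ren hF ih g

end H688R2.Ord
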