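import Pool.Agent.H688R2.Ord.Lin
import Pool.Agent.H688R2.Ord.Inst
import Pool.Agent.H688R2.Cnt.Main

/-!
# All derived lines are true in all worlds
-/

namespace H688R2.Ord

open Equiv Finset H688R2.Sym H688R2.Gap H688R2.Cnt H534R2.SymSw

variable {σ : Sig} {α B Q : Type} {m : ℕ} [LinearOrder α] [Fintype α] [MulAction (Perm α) Q]

theorem exists_world' (hREGU : S_REGU) (g : Perm α) (Z : Finset α) (D : ℕ) (hD : 0 < D)
    (h : Z.card * D ≤ Fintype.card α) :
    ∃ h : Perm α, SO Z g h ∧ ∀ a ∈ Z, D ∣ pos (h a) := by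
  obtain ⟨u, u1, u2⟩ := hREGU α (Z.map g.toEmbedding) D hD (by rwa [card_map])
  refine ⟨u * g, ?_, ?_⟩
  · intro a ha b hb
    exact (u1.lt_iff_lt (a := g a) (b := g b) (mem_map_of_mem _ ha) (mem_map_of_mem _ hb)).symm
  · intro a ha
    exact u2 (g a) (mem_map_of_mem _ ha)

theorem sat_of_SO {v : Q → Prop} (hT : ∀ q, TT (α := α) v q) {g h : Perm α} {Z : Finset α}
    (hgh : SO Z g h) {L : Finset (Q × Bool)} (hL : ∀ l ∈ L, (sup l.1 : Finset α) ⊆ Z)
    (hs : SatLine (fun q => v (h • q)) L) : SatLine (fun q => v (g • q)) L := by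
  obtain ⟨l, hl, h1⟩ := hs
  refine ⟨l, hl, ?_⟩
  have := hT l.1 g h (fun a ha b hb => hgh a (hL l hl ha) b (hL l hl hb))
  rw [← h1]
  exact this

theorem respects_smul {F : MDag m (Atom σ (α ⊕ B)) Q} (hF : F.Invariant) {v : Q → Prop}
    (h : Perm α) (q : Q) (hr : F.Respects v (h • q)) : F.Respects (fun q => v (h • q)) q := by
  intro hq
  have h0 : F.var (h • q) = none := by rw [hF.var, hq]; rfl
  have h1 := hr h0
  have key : ∀ (ε : Prop → Prop) (q' : Q), (F.child (h • q) (h • q') ∧ ε (v (h • q'))) ↔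
      (F.child q q' ∧ ε (v (h • q'))) := by
    intro ε q'
    rw [hF.child]
  have k1 := ex_smul h (p := fun q' => F.child q q' ∧ v (h • q'))
    (p' := fun q' => F.child (h • q) q' ∧ v q') (key id)
  have k2 := ex_smul h (p := fun q' => F.child q q' ∧ ¬ v (h • q'))
    (p' := fun q' => F.child (h • q) q' ∧ ¬ v q') (key Not)
  have k3 := card_smul h (p := fun q' => F.child q q' ∧ v (h • q'))
    (p' := fun q' => F.child (h • q) q' ∧ v q') (key id)
  rw [k1, k2, k3, hF.conn] at h1
  exact h1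

variable [Fintype Q]

/-- the situation -/
structure Good (F : MDag m (Atom σ (α ⊕ B)) Q) (Φ : Sentence σ) (S₀ : Atom σ (ℚ ⊕ B) → Prop)
    (p : α → ℚ) (v : Q → Prop) (k P M : ℕ) : Prop where
  lib : Lib
  regu : S_REGU
  wit : S_WIT
  setup : Setup F k P
  inv₀ : OrderInvariant S₀
  model : Φ.Models S₀
  mono : StrictMono p
  hq : Φ.q < P
  room : M * P ^ 2 ≤ Fintype.card α
  T : ∀ q, TT (α := α) v q
  var : ∀ q a, F.var q = some a → (v q ↔ pull S₀ p a)
  resp : ∀ q : Q, (∀ a ∈ (sup q : Finset α), P ∣ pos a) → F.Respects v q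

variable {F : MDag m (Atom σ (α ⊕ B)) Q} {Φ : Sentence σ} {S₀ : Atom σ (ℚ ⊕ B) → Prop}
  {p : α → ℚ} {v : Q → Prop} {k P M : ℕ}

theorem Good.world (G : Good F Φ S₀ p v k P M) (g : Perm α) (Z : Finset α) (hZ : Z.card ≤ M) :
    ∃ h : Perm α, SO Z g h ∧ ∀ a ∈ Z, P ^ 2 ∣ pos (h a) :=
  exists_world' G.regu g Z (P ^ 2) (by
    have h1 : 0 < P := by
      have := G.setup.kP
      omega
    positivity) ((Nat.mul_le_mul_right _ hZ).trans G.room)

theorem dvd_of_sq {P n : ℕ} (h : P ^ 2 ∣ n) : P ∣ n :=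
  (Dvd.intro_left _ (by rw [← pow_succ])).trans h

theorem Good.respects (G : Good F Φ S₀ p v k P M) {h : Perm α} {Z : Finset α}
    (hZ : ∀ a ∈ Z, P ^ 2 ∣ pos (h a)) {q : Q} (hq : (sup q : Finset α) ⊆ Z) :
    F.Respects (fun q => v (h • q)) q := by
  apply respects_smul G.setup.inv
  apply G.resp
  intro a ha
  rw [sup_smul, mem_map] at ha
  obtain ⟨b, hb, rfl⟩ := ha
  exact dvd_of_sq (hZ b (hq hb))

theorem valid_infer (G : Good F Φ S₀ p v k P M) {w c : ℕ}
    {L : Finset (Q × Bool)} {D : Finset Q} {X : Finset (Fin Φ.p → α ⊕ B)}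
    {R : Finset (Finset (Q × Bool))} (hw : L.card ≤ w) (hc : D.card + X.card + R.card ≤ c)
    (h : F.Entails Φ D X R L) (hM : (c + 1) * (w + 1) * (k + Φ.p) ≤ M)
    (ih : ∀ L' ∈ R, ∀ g : Perm α, SatLine (fun q => v (g • q)) L') (g : Perm α) :
    SatLine (fun q => v (g • q)) L := by
  classical
  let ZX : Finset α := X.biUnion fun x => univ.biUnion fun i =>
    Sum.elim (fun a => ({a} : Finset α)) (fun _ => ∅) (x i)
  let Z : Finset α := (L.biUnion fun l => sup l.1) ∪ (D.biUnion fun d => sup d) ∪ ZX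
  have hZX : ZX.card ≤ X.card * Φ.p := by
    apply card_biUnion_le_card_mul
    intro x _
    calc _ ≤ (univ : Finset (Fin Φ.p)).card * 1 := by
          apply card_biUnion_le_card_mul
          intro i _
          rcases x i with a | b
          · simp
          · simp
      _ = Φ.p := by simp
  have hsup := G.setup.hsup
  have hcard : Z.card ≤ M := by
    refine le_trans ?_ hM
    have h1 : (L.biUnion fun l => (sup l.1 : Finset α)).card ≤ L.card * k :=
      card_biUnion_le_card_mul _ _ _ fun l _ => (hsup l.1).1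
    have h2 : (D.biUnion fun d => (sup d : Finset α)).card ≤ D.card * k :=
      card_biUnion_le_card_mul _ _ _ fun d _ => (hsup d).1
    have h5 := card_union_le ((L.biUnion fun l => (sup l.1 : Finset α)) ∪
      (D.biUnion fun d => (sup d : Finset α))) ZX
    have h6 := card_union_le (L.biUnion fun l => (sup l.1 : Finset α))
      (D.biUnion fun d => (sup d : Finset α))
    have h7 : L.card * k ≤ w * k := Nat.mul_le_mul_right _ hw
    have h8 : Z.card ≤ w * k + (D.card * k + X.card * Φ.p) := by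
      show (((L.biUnion fun l => (sup l.1 : Finset α)) ∪
        (D.biUnion fun d => (sup d : Finset α))) ∪ ZX).card ≤ _
      omega
    refine h8.trans ?_
    have h9 : D.card * k + X.card * Φ.p ≤ c * ((w + 1) * (k + Φ.p)) := by
      calc D.card * k + X.card * Φ.p
          ≤ D.card * ((w + 1) * (k + Φ.p)) + X.card * ((w + 1) * (k + Φ.p)) := by
            apply Nat.add_le_add
            · exact Nat.mul_le_mul_left _ (by nlinarith)
            · exact Nat.mul_le_mul_left _ (by nlinarith)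
        _ = (D.card + X.card) * ((w + 1) * (k + Φ.p)) := by ring
        _ ≤ _ := Nat.mul_le_mul_right _ (by omega)
    have h10 : w * k ≤ (w + 1) * (k + Φ.p) := by nlinarith
    calc _ ≤ (w + 1) * (k + Φ.p) + c * ((w + 1) * (k + Φ.p)) := Nat.add_le_add h10 h9
      _ = _ := by ring
  obtain ⟨u, u1, u2⟩ := G.world g Z hcard
  apply sat_of_SO G.T u1 (fun l hl a ha => mem_union_left _ (mem_union_left _
    (mem_biUnion.2 ⟨l, hl, ha⟩)))
  have hNe : Nonempty α := Fintype.card_pos_iff.1 (by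
    have := G.setup.big
    omega)
  apply h (fun a => pull S₀ p (a.map (Sum.map u id)))
  · intro q a hq
    apply G.var
    rw [G.setup.inv.var, hq]
    rfl
  · intro d hd
    exact G.respects u2 (fun a ha => mem_union_left _ (mem_union_right _
      (mem_biUnion.2 ⟨d, hd, ha⟩)))
  · intro x hx
    apply inst_world G.wit Φ G.inv₀ G.model G.mono G.hq G.setup.dvd
    intro i a hi
    apply dvd_of_sq
    apply u2
    refine mem_union_right _ (mem_biUnion.2 ⟨x, hx, mem_biUnion.2 ⟨i, mem_univ _, ?_⟩⟩)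
    rw [hi]
    simp
  · intro L' hL'
    exact ih L' hL' u

theorem card_line {k w : ℕ} (hsup : ∀ q : Q, (sup q : Finset α).card ≤ k)
    {L : Finset (Q × Bool)} (hw : L.card ≤ w) (s : Finset α) (hs : s.card ≤ k) :
    ((L.biUnion fun l => (sup l.1 : Finset α)) ∪ s).card ≤ w * k + k := by
  have h1 : (L.biUnion fun l => (sup l.1 : Finset α)).card ≤ L.card * k :=
    card_biUnion_le_card_mul _ _ _ fun l _ => hsup l.1
  have h2 : L.card * k ≤ w * k := Nat.mul_le_mul_right _ hw
  have h3 := card_union_le (L.biUnion fun l => (sup l.1 : Finset α)) s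
  omega

open Classical in
theorem valid_wide (G : Good F Φ S₀ p v k P M) {w : ℕ} {Γ : Finset (Q × Bool)} {q : Q}
    {b b' : Bool} (hw : (insert (q, b) Γ).card ≤ w) (hM : w * k + k ≤ M) (hq : F.var q = none)
    (h : F.conn q (b' = true ∧ ∃ q', F.child q q') (b' = false ∧ ∃ q', F.child q q')
        (if b' = true then (Nat.card {q' // F.child q q'} : ZMod m) else 0) ↔ b = true)
    (ih : ∀ q', F.child q q' → ∀ g : Perm α, SatLine (fun q => v (g • q)) (insert (q', b') Γ))
    (g : Perm α) : SatLine (fun q => v (g • q)) (insert (q, b) Γ) := by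
  obtain ⟨u, u1, u2⟩ := G.world g
    (((insert (q, b) Γ).biUnion fun l => (sup l.1 : Finset α)) ∪ ∅)
    ((card_line (fun q => (G.setup.hsup q).1) hw ∅ (by simp)).trans hM)
  have hin : ∀ l ∈ insert (q, b) Γ, (sup l.1 : Finset α) ⊆
      ((insert (q, b) Γ).biUnion fun l => (sup l.1 : Finset α)) ∪ ∅ :=
    fun l hl a ha => mem_union_left _ (mem_biUnion.2 ⟨l, hl, ha⟩)
  apply sat_of_SO G.T u1 hin
  by_contra hcon
  have hΓ : ∀ l ∈ Γ, ¬ (v (u • l.1) ↔ l.2 = true) := fun l hl hv =>
    hcon ⟨l, mem_insert_of_mem hl, hv⟩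
  have hch : ∀ q', F.child q q' → (v (u • q') ↔ b' = true) := by
    intro q' hq'
    obtain ⟨l, hl, hv⟩ := ih q' hq' u
    rcases mem_insert.1 hl with rfl | hl
    · exact hv
    · exact absurd hv (hΓ l hl)
  apply hcon
  refine ⟨(q, b), mem_insert_self _ _, ?_⟩
  rw [← h]
  have hr := G.respects u2 (hin (q, b) (mem_insert_self _ _)) hq
  rw [hr]
  have k1 : (∃ q', F.child q q' ∧ v (u • q')) ↔ (b' = true ∧ ∃ q', F.child q q') := by
    constructor
    · rintro ⟨q', h1, h2⟩
      exact ⟨(hch q' h1).1 h2, q', h1⟩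
    · rintro ⟨h1, q', h2⟩
      exact ⟨q', h2, (hch q' h2).2 h1⟩
  have k2 : (∃ q', F.child q q' ∧ ¬ v (u • q')) ↔ (b' = false ∧ ∃ q', F.child q q') := by
    constructor
    · rintro ⟨q', h1, h2⟩
      rw [hch q' h1] at h2
      exact ⟨by simpa using h2, q', h1⟩
    · rintro ⟨h1, q', h2⟩
      refine ⟨q', h2, ?_⟩
      rw [hch q' h2, h1]
      simp
  have k3 : (Nat.card {q' // F.child q q' ∧ v (u • q')} : ZMod m) =
      (if b' = true then (Nat.card {q' // F.child q q'} : ZMod m) else 0) := by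
    split_ifs with hb
    · congr 1
      apply Nat.card_congr
      apply Equiv.subtypeEquivRight
      intro q'
      constructor
      · exact fun h => h.1
      · exact fun h => ⟨h, (hch q' h).2 hb⟩
    · have : IsEmpty {q' // F.child q q' ∧ v (u • q')} :=
        ⟨fun x => hb ((hch x.1 x.2.1).1 x.2.2)⟩
      rw [Nat.card_of_isEmpty, Nat.cast_zero]
  rw [k1, k2, k3]

open Classical in
theorem valid_replace (G : Good F Φ S₀ p v k P M) {w : ℕ} {Γ : Finset (Q × Bool)} {q₁ q₂ : Q}
    {ρ : Q × Q → Prop} (hw : (insert (q₁, false) (insert (q₂, true) Γ)).card ≤ w)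
    (hM : w * k + k ≤ M)
    (h₁ : F.var q₁ = none) (h₂ : F.var q₂ = none) (hconn : F.conn q₁ = F.conn q₂)
    (hρc : ∀ a b, ρ (a, b) → F.child q₁ a ∧ F.child q₂ b)
    (hρ₁ : ∀ a, F.child q₁ a → ∃! b, ρ (a, b)) (hρ₂ : ∀ b, F.child q₂ b → ∃! a, ρ (a, b))
    (ih₁ : ∀ a b, ρ (a, b) → ∀ g : Perm α,
      SatLine (fun q => v (g • q)) (insert (a, false) (insert (b, true) Γ)))
    (ih₂ : ∀ a b, ρ (a, b) → ∀ g : Perm α,
      SatLine (fun q => v (g • q)) (insert (a, true) (insert (b, false) Γ))) (g : Perm α) :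
    SatLine (fun q => v (g • q)) (insert (q₁, false) (insert (q₂, true) Γ)) := by
  set L := insert (q₁, false) (insert (q₂, true) Γ) with hLdef
  obtain ⟨u, u1, u2⟩ := G.world g ((L.biUnion fun l => (sup l.1 : Finset α)) ∪ ∅)
    ((card_line (fun q => (G.setup.hsup q).1) hw ∅ (by simp)).trans hM)
  have hin : ∀ l ∈ L, (sup l.1 : Finset α) ⊆ (L.biUnion fun l => (sup l.1 : Finset α)) ∪ ∅ :=
    fun l hl a ha => mem_union_left _ (mem_biUnion.2 ⟨l, hl, ha⟩)
  apply sat_of_SO G.T u1 hin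
  by_contra hcon
  have hΓ : ∀ l ∈ Γ, ¬ (v (u • l.1) ↔ l.2 = true) := fun l hl hv =>
    hcon ⟨l, mem_insert_of_mem (mem_insert_of_mem hl), hv⟩
  have hq1 : v (u • q₁) := by
    by_contra h
    exact hcon ⟨(q₁, false), mem_insert_self _ _, by simpa using h⟩
  have hq2 : ¬ v (u • q₂) := fun h =>
    hcon ⟨(q₂, true), mem_insert_of_mem (mem_insert_self _ _), by simpa using h⟩
  have hval : ∀ a b, ρ (a, b) → (v (u • a) ↔ v (u • b)) := by
    intro a b hab
    have k1 := ih₁ a b hab u
    have k2 := ih₂ a b hab u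
    constructor
    · intro hva
      obtain ⟨l, hl, hv⟩ := k1
      rcases mem_insert.1 hl with rfl | hl
      · exact absurd hva (by simpa using hv)
      rcases mem_insert.1 hl with rfl | hl
      · simpa using hv
      · exact absurd hv (hΓ l hl)
    · intro hvb
      obtain ⟨l, hl, hv⟩ := k2
      rcases mem_insert.1 hl with rfl | hl
      · simpa using hv
      rcases mem_insert.1 hl with rfl | hl
      · exact absurd hvb (by simpa using hv)
      · exact absurd hv (hΓ l hl)
  have key : ∀ ε : Prop → Prop, (∃ q', F.child q₁ q' ∧ ε (v (u • q'))) ↔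
      (∃ q', F.child q₂ q' ∧ ε (v (u • q'))) := by
    intro ε
    constructor
    · rintro ⟨a, h3, h5⟩
      obtain ⟨b, hb, _⟩ := hρ₁ a h3
      refine ⟨b, (hρc a b hb).2, ?_⟩
      rw [← hval a b hb]
      exact h5
    · rintro ⟨b, h3, h5⟩
      obtain ⟨a, ha, _⟩ := hρ₂ b h3
      refine ⟨a, (hρc a b ha).1, ?_⟩
      rw [hval a b ha]
      exact h5
  have hcount : Nat.card {q' // F.child q₁ q' ∧ v (u • q')} =
      Nat.card {q' // F.child q₂ q' ∧ v (u • q')} := by
    choose β hβ hβu using fun (x : {q' // F.child q₁ q'}) => hρ₁ x.1 x.2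
    apply Nat.card_eq_of_bijective (fun x : {q' // F.child q₁ q' ∧ v (u • q')} =>
      (⟨β ⟨x.1, x.2.1⟩, (hρc _ _ (hβ ⟨x.1, x.2.1⟩)).2,
          (hval _ _ (hβ ⟨x.1, x.2.1⟩)).1 x.2.2⟩ :
          {q' // F.child q₂ q' ∧ v (u • q')}))
    constructor
    · rintro ⟨x, hx⟩ ⟨x', hx'⟩ h
      have h3 : β ⟨x, hx.1⟩ = β ⟨x', hx'.1⟩ := congrArg Subtype.val h
      have h4 := hβ ⟨x, hx.1⟩
      have h5 := hβ ⟨x', hx'.1⟩
      simp only at h4 h5
      rw [h3] at h4
      exact Subtype.ext ((hρ₂ _ (hρc _ _ h4).2).unique h4 h5)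
    · rintro ⟨b, hb⟩
      obtain ⟨a, ha, _⟩ := hρ₂ b hb.1
      refine ⟨⟨a, (hρc a b ha).1, (hval a b ha).2 hb.2⟩, ?_⟩
      apply Subtype.ext
      show β ⟨a, _⟩ = b
      exact (hβu ⟨a, (hρc a b ha).1⟩ b ha).symm
  apply hq2
  have r1 := G.respects u2 (hin (q₁, false) (mem_insert_self _ _)) h₁
  have r2 := G.respects u2 (hin (q₂, true) (mem_insert_of_mem (mem_insert_self _ _))) h₂
  simp only at r1 r2
  rw [r1] at hq1
  rw [r2]
  have k1 := key id
  have k2 := key Not
  simp only [id] at k1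
  rw [k1, k2, hcount, hconn] at hq1
  exact hq1

open Classical in
theorem valid_linear (G : Good F Φ S₀ p v k P M) {w : ℕ} {Γ : Finset (Q × Bool)} {q : Q}
    {r : ZMod m} {a ρ : Q → ZMod m} (hw : (insert (q, true) Γ).card ≤ w) (hM : w * k + k ≤ M)
    (ha : ∃ s : Finset α, s.card ≤ k ∧ ∀ g : Perm α, Perm.sign g = 1 → (∀ x ∈ s, g x = x) →
      ∀ x, a (g • x) = a x) (hq : F.IsMod q r)
    (hmod : ∀ q', a q' ≠ 0 → F.IsMod q' (ρ q'))
    (hchild : ∀ q'', (if F.child q q'' then (1 : ZMod m) else 0)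
        = ∑ q', a q' * (if F.child q' q'' then (1 : ZMod m) else 0))
    (hr : r = ∑ q', a q' * ρ q')
    (ih : ∀ q', a q' ≠ 0 → ∀ g : Perm α, SatLine (fun q => v (g • q)) (insert (q', true) Γ))
    (g : Perm α) : SatLine (fun q => v (g • q)) (insert (q, true) Γ) := by
  obtain ⟨s, hs, hinv⟩ := ha
  set L := insert (q, true) Γ with hLdef
  set Z₀ : Finset α := (L.biUnion fun l => (sup l.1 : Finset α)) ∪ s with hZ₀
  have hZ₀c : Z₀.card ≤ M := (card_line (fun q => (G.setup.hsup q).1) hw s hs).trans hM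
  obtain ⟨u, u1, u2⟩ := G.world g Z₀ hZ₀c
  have hin : ∀ l ∈ L, (sup l.1 : Finset α) ⊆ Z₀ :=
    fun l hl a ha => mem_union_left _ (mem_biUnion.2 ⟨l, hl, ha⟩)
  have hs' : s ⊆ Z₀ := subset_union_right
  apply sat_of_SO G.T u1 hin
  by_contra hcon
  have hΓ : ∀ l ∈ Γ, ¬ (v (u • l.1) ↔ l.2 = true) := fun l hl hv =>
    hcon ⟨l, mem_insert_of_mem hl, hv⟩
  have htrue : ∀ q', a q' ≠ 0 → v (u • q') := by
    intro q' h0
    obtain ⟨l, hl, hv⟩ := ih q' h0 u
    rcases mem_insert.1 hl with rfl | hl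
    · simpa using hv
    · exact absurd hv (hΓ l hl)
  apply hcon
  refine ⟨(q, true), mem_insert_self _ _, ?_⟩
  simp only [iff_true]
  -- the moved rule
  have hkM : 1 ≤ M := by
    have := G.setup.hk
    nlinarith
  have hroom : (Z₀.map u.toEmbedding).card + 2 * k + 2 ≤ Fintype.card α := by
    rw [card_map]
    have h1 := G.room
    have h2 := G.setup.kP
    have h3 := G.setup.hk
    have h4 : M * 1 + (P ^ 2 - 1) ≤ M * P ^ 2 := by
      obtain ⟨d, hd⟩ : ∃ d, P ^ 2 = d + 1 := ⟨P ^ 2 - 1, by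
        have h6 : 0 < P := by omega
        have : 0 < P ^ 2 := by positivity
        omega⟩
      rw [hd]
      simp only [Nat.add_sub_cancel]
      nlinarith
    have h5 : 2 * k + 3 ≤ P ^ 2 := by nlinarith
    omega
  have hNN : ∀ x : Q, (sup x : Finset α) ⊆ Reg α P → ∀ r', F.IsMod x r' → v x → NN F v x = r' := by
    intro x hx r' hm hv
    have h1 := G.resp x (fun a ha => mem_Reg.1 (hx ha)) hm.1
    rw [h1, hm.2, card_eq_sum] at hv
    exact hv
  have hcore := linear_core G.lib G.setup G.T (Z₀.map u.toEmbedding) (by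
      intro z hz
      rw [mem_map] at hz
      obtain ⟨b, hb, rfl⟩ := hz
      exact u2 b hb) hroom (fun x => a (u⁻¹ • x)) (fun x => ρ (u⁻¹ • x)) (by
      intro g' g1 g2 x
      have h1 : u⁻¹ • g' • x = (u⁻¹ * g' * u) • (u⁻¹ • x) := by
        simp only [← mul_smul]
        congr 1
        group
      show a (u⁻¹ • g' • x) = a (u⁻¹ • x)
      rw [h1]
      apply hinv
      · rw [map_mul, map_mul, g1, map_inv, mul_one, inv_mul_cancel]
      · intro y hy
        rw [Perm.mul_apply, Perm.mul_apply, g2 (u y) (mem_map_of_mem _ (hs' hy))]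
        simp) (by
      intro x hx
      have h1 := hmod _ hx
      refine ⟨?_, ?_⟩
      · have h2 := G.setup.inv.var u (u⁻¹ • x)
        rw [smul_inv_smul, h1.1] at h2
        exact h2
      · have h2 := G.setup.inv.conn u (u⁻¹ • x)
        rw [smul_inv_smul] at h2
        rw [h2]
        exact h1.2) (u • q) r (by
      intro x
      have h1 := hchild (u⁻¹ • x)
      have h2 := G.setup.inv.child u q (u⁻¹ • x)
      rw [smul_inv_smul] at h2
      simp only [h2, h1]
      apply Finset.sum_equiv (MulAction.toPerm u)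
      · intro y
        simp
      · intro y _
        rw [MulAction.toPerm_apply, inv_smul_smul]
        congr 1
        have h3 := G.setup.inv.child u y (u⁻¹ • x)
        rw [smul_inv_smul] at h3
        simp only [h3]) (by
      rw [hr]
      apply Finset.sum_equiv (MulAction.toPerm u)
      · intro y
        simp
      · intro y _
        rw [MulAction.toPerm_apply, inv_smul_smul]) (by
      intro x hx hxR
      have h1 := hmod _ hx
      apply hNN x hxR
      · refine ⟨?_, ?_⟩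
        · have h2 := G.setup.inv.var u (u⁻¹ • x)
          rw [smul_inv_smul, h1.1] at h2
          exact h2
        · have h2 := G.setup.inv.conn u (u⁻¹ • x)
          rw [smul_inv_smul] at h2
          rw [h2]
          exact h1.2
      · have := htrue _ hx
        rwa [smul_inv_smul] at this)
  have hm' : F.IsMod (u • q) r := by
    refine ⟨?_, ?_⟩
    · rw [G.setup.inv.var, hq.1]
      rfl
    · rw [G.setup.inv.conn]
      exact hq.2
  have h1 := G.resp (u • q) (by
    intro b hb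
    rw [sup_smul, mem_map] at hb
    obtain ⟨b, hb, rfl⟩ := hb
    exact dvd_of_sq (u2 b (hin (q, true) (mem_insert_self _ _) hb))) hm'.1
  rw [h1, hm'.2, card_eq_sum]
  exact hcore

/-- **All derived lines are true in all worlds.** -/
theorem valid_of_derives (G : Good F Φ S₀ p v k P M) {w c n : ℕ} (hn : n ^ 2 ≤ Fintype.card α ^ k)
    (hK : 16 * (k + 1) * (k + 1) * (Nat.log 2 (Fintype.card α) + 1) ≤ Fintype.card α)
    (hM : (c + 1) * (w + 1) * (k + Φ.p) + k ≤ M)
    {L : Finset (Q × Bool)} (hL : F.Derives Φ w c n L) :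
    ∀ g : Perm α, SatLine (fun q => v (g • q)) L := by
  have hk := G.setup.hk
  have hwk : w * k ≤ (c + 1) * (w + 1) * (k + Φ.p) := by
    calc w * k ≤ (w + 1) * (k + Φ.p) := by nlinarith
      _ = 1 * ((w + 1) * (k + Φ.p)) := by ring
      _ ≤ (c + 1) * ((w + 1) * (k + Φ.p)) := Nat.mul_le_mul_right _ (by omega)
      _ = _ := by ring
  induction hL with
  | infer L D X P hw hc hP h ih =>
    exact valid_infer G hw hc h (by omega) ih
  | wide Γ q b b' hw hq hP h ih =>
    exact valid_wide G hw (by omega) hq h ih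
  | linear Γ q r a ρ hw ha hq hmod hP hchild hr ih =>
    exact valid_linear G hw (by omega) (few_support hk hn hK a ha) hq hmod hchild hr ih
  | replace Γ q₁ q₂ ρ hw hρ h₁ h₂ hconn hρc hρ₁ hρ₂ hP₁ hP₂ ih₁ ih₂ =>
    exact valid_replace G hw (by omega) h₁ h₂ hconn hρc hρ₁ hρ₂ ih₁ ih₂

end H688R2.Ord
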