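import Pool.Agent.H688R2.Cnt.World

/-!
# Definitions and statements for the linear order project
-/

namespace H688R2.Ord

open Equiv Finset H688R2.Sym H688R2.Gap H688R2.Cnt

/-- the number of elements of `Y` below `x` -/
def rk {β : Type} [LinearOrder β] (Y : Finset β) (x : β) : ℕ :=
  (Y.filter fun y => y < x).card

/-- the number of elements of `J` of rank `i` -/
def tau {β : Type} [LinearOrder β] (Y J : Finset β) (i : ℕ) : ℕ :=
  (J.filter fun x => rk Y x = i).card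

/-- the position of `a`, from `1` to the number of elements of `α` -/
def pos {α : Type} [Fintype α] [LinearOrder α] (a : α) : ℕ :=
  (univ.filter fun x : α => x ≤ a).card

/-- the regular elements -/
def Reg (α : Type) [Fintype α] [LinearOrder α] (P : ℕ) : Finset α :=
  univ.filter fun a => P ∣ pos a

/-- sets with the same numbers of elements in all gaps can be matched (`e` sends the element of
rank `r` of `Y ∪ J` to the element of rank `r` of `Y' ∪ J'`) -/
def S_MATCH : Prop := ∀ (β α : Type) [LinearOrder β] [LinearOrder α] [Nonempty α]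
  (Y J : Finset β) (Y' J' : Finset α), Disjoint Y J → Disjoint Y' J' → Y.card = Y'.card →
  (∀ i, tau Y J i = tau Y' J' i) →
  ∃ e : β → α, StrictMonoOn e ↑(Y ∪ J) ∧ Y.image e = Y' ∧ J.image e = J'

/-- the same by a permutation of given sign that extends the given map on `Y` -/
def S_PERM : Prop := ∀ (α : Type) [Fintype α] [LinearOrder α] (h : Perm α) (Y J J' : Finset α),
  Disjoint Y J → Disjoint (Y.map h.toEmbedding) J' → StrictMonoOn h ↑Y →
  (∀ i, tau Y J i = tau (Y.map h.toEmbedding) J' i) → Y.card + J.card + 2 ≤ Fintype.card α →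
  ∃ g : Perm α, Perm.sign g = Perm.sign h ∧ (∀ a ∈ Y, g a = h a) ∧
    J.map g.toEmbedding = J' ∧ StrictMonoOn g ↑(Y ∪ J)

/-- sizes of gaps -/
def S_GAP : Prop := ∀ (α : Type) [LinearOrder α] (P : ℕ) (X Y : Finset α), Y ⊆ X →
  (∀ y ∈ Y, P ∣ (X.filter fun x => x ≤ y).card) → P ∣ X.card + 1 →
  ∀ i ≤ Y.card, P ∣ ((X \ Y).filter fun x => rk Y x = i).card + 1

/-- the number of sets with given numbers of elements in the gaps -/
def S_CNT : Prop := ∀ (α : Type) [LinearOrder α] (m P K : ℕ),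
  (∀ t j, 1 ≤ j → j ≤ K → m ∣ (t * P).choose j) → ∀ (X Y : Finset α), Y ⊆ X →
  (∀ y ∈ Y, P ∣ (X.filter fun x => x ≤ y).card) → P ∣ X.card + 1 →
  ∀ τ : ℕ → ℕ, (∀ i, Y.card < i → τ i = 0) → ∑ i ∈ range (Y.card + 1), τ i ≤ K →
  (Nat.card {J : Finset α // J ⊆ X \ Y ∧ tau Y J = τ} : ZMod m) =
    (-1) ^ (∑ i ∈ range (Y.card + 1), τ i)

/-- existence of a set with given numbers of elements in the gaps -/
def S_EX : Prop := ∀ (α : Type) [LinearOrder α] (P : ℕ) (X Y : Finset α), Y ⊆ X →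
  (∀ y ∈ Y, P ∣ (X.filter fun x => x ≤ y).card) → P ∣ X.card + 1 →
  ∀ τ : ℕ → ℕ, (∀ i, Y.card < i → τ i = 0) → (∀ i, τ i < P) → ∃ J ⊆ X \ Y, tau Y J = τ

/-- moving a set to regular positions -/
def S_REGU : Prop := ∀ (α : Type) [Fintype α] [LinearOrder α] (t : Finset α) (D : ℕ), 0 < D →
  t.card * D ≤ Fintype.card α → ∃ g : Perm α, StrictMonoOn g ↑t ∧ ∀ a ∈ t, D ∣ pos (g a)

/-- facts about the regular elements -/
def S_REGF : Prop := ∀ (α : Type) [Fintype α] [LinearOrder α] (P : ℕ), 0 < P →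
  P ^ 2 ∣ Fintype.card α + 1 →
  (∀ y : α, P ^ 2 ∣ pos y → P ∣ ((Reg α P).filter fun x => x ≤ y).card) ∧
    P ∣ (Reg α P).card + 1 ∧ P ∣ ((Reg α P)ᶜ).card

/-- moving rational witnesses into a finite order -/
def S_WIT : Prop := ∀ (α : Type) [Fintype α] [LinearOrder α] [Nonempty α] (p : α → ℚ),
  StrictMono p → ∀ P, P ∣ Fintype.card α + 1 → ∀ Z : Finset α, (∀ z ∈ Z, P ∣ pos z) →
  ∀ W : Finset ℚ, W.card < P →
  ∃ f : ℚ → α, StrictMonoOn f ↑(Z.image p ∪ W) ∧ ∀ z ∈ Z, f (p z) = z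

/-- comparing two sums -/
def S_CMP : Prop := ∀ (X X' ι : Type) (m : ℕ) (s : Finset X) (s' : Finset X') (τ : X → ι)
  (τ' : X' → ι) (T : X → ZMod m) (T' : X' → ZMod m),
  (∀ x ∈ s, ∀ x' ∈ s', τ x = τ' x' → T x = T' x') →
  (∀ x ∈ s, ∀ y ∈ s, τ x = τ y → T x = T y) →
  (∀ x ∈ s', ∀ y ∈ s', τ' x = τ' y → T' x = T' y) →
  (∀ i, (Nat.card {x // x ∈ s ∧ τ x = i} : ZMod m) = (Nat.card {x // x ∈ s' ∧ τ' x = i} : ZMod m)) →
  ∑ x ∈ s, T x = ∑ x ∈ s', T' x

/-- the number of pairs of sets of the same type as `(A₀, U₀)` -/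
def S_PAIR : Prop := ∀ (α : Type) [Fintype α] [LinearOrder α] (Z A₀ U₀ : Finset α),
  Disjoint Z A₀ → Disjoint (Z ∪ A₀) U₀ → Z.card + A₀.card + U₀.card + 2 ≤ Fintype.card α →
  Nat.card {p : Finset α × Finset α // Disjoint Z p.1 ∧ Disjoint (Z ∪ p.1) p.2 ∧
    tau Z p.1 = tau Z A₀ ∧ tau (Z ∪ p.1) p.2 = tau (Z ∪ A₀) U₀} =
  Nat.card {J : Finset α // Disjoint Z J ∧ tau Z J = tau Z (A₀ ∪ U₀)}

/-- the elements of an atomic fact lie in its support -/
def S_MEM : Prop := ∀ (σ : Sig) (α B Q : Type) (m k : ℕ) [DecidableEq α] [Fintype α]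
  [MulAction (Perm α) Q] (F : MDag m (Atom σ (α ⊕ B)) Q), F.Invariant →
  2 * k + 3 ≤ Fintype.card α →
  (∀ q : Q, (sup q : Finset α).card ≤ k ∧ IsSup (sup q : Finset α) q) →
  ∀ (q : Q) (a : Atom σ (α ⊕ B)), F.var q = some a → ∀ (i : Fin (σ.ar a.1)) (x : α),
    a.2 i = .inl x → x ∈ (sup q : Finset α)

/-- The truth of an atomic fact depends only on the order of the rational numbers in it. -/
def OrderInvariant {σ : Sig} {B : Type} (S : Atom σ (ℚ ⊕ B) → Prop) : Prop :=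
  ∀ (a : Atom σ (ℚ ⊕ B)) (f : ℚ → ℚ), StrictMonoOn f {x | ∃ i, a.2 i = .inl x} →
    (S (a.map (Sum.map f id)) ↔ S a)

/-- One binary relation symbol. -/
def ordSig : Sig where
  R := Unit
  ar := fun _ => 2

/-- The atomic fact `a < b`. -/
def less {A : Type} (a b : A) : Atom ordSig A := ⟨(), ![a, b]⟩

/-- The sentence: there is a linear order without a smallest element. -/
def noMin : Sentence ordSig where
  p := 3
  q := 1
  θ := fun E S => ¬ S (less (.inl 0) (.inl 0)) ∧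
    (S (less (.inl 0) (.inl 1)) → S (less (.inl 1) (.inl 2)) → S (less (.inl 0) (.inl 2))) ∧
    (E (.inl 0) (.inl 1) ∨ S (less (.inl 0) (.inl 1)) ∨ S (less (.inl 1) (.inl 0))) ∧
    S (less (.inr 0) (.inl 0))

/-- what the sentence says, and its model with domain `ℚ ⊕ B` -/
def S_LOP : Prop :=
  (∀ (A : Type) (S : Atom ordSig A → Prop), noMin.Models S ↔
    (∀ x, ¬ S (less x x)) ∧ (∀ x y z, S (less x y) → S (less y z) → S (less x z)) ∧
    (∀ x y, x = y ∨ S (less x y) ∨ S (less y x)) ∧ ∀ x, ∃ y, S (less y x)) ∧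
  ∀ (B : Type) [LinearOrder B], ∃ S : Atom ordSig (ℚ ⊕ B) → Prop, noMin.Models S ∧
    OrderInvariant S

end H688R2.Ord
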