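import Pool.Agent.H688R2.Ord.Spec2

/-!
# Part of the elements may be treated as names
-/

namespace H688R2.Ord

open Equiv Finset H688R2.Sym H688R2.Gap H688R2.Cnt

/-- permutations of a part of the elements -/
def trans_emb {α α' α'' : Type} (e : α ≃ α' ⊕ α'') : Perm α' →* Perm α where
  toFun g := (e.trans (Equiv.sumCongr g (Equiv.refl α''))).trans e.symm
  map_one' := by
    ext x
    simp
  map_mul' g h := by
    ext x
    simp

/-- the renaming of the elements -/
def trans_eh {α α' α'' : Type} (e : α ≃ α' ⊕ α'') (B : Type) : α ⊕ B ≃ α' ⊕ (α'' ⊕ B) :=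
  (Equiv.sumCongr e (Equiv.refl B)).trans (Equiv.sumAssoc α' α'' B)

theorem trans_comm {α α' α'' : Type} (e : α ≃ α' ⊕ α'') (B : Type) (g : Perm α')
    (x : α ⊕ B) : trans_eh e B (Sum.map (trans_emb e g) id x) =
      Sum.map g id (trans_eh e B x) := by
  rcases x with x | b
  · simp only [trans_eh, trans_emb, MonoidHom.coe_mk, OneHom.coe_mk, Sum.map_inl,
      Equiv.trans_apply, Equiv.sumCongr_apply, Equiv.coe_refl, Equiv.apply_symm_apply]
    rcases e x with y | y <;> simp
  · simp [trans_eh]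

theorem trans_map_map {σ : Sig} {A B C : Type} (f : A → B) (g : B → C) (a : Atom σ A) :
    (a.map f).map g = a.map (fun x => g (f x)) := rfl

theorem trans_map_symm {σ : Sig} {A A' : Type} (eh : A ≃ A') (a : Atom σ A) :
    (a.map eh).map eh.symm = a := by
  obtain ⟨r, t⟩ := a
  show (⟨r, fun i => eh.symm (eh (t i))⟩ : Atom σ A) = ⟨r, t⟩
  simp only [Equiv.symm_apply_apply]

/-- the same formulas for the renamed elements -/
def trans_dag {σ : Sig} {m : ℕ} {A A' Q : Type} (eh : A ≃ A') (F : MDag m (Atom σ A) Q) :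
    MDag m (Atom σ A') Q where
  level := F.level
  var := fun q => (F.var q).map (Atom.map eh)
  child := F.child
  conn := F.conn
  child_lt := F.child_lt
  var_inj := by
    intro q q' i h1 h2
    rw [Option.map_eq_some_iff] at h1 h2
    obtain ⟨a, ha, ha'⟩ := h1
    obtain ⟨b, hb, hb'⟩ := h2
    have hab : a = b := by
      have h := congrArg (Atom.map eh.symm) (ha'.trans hb'.symm)
      rwa [trans_map_symm, trans_map_symm] at h
    subst hab
    exact F.var_inj q q' a ha hb

theorem trans_var_none {σ : Sig} {m : ℕ} {A A' Q : Type} (eh : A ≃ A')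
    (F : MDag m (Atom σ A) Q) (q : Q) : (trans_dag eh F).var q = none ↔ F.var q = none := by
  show (F.var q).map (Atom.map eh) = none ↔ _
  rw [Option.map_eq_none_iff]

theorem trans_inst {σ : Sig} (Φ : Sentence σ) {A A' : Type} (eh : A ≃ A')
    (S' : Atom σ A' → Prop) (x : Fin Φ.p → A) (h : Φ.Inst S' (fun i => eh (x i))) :
    Φ.Inst (fun a => S' (a.map eh)) x := by
  obtain ⟨y', hy'⟩ := h
  refine ⟨fun i => eh.symm (y' i), ?_⟩
  have h1 : ∀ i, Sum.elim (fun i => eh (x i)) y' i =
      eh (Sum.elim x (fun i => eh.symm (y' i)) i) := by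
    rintro (i | i) <;> simp
  have h2 : (fun i j => Sum.elim (fun i => eh (x i)) y' i = Sum.elim (fun i => eh (x i)) y' j) =
      (fun i j => Sum.elim x (fun i => eh.symm (y' i)) i =
        Sum.elim x (fun i => eh.symm (y' i)) j) := by
    funext i j
    rw [h1, h1, eh.apply_eq_iff_eq]
  have h3 : (fun a : Atom σ (Fin Φ.p ⊕ Fin Φ.q) => S' (a.map (Sum.elim (fun i => eh (x i)) y'))) =
      (fun a => S' ((a.map (Sum.elim x (fun i => eh.symm (y' i)))).map eh)) := by
    funext a
    rw [trans_map_map]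
    have : Sum.elim (fun i => eh (x i)) y' =
      fun i => eh (Sum.elim x (fun i => eh.symm (y' i)) i) := funext h1
    rw [this]
  rw [h2, h3] at hy'
  exact hy'

open Classical in
/-- the renamed tuples -/
noncomputable def trans_im {A A' : Type} {p : ℕ} (eh : A ≃ A') (X : Finset (Fin p → A)) :
    Finset (Fin p → A') := X.image fun x i => eh (x i)

open Classical in
theorem trans_im_card {A A' : Type} {p : ℕ} (eh : A ≃ A') (X : Finset (Fin p → A)) :
    (trans_im eh X).card ≤ X.card := by
  unfold trans_im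
  exact Finset.card_image_le

open Classical in
theorem trans_im_mem {A A' : Type} {p : ℕ} (eh : A ≃ A') (X : Finset (Fin p → A))
    (x : Fin p → A) (hx : x ∈ X) : (fun i => eh (x i)) ∈ trans_im eh X := by
  unfold trans_im
  exact Finset.mem_image_of_mem _ hx

theorem trans_entails {σ : Sig} {m : ℕ} {A A' Q : Type} (eh : A ≃ A') (F : MDag m (Atom σ A) Q)
    (Φ : Sentence σ) (D : Finset Q) (X : Finset (Fin Φ.p → A)) (P : Finset (Finset (Q × Bool)))
    (L : Finset (Q × Bool)) (h : F.Entails Φ D X P L) :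
    (trans_dag eh F).Entails Φ D (trans_im eh X) P L := by
  intro S' v h1 h2 h3 h4
  refine h (fun a => S' (a.map eh)) v ?_ ?_ ?_ h4
  · intro q a hqa
    refine h1 q (a.map eh) ?_
    show (F.var q).map (Atom.map eh) = _
    rw [hqa, Option.map_some]
  · intro q hq hn
    exact h2 q hq ((trans_var_none eh F q).2 hn)
  · intro x hx
    exact trans_inst Φ eh S' x (h3 _ (trans_im_mem eh X x hx))

theorem trans_few {α α' : Type} [Finite α] {T Z : Type} [MulAction (Perm α) T]
    [MulAction (Perm α') T] (φ : Perm α' → Perm α) (hφ : ∀ g (x : T), g • x = φ g • x) (n : ℕ)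
    (f : T → Z) (h : FewImages α n f) : FewImages α' n f := by
  unfold FewImages at h ⊢
  have hfin : Set.Finite {f' : T → Z | ∃ g : Perm α, ∀ x, f' (g • x) = f x} := by
    have : {f' : T → Z | ∃ g : Perm α, ∀ x, f' (g • x) = f x} ⊆
        Set.range (fun g : Perm α => fun x => f (g⁻¹ • x)) := by
      rintro f' ⟨g, hg⟩
      refine ⟨g, ?_⟩
      funext x
      show f (g⁻¹ • x) = f' x
      rw [← hg, smul_inv_smul]
    exact (Set.finite_range _).subset this
  refine (Nat.card_mono hfin ?_).trans h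
  rintro f' ⟨g, hg⟩
  exact ⟨φ g, fun x => by rw [← hφ]; exact hg x⟩

theorem trans_derives {σ : Sig} {Φ : Sentence σ} {m : ℕ} {α α' B B' Q : Type} [Finite α]
    [Fintype Q] [MulAction (Perm α) Q] [MulAction (Perm α') Q] (φ : Perm α' → Perm α)
    (hφ : ∀ g (x : Q), g • x = φ g • x) (eh : α ⊕ B ≃ α' ⊕ B')
    (F : MDag m (Atom σ (α ⊕ B)) Q) (w c s : ℕ) (L : Finset (Q × Bool))
    (hL : F.Derives Φ w c s L) : (trans_dag eh F).Derives Φ w c s L := by
  induction hL with
  | infer L D X P hw hc hP h ih =>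
    refine MDag.Derives.infer L D (trans_im eh X) P hw ?_ ih
      (trans_entails eh F Φ D X P L h)
    have := trans_im_card eh X
    omega
  | wide Γ q b b' hw hq hP h ih =>
    have hq' : (trans_dag eh F).var q = none := (trans_var_none eh F q).2 hq
    exact MDag.Derives.wide Γ q b b' hw hq' ih h
  | linear Γ q r a ρ hw ha hq hmod hP hchild hr ih =>
    exact MDag.Derives.linear Γ q r a ρ hw (trans_few φ hφ s a ha)
      ⟨(trans_var_none _ F q).2 hq.1, hq.2⟩
      (fun q' hq' => ⟨(trans_var_none _ F q').2 (hmod q' hq').1, (hmod q' hq').2⟩) ih hchild hr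
  | replace Γ q₁ q₂ ρ hw hρ h₁ h₂ hconn hρc hρ₁ hρ₂ hP₁ hP₂ ih₁ ih₂ =>
    exact MDag.Derives.replace Γ q₁ q₂ ρ hw
      (trans_few φ (fun g x => Prod.ext (hφ g x.1) (hφ g x.2)) s ρ hρ)
      ((trans_var_none _ F q₁).2 h₁) ((trans_var_none _ F q₂).2 h₂) hconn hρc hρ₁ hρ₂ ih₁ ih₂

theorem t_TRANS : S_TRANS := by
  intro σ Φ m α α' α'' B Q _ _ _ e F w c s hF hs hR
  let _i : MulAction (Perm α') Q := MulAction.compHom Q (trans_emb e)
  have hact : ∀ (g : Perm α') (q : Q), g • q = trans_emb e g • q := fun g q => rfl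
  refine ⟨_i, trans_dag (trans_eh e B) F, ⟨?_, ?_, ?_⟩, ?_, ?_⟩
  · intro g q
    show (F.var (g • q)).map (Atom.map (trans_eh e B)) =
      ((F.var q).map (Atom.map (trans_eh e B))).map (Atom.map (Sum.map g id))
    rw [hact, hF.var, Option.map_map, Option.map_map]
    congr 1
    funext a
    show (a.map _).map _ = (a.map _).map _
    rw [trans_map_map, trans_map_map]
    congr 1
    funext x
    exact trans_comm e B g x
  · intro g q q'
    exact hF.child (trans_emb e g) q q'
  · intro g q
    exact hF.conn (trans_emb e g) q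
  · intro q
    refine (Nat.card_mono (Set.toFinite _) ?_).trans (hs q)
    rintro _ ⟨g, rfl⟩
    exact ⟨trans_emb e g, rfl⟩
  · exact trans_derives (trans_emb e) hact (trans_eh e B) F w c s ∅ hR

end H688R2.Ord
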