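import Pool.Agent.H688R2.Ord.Spec

namespace H688R2.Ord

open Equiv Finset H688R2.Sym H688R2.Gap H688R2.Cnt

theorem wit_rk_le {β : Type} [LinearOrder β] (Y : Finset β) (x : β) : rk Y x ≤ Y.card :=
  Finset.card_le_card (Finset.filter_subset _ _)

theorem wit_fix {α : Type} [LinearOrder α] (Z : Finset α) (g : α → α)
    (hg : StrictMonoOn g ↑Z) (hgZ : ∀ z ∈ Z, g z ∈ Z) : ∀ z ∈ Z, g z = z := by
  set g' : Z → Z := fun z => ⟨g z.1, hgZ z.1 z.2⟩ with hg'
  have hmono : StrictMono g' := fun a b hab => hg a.2 b.2 hab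
  intro z hz
  have h1 : (⟨z, hz⟩ : Z) ≤ g' ⟨z, hz⟩ := hmono.le_apply
  have h2 : g' ⟨z, hz⟩ ≤ (⟨z, hz⟩ : Z) := hmono.apply_le
  exact le_antisymm h2 h1

theorem t_WIT (hM : S_MATCH) (hE : S_EX) : S_WIT := by
  classical
  intro α _ _ _ p hp P hP Z hZ W hW
  set Y : Finset ℚ := Z.image p with hY
  have hYc : Y.card = Z.card := Finset.card_image_of_injective _ hp.injective
  obtain ⟨J', hJ', hτ⟩ := hE α P univ Z (Finset.subset_univ _) hZ (by simpa using hP)
    (tau Y (W \ Y)) (by
      intro i hi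
      unfold tau
      rw [Finset.card_eq_zero, Finset.filter_eq_empty_iff]
      intro x _ hx
      have := wit_rk_le Y x
      omega) (by
      intro i
      unfold tau
      refine lt_of_le_of_lt ?_ hW
      exact (Finset.card_le_card (Finset.filter_subset _ _)).trans
        (Finset.card_le_card Finset.sdiff_subset))
  have hdis : Disjoint Z J' := by
    rw [Finset.disjoint_left]
    intro a ha ha'
    exact (Finset.mem_sdiff.1 (hJ' ha')).2 ha
  obtain ⟨e, he, heY, -⟩ := hM ℚ α Y (W \ Y) Z J' Finset.disjoint_sdiff hdis hYc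
    (fun i => by rw [hτ])
  rw [Finset.union_sdiff_self_eq_union] at he
  refine ⟨e, he, ?_⟩
  have hpY : ∀ z ∈ Z, p z ∈ Y := fun z hz => Finset.mem_image_of_mem p hz
  refine wit_fix Z (fun z => e (p z)) ?_ ?_
  · intro a ha b hb hab
    exact he (Finset.mem_coe.2 (Finset.mem_union_left _ (hpY a ha)))
      (Finset.mem_coe.2 (Finset.mem_union_left _ (hpY b hb))) (hp hab)
  · intro z hz
    rw [← heY]
    exact Finset.mem_image_of_mem e (hpY z hz)

end H688R2.Ord
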