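import Pool.Agent.H688R2.Ord.Spec
import Pool.Agent.H688R2.Cnt.Ext

/-!
# Truth values in worlds that are linear orders
-/

namespace H688R2.Ord

open Equiv Finset H688R2.Sym H688R2.Gap H688R2.Cnt H534R2.SymSw

variable {σ : Sig} {α B Q : Type} {m : ℕ} [LinearOrder α] [Fintype α] [MulAction (Perm α) Q]

/-- the truth value of `q` in the world `g`, in which the element `a` is at the place `g a` -/
noncomputable def W (F : MDag m (Atom σ (α ⊕ B)) Q) (S : Atom σ (α ⊕ B) → Prop)
    (ν : Finset α → Perm α) (q : Q) (g : Perm α) : Prop :=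
  match F.var q with
  | some a => S (a.map (Sum.map g id))
  | none => F.conn q
      (∃ q' : {q' // F.child q q'}, W F S ν q'.1 (ν ((sup q : Finset α).map g.toEmbedding) * g))
      (∃ q' : {q' // F.child q q'}, ¬ W F S ν q'.1 (ν ((sup q : Finset α).map g.toEmbedding) * g))
      (Nat.card {q' : {q' // F.child q q'} //
        W F S ν q'.1 (ν ((sup q : Finset α).map g.toEmbedding) * g)} : ZMod m)
termination_by F.level q
decreasing_by all_goals exact F.child_lt _ _ q'.2

theorem W_var (F : MDag m (Atom σ (α ⊕ B)) Q) (S : Atom σ (α ⊕ B) → Prop)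
    (ν : Finset α → Perm α) {q : Q} {a} (h : F.var q = some a) (g : Perm α) :
    W F S ν q g ↔ S (a.map (Sum.map g id)) := by
  rw [W, h]

theorem W_conn (F : MDag m (Atom σ (α ⊕ B)) Q) (S : Atom σ (α ⊕ B) → Prop)
    (ν : Finset α → Perm α) {q : Q} (h : F.var q = none) (g : Perm α) :
    W F S ν q g ↔ F.conn q
      (∃ q', F.child q q' ∧ W F S ν q' (ν ((sup q : Finset α).map g.toEmbedding) * g))
      (∃ q', F.child q q' ∧ ¬ W F S ν q' (ν ((sup q : Finset α).map g.toEmbedding) * g))
      (Nat.card {q' // F.child q q' ∧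
        W F S ν q' (ν ((sup q : Finset α).map g.toEmbedding) * g)} : ZMod m) := by
  rw [W, h]
  simp only [Subtype.exists, exists_prop]
  have : Nat.card {q' : {q' // F.child q q'} //
      W F S ν q'.1 (ν ((sup q : Finset α).map g.toEmbedding) * g)} =
      Nat.card {q' // F.child q q' ∧
        W F S ν q' (ν ((sup q : Finset α).map g.toEmbedding) * g)} := by
    apply Nat.card_congr
    exact Equiv.subtypeSubtypeEquivSubtypeInter (fun q' => F.child q q')
      (fun q' => W F S ν q' (ν ((sup q : Finset α).map g.toEmbedding) * g))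
  rw [this]

omit [LinearOrder α] [Fintype α] in
theorem map_map_mul (a : Atom σ (α ⊕ B)) (g h : Perm α) :
    (a.map (Sum.map h id)).map (Sum.map g id) = a.map (Sum.map (g * h : Perm α) id) := by
  unfold Atom.map
  simp only
  congr 1
  funext i
  rcases a.2 i with x | b <;> rfl

omit [LinearOrder α] [Fintype α] in
theorem fmap_mul (s : Finset α) (g h : Perm α) :
    (s.map h.toEmbedding).map g.toEmbedding = s.map (g * h : Perm α).toEmbedding := by
  rw [Finset.map_map]
  rfl

theorem W_smul (F : MDag m (Atom σ (α ⊕ B)) Q) (hF : F.Invariant) (S : Atom σ (α ⊕ B) → Prop)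
    (ν : Finset α → Perm α) :
    ∀ n q, F.level q = n → ∀ g h : Perm α, (W F S ν (h • q) g ↔ W F S ν q (g * h)) := by
  intro n
  induction n using Nat.strong_induction_on with
  | _ n ih =>
    intro q hq g h
    rcases hv : F.var q with _ | a
    · have hv' : F.var (h • q) = none := by rw [hF.var, hv]; rfl
      rw [W_conn F S ν hv', W_conn F S ν hv, hF.conn, sup_smul, fmap_mul]
      set u := ν ((sup q : Finset α).map (g * h : Perm α).toEmbedding) with hu
      have key : ∀ (ε : Prop → Prop) (q' : Q),
          (F.child (h • q) (h • q') ∧ ε (W F S ν (h • q') (u * g))) ↔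
            (F.child q q' ∧ ε (W F S ν q' (u * (g * h)))) := by
        intro ε q'
        rw [hF.child]
        refine and_congr_right fun hc => ?_
        rw [ih _ (by rw [← hq]; exact F.child_lt _ _ hc) _ rfl, mul_assoc]
      have k1 := ex_smul h (p := fun q' => F.child q q' ∧ W F S ν q' (u * (g * h)))
        (p' := fun q' => F.child (h • q) q' ∧ W F S ν q' (u * g)) (key id)
      have k2 := ex_smul h (p := fun q' => F.child q q' ∧ ¬ W F S ν q' (u * (g * h)))
        (p' := fun q' => F.child (h • q) q' ∧ ¬ W F S ν q' (u * g)) (key Not)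
      have k3 := card_smul h (p := fun q' => F.child q q' ∧ W F S ν q' (u * (g * h)))
        (p' := fun q' => F.child (h • q) q' ∧ W F S ν q' (u * g)) (key id)
      rw [k1, k2, k3]
    · have hv' : F.var (h • q) = some (a.map (Sum.map h id)) := by rw [hF.var, hv]; rfl
      rw [W_var F S ν hv', W_var F S ν hv, map_map_mul]

/-- A truth assignment that evaluates each formula after moving its support by `ν`. -/
structure IsVal (F : MDag m (Atom σ (α ⊕ B)) Q) (S : Atom σ (α ⊕ B) → Prop)
    (ν : Finset α → Perm α) (v : Q → Prop) : Prop where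
  var : ∀ q a, F.var q = some a → (v q ↔ S a)
  conn : ∀ q, F.var q = none → (v q ↔ F.conn q
    (∃ q', F.child (ν (sup q) • q) q' ∧ v q') (∃ q', F.child (ν (sup q) • q) q' ∧ ¬ v q')
    (Nat.card {q' // F.child (ν (sup q) • q) q' ∧ v q'} : ZMod m))

theorem exists_isVal (F : MDag m (Atom σ (α ⊕ B)) Q) (hF : F.Invariant)
    (S : Atom σ (α ⊕ B) → Prop) (ν : Finset α → Perm α) : ∃ v : Q → Prop, IsVal F S ν v := by
  refine ⟨fun q => W F S ν q 1, ?_, ?_⟩
  · intro q a h
    rw [W_var F S ν h]
    have : a.map (Sum.map (1 : Perm α) id) = a := by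
      unfold Atom.map
      rcases a with ⟨r, a⟩
      congr 1
      funext i
      simp only
      rcases a i with x | b <;> rfl
    rw [this]
  · intro q h
    rw [W_conn F S ν h]
    have h1 : (sup q : Finset α).map (1 : Perm α).toEmbedding = sup q := Finset.map_refl
    rw [h1, mul_one]
    set u := ν (sup q) with hu
    have key : ∀ (ε : Prop → Prop) (q' : Q),
        (F.child (u • q) (u • q') ∧ ε (W F S ν (u • q') 1)) ↔ (F.child q q' ∧ ε (W F S ν q' u)) := by
      intro ε q'
      rw [hF.child, W_smul F hF S ν _ q' rfl, one_mul]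
    have k1 := ex_smul u (p := fun q' => F.child q q' ∧ W F S ν q' u)
      (p' := fun q' => F.child (u • q) q' ∧ W F S ν q' 1) (key id)
    have k2 := ex_smul u (p := fun q' => F.child q q' ∧ ¬ W F S ν q' u)
      (p' := fun q' => F.child (u • q) q' ∧ ¬ W F S ν q' 1) (key Not)
    have k3 := card_smul u (p := fun q' => F.child q q' ∧ W F S ν q' u)
      (p' := fun q' => F.child (u • q) q' ∧ W F S ν q' 1) (key id)
    rw [k1, k2, k3]

end H688R2.Ord
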